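import Pool.Agent.W2helper4.MJ.Main

/-!
# Mumford–Tate Lie algebras of sums of fibres, the abstract form, and products of families at several points
-/

set_option autoImplicit false
set_option maxHeartbeats 1000000

open Matrix Pool.Agent.Y113.MT

namespace Pool.Agent.W2helper4.MJ

open Pool.Agent.Y119.HY Pool.Agent.Y119.HZ Pool.Agent.Y118.CM
open Pool.Agent.Y119.HA (Flx)
open Pool.Agent.W2helper4.HJ (JJ Eqv not_int)
open Pool.Agent.Y916.Al (Ht)

/-- **The abstract form:** generic pairs of fibres are jointly Hodge generic. -/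
theorem mt_abs {r : ℕ} {m : Fin r → ℕ} (hm : ∀ i, 4 ≤ m i) (β : ∀ i, Fin (m i) → ℚ) (hβ : ∀ i j, ∀ a : ℤ, β i j ≠ a) :
    ∃ N : ℕ, ∀ (s : ℕ) (c : Fin s → Fin r) (ξ : Fin s → ℂ), (∀ a, 1 < ‖ξ a‖) →
    (∀ a, GenS N (Jm (2 * m (c a)) (QB (β (c a)))) (Hf (Hc (2 * m (c a)) (QB (β (c a)))) (1 / ξ a))) →
    (∀ a a', a ≠ a' → GenP N (Jm (2 * m (c a)) (QB (β (c a)))) (Jm (2 * m (c a')) (QB (β (c a'))))
      (Hf (Hc (2 * m (c a)) (QB (β (c a)))) (1 / ξ a)) (Hf (Hc (2 * m (c a')) (QB (β (c a')))) (1 / ξ a'))) →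
    ∀ (l : Fin s → ℂ) (C : ∀ a, Matrix (Fin (2 * m (c a))) (Fin (2 * m (c a))) ℂ)
      (M A : ∀ a, Matrix (Fin (2 * m (c a))) (Fin (2 * m (c a))) ℚ) (q κ : Fin s → ℂ), (∀ a, (C a).det ≠ 0) →
    (∀ a, q a ≠ 0) → (∀ a, C a * cq (M a) = q a • (NN ℂ (2 * m (c a)) * C a)) → (∀ a, κ a ≠ 0) →
    (∀ a, C a * cq (A a) * (C a)ᵀ = κ a • SS ℂ (2 * m (c a))) →
    ∀ (Fil H : ∀ a, ℕ → Submodule ℂ (Fin (2 * m (c a)) → ℂ)),
    (∀ a p, m (c a) ≤ p → Fil a p = Flx (β (c a)) (ξ a) (l a) (C a) p) →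
    (∀ a, Polarised (Fil a) (A a) (H a)) →
    ∀ V : Submodule ℚ (∀ a, Matrix (Fin (2 * m (c a))) (Fin (2 * m (c a))) ℚ),
    (∀ X ∈ V, ∀ Y ∈ V, (fun a => X a * Y a - Y a * X a) ∈ V) →
    (∀ Φ : ∀ a, Matrix (Fin (2 * m (c a))) (Fin (2 * m (c a))) ℂ,
      (∀ a, ∀ p < 2 * m (c a), ∀ v ∈ H a p, v ᵥ* Φ a = (p : ℂ) • v) →
      Φ ∈ Submodule.span ℂ (tq '' (V : Set (∀ a, Matrix (Fin (2 * m (c a))) (Fin (2 * m (c a))) ℚ)))) →
    ∀ X : ∀ a, Matrix (Fin (2 * m (c a))) (Fin (2 * m (c a))) ℚ, (∀ a, X a * A a + A a * (X a)ᵀ = 0) → X ∈ V := by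
  classical
  have hm1 : ∀ i, 1 ≤ m i := fun i => by have := hm i; omega
  have hQ : ∀ i, QD (2 * m i) (QB (β i)) := fun i => QD_QB (hm1 i) (not_int (hβ i))
  have hJr : ∀ i, (NN ℂ (2 * m i))ᵀ * cq (Jm (2 * m i) (QB (β i))) = -(cq (Jm (2 * m i) (QB (β i))) * NN ℂ (2 * m i)) := by
    intro i
    have h2 : (cm (Am (2 * m i))).transpose * cm (Jm (2 * m i) (QB (β i))) + cm (Jm (2 * m i) (QB (β i))) * cm (Am (2 * m i)) = 0 :=
      Jc_rel
    rw [← NN_eq] at h2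
    exact eq_neg_of_add_eq_zero_left h2
  choose N1 hN1 using fun i => single_lem (hm i) (Δ := DN (β i)) (Jm_det (hQ i)) (Jm_skew (hQ i)) (hJr i)
  choose N2 hN2 using fun i j => pair_lem (hm i) (hm j) (Δ := DN (β i)) (Δ' := DN (β j)) (Jm_det (hQ i)) (Jm_skew (hQ i)) (hJr i)
    (Jm_det (hQ j)) (Jm_skew (hQ j)) (hJr j)
  set N := max (Finset.univ.sup N1) (Finset.univ.sup fun x : Fin r × Fin r => N2 x.1 x.2) with hN
  have hN1' : ∀ i, N1 i ≤ N := fun i => (Finset.le_sup (f := N1) (Finset.mem_univ i)).trans (le_max_left _ _)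
  have hN2' : ∀ i j, N2 i j ≤ N := fun i j =>
    (Finset.le_sup (f := fun x : Fin r × Fin r => N2 x.1 x.2) (Finset.mem_univ (i, j))).trans (le_max_right _ _)
  refine ⟨N, fun s c ξ hz hS hP l C M A q κ hC hq hM hκ hA Fil H hFil hH V hV hΦ X hX => ?_⟩
  -- the data
  choose G B Λ Φ κ' c' hPD hHo hun using fun a => pd_x (hm1 (c a)) (hQ (c a)) (hz a) (l a) (hC a) (hM a) (hκ a) (hA a)
    (hFil a) (hH a)
  -- the reduction to similitudes
  set V' := V ⊓ gspT A with hV'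
  have hΦV : Φ ∈ Submodule.span ℂ (tq '' (V' : Set (∀ a, Matrix (Fin (2 * m (c a))) (Fin (2 * m (c a))) ℚ))) := by
    refine span_ap fun φ => ⟨ap_mem (hΦ Φ hHo) φ, fun a => ⟨φ (((2 * m (c a) - 1 : ℕ) : ℂ)), ?_⟩⟩
    have h1 := (hPD a).PhiA
    ext i j
    have h2 := congrArg φ (congrFun (congrFun h1 i) j)
    rw [Matrix.add_apply, Matrix.mul_apply, Matrix.mul_apply, map_add, map_sum, map_sum, Matrix.smul_apply, smul_eq_mul,
      cq_apply, phi_mul] at h2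
    rw [Matrix.add_apply, Matrix.mul_apply, Matrix.mul_apply, Matrix.smul_apply, smul_eq_mul, ← h2]
    congr 1
    · refine Finset.sum_congr rfl fun k _ => ?_
      rw [cq_apply, phi_mul]
      rfl
    · refine Finset.sum_congr rfl fun k _ => ?_
      rw [cq_apply, Matrix.transpose_apply, mul_comm (((A a i k : ℚ)) : ℂ), phi_mul, Matrix.transpose_apply, mul_comm]
      rfl
  have hbr : ∀ X ∈ V', ∀ Y ∈ V', (fun a => X a * Y a - Y a * X a) ∈ V' := by
    rintro X ⟨hX1, hX2⟩ Y ⟨hY1, hY2⟩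
    refine ⟨hV X hX1 Y hY1, fun a => ⟨0, ?_⟩⟩
    obtain ⟨t, ht⟩ := hX2 a
    obtain ⟨t', ht'⟩ := hY2 a
    rw [zero_smul]
    exact br_gsp ht ht'
  have hmain : X ∈ V' := by
    refine ribet A (fun a => (hPD a).Askew) (fun a => (hPD a).Adet) V' hbr ?_ ?_ X hX
    · intro a a' haa Z hZ
      have h1 := hN2 (c a) (c a') (q a) _ (G a) (B a) (Λ a) (Φ a) (M a) (A a) (κ' a) (c' a) (q a') _ (G a') (B a') (Λ a')
        (Φ a') (M a') (A a') (κ' a') (c' a') (hq a) (hq a') (hPD a) (hPD a') ((hP a a' haa).mono (hN2' _ _))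
        (V'.map (LinearMap.prod (LinearMap.proj a) (LinearMap.proj a'))) (by
          rintro _ ⟨u, hu, rfl⟩ _ ⟨v, hv, rfl⟩
          exact ⟨_, hbr u hu v hv, rfl⟩) (by
          have h2 : (Φ a, Φ a') ∈ (Submodule.span ℂ (tq '' (V' : Set (∀ a, Matrix (Fin (2 * m (c a))) (Fin (2 * m (c a))) ℚ)))).map
            (LinearMap.prod (LinearMap.proj a) (LinearMap.proj a')) := ⟨_, hΦV, rfl⟩
          rw [Submodule.map_span] at h2
          refine Submodule.span_mono ?_ h2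
          rintro _ ⟨_, ⟨z, hz, rfl⟩, rfl⟩
          exact ⟨(z a, z a'), ⟨z, hz, rfl⟩, rfl⟩) (by
          rintro _ ⟨u, hu, rfl⟩
          exact hu.2 a) (by
          rintro _ ⟨u, hu, rfl⟩
          exact hu.2 a') Z hZ
      obtain ⟨Y, hY, hYe⟩ := h1
      exact ⟨Y, hY, congrArg Prod.fst hYe, congrArg Prod.snd hYe⟩
    · intro a Z hZ
      have h1 := hN1 (c a) (q a) _ (G a) (B a) (Λ a) (Φ a) (M a) (A a) (κ' a) (c' a) (hq a) (hPD a) ((hS a).mono (hN1' _))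
        (V'.map (LinearMap.proj a)) (by
          rintro _ ⟨u, hu, rfl⟩ _ ⟨v, hv, rfl⟩
          exact ⟨_, hbr u hu v hv, rfl⟩) (by
          have h2 : Φ a ∈ (Submodule.span ℂ (tq '' (V' : Set (∀ a, Matrix (Fin (2 * m (c a))) (Fin (2 * m (c a))) ℚ)))).map
            (LinearMap.proj a) := ⟨_, hΦV, rfl⟩
          rw [Submodule.map_span] at h2
          refine Submodule.span_mono ?_ h2
          rintro _ ⟨_, ⟨z, hz, rfl⟩, rfl⟩
          exact ⟨z a, ⟨z, hz, rfl⟩, rfl⟩) Z hZ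
      obtain ⟨Y, hY, hYe⟩ := h1
      exact ⟨Y, hY, hYe⟩
  exact hmain.1

/-! ### relations over the rational numbers at several points -/

section
variable {r : ℕ} {m : Fin r → ℕ}

/-- all relations of degree at most `N` between the entries of the holomorphic parts of all families at the points `z_j`
hold on the product of the symplectic groups -/
def GenAll (β : ∀ i, Fin (m i) → ℚ) (N : ℕ) {k : ℕ} (z : Fin k → ℂ) : Prop :=
  ∀ P : MvPolynomial (Vs m k) ℚ, P.totalDegree ≤ N →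
    MvPolynomial.aeval (fun x : Vs m k => Hf (Hc (2 * m x.2.1) (QB (β x.2.1))) (z x.1) x.2.2.1 x.2.2.2) P = 0 →
    ∀ γ : Fin k → ∀ i, Matrix (Fin (2 * m i)) (Fin (2 * m i)) ℂ, (∀ j i, (γ j i)ᵀ * JJ (β i) * γ j i = JJ (β i)) →
    MvPolynomial.aeval (fun x : Vs m k => γ x.1 x.2.1 x.2.2.1 x.2.2.2) P = 0

variable {β : ∀ i, Fin (m i) → ℚ}

/-- relations in other variables -/
lemma GenAll.ren {N k : ℕ} {z : Fin k → ℂ} (h : GenAll β N z) {ι : Type} (f : ι → Vs m k) (P : MvPolynomial ι ℚ)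
    (hP : P.totalDegree ≤ N)
    (h0 : MvPolynomial.aeval (fun x => Hf (Hc (2 * m (f x).2.1) (QB (β (f x).2.1))) (z (f x).1) (f x).2.2.1 (f x).2.2.2) P = 0)
    (γ : Fin k → ∀ i, Matrix (Fin (2 * m i)) (Fin (2 * m i)) ℂ) (hγ : ∀ j i, (γ j i)ᵀ * JJ (β i) * γ j i = JJ (β i)) :
    MvPolynomial.aeval (fun x => γ (f x).1 (f x).2.1 (f x).2.2.1 (f x).2.2.2) P = 0 := by
  have h1 := h (MvPolynomial.rename f P) ((MvPolynomial.totalDegree_rename_le _ _).trans hP) (by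
      rw [MvPolynomial.aeval_rename]
      exact h0) γ hγ
  rw [MvPolynomial.aeval_rename] at h1
  exact h1

/-- the identity, at all points -/
def oK (m : Fin r → ℕ) (k : ℕ) : ∀ x : Fin k × Fin r, Matrix (Fin (2 * m x.2)) (Fin (2 * m x.2)) ℂ := fun _ => 1

lemma oK_ok {k : ℕ} (x : Fin k × Fin r) : (oK m k x)ᵀ * JJ (β x.2) * oK m k x = JJ (β x.2) := by
  unfold oK
  rw [transpose_one, Matrix.one_mul, Matrix.mul_one]

lemma updK_ok {k : ℕ} {x0 : Fin k × Fin r} {h : Matrix (Fin (2 * m x0.2)) (Fin (2 * m x0.2)) ℂ}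
    (hh : hᵀ * JJ (β x0.2) * h = JJ (β x0.2))
    {f : ∀ x : Fin k × Fin r, Matrix (Fin (2 * m x.2)) (Fin (2 * m x.2)) ℂ}
    (hf : ∀ x, (f x)ᵀ * JJ (β x.2) * f x = JJ (β x.2)) (x : Fin k × Fin r) :
    (Function.update f x0 h x)ᵀ * JJ (β x.2) * Function.update f x0 h x = JJ (β x.2) := by
  by_cases hx : x = x0
  · subst hx
    rw [Function.update_self]
    exact hh
  · rw [Function.update_of_ne hx]
    exact hf x

/-- one block -/
lemma GenAll.single {N k : ℕ} {z : Fin k → ℂ} (h : GenAll β N z) (x0 : Fin k × Fin r) :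
    GenS N (Jm (2 * m x0.2) (QB (β x0.2))) (Hf (Hc (2 * m x0.2) (QB (β x0.2))) (z x0.1)) := by
  intro P hP h0 g hg
  have h1 := h.ren (fun x : Fin (2 * m x0.2) × Fin (2 * m x0.2) => (x0.1, (⟨x0.2, x⟩ : Σ i, Fin (2 * m i) × Fin (2 * m i))))
    P hP h0 (fun j i => Function.update (oK m k) x0 g (j, i)) (fun j i => updK_ok hg oK_ok (j, i))
  rw [← h1]
  refine congrArg (fun z => MvPolynomial.aeval z P) (funext fun x => ?_)
  show g x.1 x.2 = Function.update (oK m k) x0 g x0 x.1 x.2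
  rw [Function.update_self]

/-- two blocks -/
lemma GenAll.pair {N k : ℕ} {z : Fin k → ℂ} (h : GenAll β N z) {x0 x1 : Fin k × Fin r} (hx : x0 ≠ x1) :
    GenP N (Jm (2 * m x0.2) (QB (β x0.2))) (Jm (2 * m x1.2) (QB (β x1.2)))
      (Hf (Hc (2 * m x0.2) (QB (β x0.2))) (z x0.1)) (Hf (Hc (2 * m x1.2) (QB (β x1.2))) (z x1.1)) := by
  intro P hP h0 g' g hg' hg
  have h1 := h.ren (Sum.elim
    (fun x : Fin (2 * m x1.2) × Fin (2 * m x1.2) => (x1.1, (⟨x1.2, x⟩ : Σ i, Fin (2 * m i) × Fin (2 * m i))))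
    (fun x : Fin (2 * m x0.2) × Fin (2 * m x0.2) => (x0.1, (⟨x0.2, x⟩ : Σ i, Fin (2 * m i) × Fin (2 * m i)))))
    P hP (by
      rw [← h0]
      refine congrArg (fun z => MvPolynomial.aeval z P) (funext fun x => ?_)
      rcases x with x | x <;> rfl)
    (fun j i => Function.update (Function.update (oK m k) x0 g) x1 g' (j, i))
    (fun j i => updK_ok hg' (updK_ok hg oK_ok) (j, i))
  rw [← h1]
  refine congrArg (fun z => MvPolynomial.aeval z P) (funext fun x => ?_)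
  rcases x with x | x
  · show g' x.1 x.2 = Function.update (Function.update (oK m k) x0 g) x1 g' x1 x.1 x.2
    rw [Function.update_self]
  · show g x.1 x.2 = Function.update (Function.update (oK m k) x0 g) x1 g' x0 x.1 x.2
    rw [Function.update_of_ne hx, Function.update_self]

end

end Pool.Agent.W2helper4.MJ
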