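import Pool.Agent.W2helper4.HJ.Inst
import Pool.Agent.Y119.HA.One

/-!
# Relations between the fibres of several families at algebraic points
-/

set_option autoImplicit false
set_option maxHeartbeats 4000000

open Matrix PowerSeries Pool.Agent.Y113 Pool.Agent.Y120.GF Pool.Agent.Y120.GH

namespace Pool.Agent.W2helper4.MJ

open Pool.Agent.Y119.HY (cm E Hf Yf Hc Am Jm Bm QB QD Sol Ac_nil Jc_rel Jc_skew Jc_det sol_c Gal map_C_eval)
open Pool.Agent.Y119.HZ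
open Pool.Agent.W2helper4.HJ
open Pool.Agent.Y916.Al (Ht evc)

section group
variable {n : ℕ}

/-- a group of matrices which is connected by polynomial paths -/
structure PG (G : Submonoid (Matrix (Fin n) (Fin n) ℂ)) : Prop where
  path : ∀ g ∈ G, ∃ M : Matrix (Fin n) (Fin n) (Polynomial ℂ), M.map (Polynomial.eval 0) = 1 ∧
    M.map (Polynomial.eval 1) = g ∧ ∀ c, M.map (Polynomial.eval c) ∈ G
  inv : ∀ g ∈ G, ∃ W ∈ G, g * W = 1

/-- the power of the group as a set of points -/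
def Gpt (G : Submonoid (Matrix (Fin n) (Fin n) ℂ)) (k : ℕ) : Set (Fin k × Fin (n * n) → ℂ) :=
  {y | ∃ γ : Fin k → Matrix (Fin n) (Fin n) ℂ, (∀ j, γ j ∈ G) ∧ y = fun a => γ a.1 (ix n a.2).1 (ix n a.2).2}

/-- **irreducibility** -/
theorem Gpt_irr {G : Submonoid (Matrix (Fin n) (Fin n) ℂ)} (hG : PG G) (k : ℕ) : Pool.Agent.Y118.UL.Irr (Gpt G k) := by
  intro P Q h
  by_contra hcon
  push Not at hcon
  obtain ⟨⟨_, ⟨g1, hg1, rfl⟩, h1⟩, ⟨_, ⟨g2, hg2, rfl⟩, h2⟩⟩ := hcon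
  choose W hW hgW using fun j => hG.inv (g1 j) (hg1 j)
  choose M hM0 hM1 hM using fun j => hG.path (W j * g2 j) (G.mul_mem (hW j) (hg2 j))
  set N : Fin k → Matrix (Fin n) (Fin n) (Polynomial ℂ) := fun j => (g1 j).map Polynomial.C * M j with hN
  have hNe : ∀ j c, (N j).map (Polynomial.eval c) = g1 j * (M j).map (Polynomial.eval c) := by
    intro j c
    rw [hN, Pool.Agent.Y118.CM.map_mul', map_C_eval]
  have hev : ∀ (R : MvPolynomial (Fin k × Fin (n * n)) ℂ) (c : ℂ),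
      Polynomial.eval c (MvPolynomial.aeval (fun a => N a.1 (ix n a.2).1 (ix n a.2).2) R) =
      MvPolynomial.eval (fun a => (g1 a.1 * (M a.1).map (Polynomial.eval c)) (ix n a.2).1 (ix n a.2).2) R := by
    intro R c
    have h3 : (Polynomial.aeval c : Polynomial ℂ →ₐ[ℂ] ℂ).comp
        (MvPolynomial.aeval (fun a : Fin k × Fin (n * n) => N a.1 (ix n a.2).1 (ix n a.2).2)) =
        MvPolynomial.aeval (fun a : Fin k × Fin (n * n) =>
          (g1 a.1 * (M a.1).map (Polynomial.eval c)) (ix n a.2).1 (ix n a.2).2) := by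
      refine MvPolynomial.algHom_ext fun a => ?_
      rw [AlgHom.comp_apply, MvPolynomial.aeval_X, MvPolynomial.aeval_X, ← hNe]
      rfl
    exact DFunLike.congr_fun h3 R
  set p := MvPolynomial.aeval (fun a : Fin k × Fin (n * n) => N a.1 (ix n a.2).1 (ix n a.2).2) P with hp
  set q := MvPolynomial.aeval (fun a : Fin k × Fin (n * n) => N a.1 (ix n a.2).1 (ix n a.2).2) Q with hq
  have hp0 : p ≠ 0 := by
    intro h0
    apply h1
    have h3 := hev P 0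
    rw [← hp, h0, Polynomial.eval_zero] at h3
    simp only [hM0, mul_one] at h3
    exact h3.symm
  have hq0 : q ≠ 0 := by
    intro h0
    apply h2
    have h3 := hev Q 1
    rw [← hq, h0, Polynomial.eval_zero] at h3
    simp only [hM1, ← Matrix.mul_assoc, hgW, one_mul] at h3
    exact h3.symm
  obtain ⟨s, hs⟩ := Infinite.exists_notMem_finset (p * q).roots.toFinset
  have h3 : (p * q).eval s ≠ 0 := by
    intro h3
    exact hs (Multiset.mem_toFinset.2 ((Polynomial.mem_roots (mul_ne_zero hp0 hq0)).2 h3))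
  rw [Polynomial.eval_mul, hev, hev] at h3
  exact h3 (h _ ⟨fun j => g1 j * (M j).map (Polynomial.eval s), fun j => G.mul_mem (hg1 j) (hM j s), rfl⟩)

end group

section sys
variable {n : ℕ} {N : Matrix (Fin n) (Fin n) ℤ} {H W : Matrix (Fin n) (Fin n) ℚ⟦X⟧} {T : Polynomial ℤ}
    {A : Fin n → Fin n → Polynomial ℤ} {N1 : Matrix (Fin n) (Fin n) ℂ} {G : Submonoid (Matrix (Fin n) (Fin n) ℂ)}

/-- the entries of the holomorphic part form a family of G-functions -/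
theorem gfs_hg (h : US N H W T A) :
    Pool.Agent.Y916.Af.GFs (Polynomial.X * T) (fun a c : Fin (n * n) => B2 N T A (ix n a) (ix n c)) (hg H) := by
  obtain ⟨q, C, hG⟩ := gsysL (N := rm N) h.nil h.inv h.ode h.gH h.gW
  have hG' := hG.reindex (ix n)
  have hT : Polynomial.X * T ≠ 0 := mul_ne_zero Polynomial.X_ne_zero h.T0
  refine ⟨hT, fun i => ?_, ⟨C, hG'.size⟩, ⟨q, C, hG'⟩, qu_hg h⟩
  have h1 := ode_B2 h (ix n i)
  have h2 : ∑ j : Fin (n * n), Pool.Agent.Y113.ps (B2 N T A (ix n i) (ix n j)) * hg H j =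
      ∑ q, Pool.Agent.Y113.ps (B2 N T A (ix n i) q) * H q.1 q.2 :=
    Equiv.sum_comp (ix n) fun q => Pool.Agent.Y113.ps (B2 N T A (ix n i) q) * H q.1 q.2
  exact h1.trans h2.symm

/-- the values -/
theorem evc_hg (z : ℂ) (i : Fin (n * n)) : evc z (hg H i) = Hf (Hcc H) z (ix n i).1 (ix n i).2 := by
  unfold Hf
  rw [Matrix.of_apply]
  rfl

/-- **invariance of the relations between the entries of the holomorphic part, at complex points** -/
theorem rel_inv_z (hN : cm (rm N) ^ n = 0) (hG : GD N H N1 G) {R : MvPolynomial (Fin (n * n)) (Polynomial ℚ)}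
    (hR : MvPolynomial.aeval (hg H) R = 0) {z : ℂ} (hz : ‖z‖ < 1) {κ : Matrix (Fin n) (Fin n) ℂ} (hκ : κ ∈ G) :
    MvPolynomial.eval₂ (evq z) (fun j => (Hf (Hcc H) z * κ) (ix n j).1 (ix n j).2) R = 0 := by
  refine Pool.Agent.Y119.HA.zero_of_real (f := fun z => MvPolynomial.eval₂ (evq z)
    (fun j => (Hf (Hcc H) z * κ) (ix n j).1 (ix n j).2) R) (Pool.Agent.Y119.HA.an_ev fun j => ?_)
    (fun x hx hx1 => rel_invg hN hG.sol hR hx hx1
      (hG.gal _ (G.mul_mem (G.mul_mem (hG.exp _) hκ) (hG.exp _)))) hz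
  simp only [Matrix.mul_apply]
  intro w hw
  refine Finset.analyticAt_fun_sum _ fun c _ => ?_
  exact ((Pool.Agent.Y119.HY.Hf_an hG.sol hN _ _) w hw).mul analyticAt_const

/-- the points of the group satisfy the relations between the entries of the holomorphic part -/
theorem mem_Vg (hN : cm (rm N) ^ n = 0) (hG : GD N H N1 G) (hP : PG G) {z : ℂ} (hz : ‖z‖ < 1) (hv : Hf (Hcc H) z ∈ G)
    {g : Matrix (Fin n) (Fin n) ℂ} (hg : g ∈ G) :
    (fun i => g (ix n i).1 (ix n i).2) ∈ Pool.Agent.Y916.Af.Vc (HJ.hg H) z := by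
  obtain ⟨W, hW, hW1⟩ := hP.inv _ hv
  intro R hR
  have h3 := rel_inv_z hN hG (R := R) hR hz (G.mul_mem hW hg)
  rw [← Matrix.mul_assoc, hW1, one_mul] at h3
  exact h3

/-- **All relations of bounded degree over number fields of bounded degree between the entries of the holomorphic part at
the points `1 / (ξ - G u_j)`, `ξ` algebraic of bounded degree and polynomially bounded height, hold on the group.** -/
theorem sys_alg (h : US N H W T A) (hG : GD N H N1 G) (hP : PG G) (hv : ∀ z : ℂ, ‖z‖ < 1 → Hf (Hcc H) z ∈ G) :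
    ∃ G0 : ℕ, 1 ≤ G0 ∧ ∀ g : ℕ, G0 ≤ g → ∀ k m' a D d : ℕ, ∃ Ex : ℕ, ∀ (B : ℕ) (ξ : ℂ),
    ((B : ℝ) + 2) ^ Ex ≤ ‖ξ‖ → Ht m' a ξ → (g * B : ℝ) + 1 < ‖ξ‖ ∧
    ∀ u : Fin k → ℕ, Function.Injective u → (∀ j, 1 ≤ u j ∧ u j ≤ B) →
    ∀ K : IntermediateField ℚ ℂ, FiniteDimensional ℚ K → Module.finrank ℚ K ≤ D →
    ∀ P : MvPolynomial (Fin k × (Fin n × Fin n)) K, P.totalDegree ≤ d →
    MvPolynomial.aeval (fun x => Hf (Hcc H) (1 / (ξ - ((g * u x.1 : ℕ) : ℂ))) x.2.1 x.2.2) P = 0 →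
    ∀ γ : Fin k → Matrix (Fin n) (Fin n) ℂ, (∀ j, γ j ∈ G) →
    MvPolynomial.aeval (fun x => γ x.1 x.2.1 x.2.2) P = 0 := by
  classical
  have hN : cm (rm N) ^ n = 0 := cm_nil h
  obtain ⟨G0, hG0, hwin⟩ := Pool.Agent.Y916.Af.winNs (Pool.Agent.Y916.Af.nrh_of_gfs (gfs_hg h)) (gfs_hg h).hsize
  refine ⟨G0, hG0, fun g hg k m' a D d => ?_⟩
  obtain ⟨δ₁, Ex, hE⟩ := hwin g hg 0 Fin.elim0 0 k m' D d a
  refine ⟨Ex + (g + 2), fun B ξ hξ hHt => ?_⟩
  have hB1 : (1 : ℝ) ≤ (B : ℝ) + 2 := by linarith [(Nat.cast_nonneg B : (0 : ℝ) ≤ B)]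
  have hB2 : (2 : ℝ) ≤ (B : ℝ) + 2 := by linarith [(Nat.cast_nonneg B : (0 : ℝ) ≤ B)]
  have hbig : ((B : ℝ) + 2) ^ Ex ≤ ‖ξ‖ := (pow_le_pow_right₀ hB1 (by omega)).trans hξ
  have hgB : (g * B : ℝ) + 1 < ‖ξ‖ := by
    have h1 : ((B : ℝ) + 2) ^ (g + 2) ≤ ‖ξ‖ := (pow_le_pow_right₀ hB1 (by omega)).trans hξ
    have h2 : (g : ℝ) + 1 ≤ ((B : ℝ) + 2) ^ (g + 1) := by
      refine le_trans ?_ (pow_le_pow_left₀ (by norm_num) hB2 (g + 1))
      exact_mod_cast (Nat.lt_two_pow_self (n := g + 1)).le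
    have h3 : ((g : ℝ) + 1) * ((B : ℝ) + 2) ≤ ((B : ℝ) + 2) ^ (g + 2) := by
      rw [pow_succ ((B : ℝ) + 2) (g + 1)]
      exact mul_le_mul_of_nonneg_right h2 (by linarith)
    have h4 : (0 : ℝ) ≤ g := Nat.cast_nonneg g
    have h5 : (0 : ℝ) ≤ B := Nat.cast_nonneg B
    nlinarith
  refine ⟨hgB, fun u hu hub K hK hKD P hPd hP0 γ hγ => ?_⟩
  obtain ⟨S, hS, hmain⟩ := hE B ξ hbig hHt Fin.elim0
  have hcard : S.card = 0 := by
    have h1 : (S.card : Cardinal) ≤ 0 := by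
      refine hS.trans (le_of_eq ?_)
      rw [Nat.cast_zero, add_zero]
      have h2 : IntermediateField.adjoin ℚ (Set.range (Fin.elim0 : Fin 0 → ℂ)) = ⊥ := by
        rw [IntermediateField.adjoin_eq_bot_iff]
        rintro _ ⟨i, -⟩
        exact i.elim0
      rw [h2]
      exact trdeg_eq_zero
    have h2 : (S.card : Cardinal) = 0 := le_antisymm h1 bot_le
    exact_mod_cast h2
  have hS0 : S = ∅ := Finset.card_eq_zero.1 hcard
  subst hS0
  have hz : ∀ j, ‖1 / (ξ - ((g * u j : ℕ) : ℂ))‖ < 1 := by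
    intro j
    have h1 := norm_sub_norm_le ξ ((g * u j : ℕ) : ℂ)
    rw [Complex.norm_natCast] at h1
    have h2 : ((g * u j : ℕ) : ℝ) ≤ g * B := by
      push_cast
      exact mul_le_mul_of_nonneg_left (by exact_mod_cast (hub j).2) (Nat.cast_nonneg g)
    have h3 : 1 < ‖ξ - ((g * u j : ℕ) : ℂ)‖ := by linarith
    rw [norm_div, norm_one, div_lt_one (by linarith)]
    exact h3
  have hm := hmain u hu (fun j => ⟨(hub j).1, (hub j).2, by simp⟩)
    (Gpt G k) (Pool.Agent.Y916.Af.irrD_of_irr (Gpt_irr hP k) _)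
    ⟨fun j => Hf (Hcc H) (1 / (ξ - ((g * u j : ℕ) : ℂ))), fun j => hv _ (hz j), by
      funext x
      exact evc_hg _ _⟩ (by
      rintro y ⟨g', hg', rfl⟩ j
      exact mem_Vg hN hG hP (hz j) (hv _ (hz j)) (hg' j)) K hK hKD
    (MvPolynomial.rename (fun x : Fin k × (Fin n × Fin n) => (Sum.inr (x.1, (ix n).symm x.2) :
      (Fin 0 ⊕ Fin 0) ⊕ Fin k × Fin (n * n))) P) ((MvPolynomial.totalDegree_rename_le _ _).trans hPd) (by
      rw [MvPolynomial.aeval_rename, ← hP0]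
      refine congrArg (fun z => MvPolynomial.aeval z P) (funext fun x => ?_)
      show evc (1 / (ξ - ((g * u x.1 : ℕ) : ℂ))) (HJ.hg H ((ix n).symm x.2)) = _
      rw [evc_hg, Equiv.apply_symm_apply]) (fun a => γ a.1 (ix n a.2).1 (ix n a.2).2) ⟨γ, hγ, rfl⟩
  rw [MvPolynomial.aeval_rename] at hm
  rw [← hm]
  refine congrArg (fun z => MvPolynomial.aeval z P) (funext fun x => ?_)
  show _ = γ x.1 (ix n ((ix n).symm x.2)).1 (ix n ((ix n).symm x.2)).2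
  rw [Equiv.apply_symm_apply]

end sys

/-! ### direct sums of hypergeometric systems -/

section fam
variable {r : ℕ} {m : Fin r → ℕ}

theorem pg_GS (β : ∀ i, Fin (m i) → ℚ) (hm : ∀ i, 1 ≤ m i) (hβ : ∀ i j, ∀ a : ℤ, β i j ≠ a) : PG (GS β) := by
  have hQ : ∀ i, QD (2 * m i) (QB (β i)) := fun i => QD_QB (hm i) (not_int (hβ i))
  refine ⟨?_, ?_⟩
  · rintro _ ⟨γ, hγ, rfl⟩
    choose M hM0 hM1 hM using fun i => Pool.Agent.Y118.CM.Pc_all (Jc_skew (hQ i)) (Jc_det (hQ i)) (γ i) (hγ i)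
    have e : ∀ c : ℂ, (bd M).map (Polynomial.eval c) = bd fun i => (M i).map (Polynomial.eval c) := fun c =>
      bd_map _ (Polynomial.eval_zero) M
    refine ⟨bd M, ?_, ?_, fun c => ?_⟩
    · rw [e]
      simp only [hM0]
      exact bd_one
    · rw [e]
      simp only [hM1]
    · rw [e]
      exact mem_GS fun i => hM i c
  · rintro _ ⟨γ, hγ, rfl⟩
    choose W hW1 hW2 hW3 using fun i => isom_inv (Jc_det (hQ i)) (hγ i)
    refine ⟨bd W, mem_GS hW3, ?_⟩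
    rw [← bd_mul]
    simp only [hW1]
    exact bd_one

theorem Hf_HH (β : ∀ i, Fin (m i) → ℚ) (z : ℂ) :
    Hf (Hcc (HH β)) z = bd fun i => Hf (Hc (2 * m i) (QB (β i))) z := by
  have hH : Hcc (HH β) = fun k => bd fun i => Hc (2 * m i) (QB (β i)) k := funext fun k => Hcc_HH β k
  rw [hH, bd_Hf]

theorem val_GS (β : ∀ i, Fin (m i) → ℚ) (hm : ∀ i, 1 ≤ m i) (hβ : ∀ i j, ∀ a : ℤ, β i j ≠ a) {z : ℂ} (hz : ‖z‖ < 1) :
    Hf (Hcc (HH β)) z ∈ GS β := by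
  rw [Hf_HH]
  exact mem_GS fun i => Pool.Agent.Y119.HA.form_c (QD_QB (hm i) (not_int (hβ i))) hz

/-- **All relations of bounded degree between the fibres of pairwise inequivalent families at the points
`1 / (ξ - G u_j)`, `ξ` algebraic of bounded degree and polynomially bounded height, hold on the product of the
symplectic groups.** -/
theorem fam_alg (β : ∀ i, Fin (m i) → ℚ) (hm : ∀ i, 1 ≤ m i) (hβ : ∀ i j, ∀ a : ℤ, β i j ≠ a)
    (hne : ∀ i k, i ≠ k → ¬ Eqv (β i) (β k)) :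
    ∃ G0 : ℕ, 1 ≤ G0 ∧ ∀ g : ℕ, G0 ≤ g → ∀ k m' a D d : ℕ, ∃ Ex : ℕ, ∀ (B : ℕ) (ξ : ℂ),
    ((B : ℝ) + 2) ^ Ex ≤ ‖ξ‖ → Ht m' a ξ → (g * B : ℝ) + 1 < ‖ξ‖ ∧
    ∀ u : Fin k → ℕ, Function.Injective u → (∀ j, 1 ≤ u j ∧ u j ≤ B) →
    ∀ K : IntermediateField ℚ ℂ, FiniteDimensional ℚ K → Module.finrank ℚ K ≤ D →
    ∀ P : MvPolynomial (Fin k × (Σ i, Fin (2 * m i) × Fin (2 * m i))) K, P.totalDegree ≤ d →
    MvPolynomial.aeval (fun x => Hf (Hc (2 * m x.2.1) (QB (β x.2.1))) (1 / (ξ - ((g * u x.1 : ℕ) : ℂ))) x.2.2.1 x.2.2.2)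
      P = 0 →
    ∀ γ : Fin k → ∀ i, Matrix (Fin (2 * m i)) (Fin (2 * m i)) ℂ, (∀ j i, (γ j i)ᵀ * JJ (β i) * γ j i = JJ (β i)) →
    MvPolynomial.aeval (fun x => γ x.1 x.2.1 x.2.2.1 x.2.2.2) P = 0 := by
  obtain ⟨D0, b, hD0, hb⟩ := exists_bb β
  obtain ⟨G0, hG0, h1⟩ := sys_alg (us_HH β hm hβ hD0 hb) (gd_HH β hm hβ hne) (pg_GS β hm hβ)
    (fun z hz => val_GS β hm hβ hz)
  refine ⟨G0, hG0, fun g hg k m' a D d => ?_⟩
  obtain ⟨Ex, h2⟩ := h1 g hg k m' a D d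
  refine ⟨Ex, fun B ξ hξ hHt => ⟨(h2 B ξ hξ hHt).1, fun u hu hub K hK hKD P hPd hP0 γ hγ => ?_⟩⟩
  have h3 := (h2 B ξ hξ hHt).2 u hu hub K hK hKD (MvPolynomial.rename (fun x : Fin k × (Σ i, Fin (2 * m i) × Fin (2 * m i)) =>
    (x.1, (finSigmaFinEquiv ⟨x.2.1, x.2.2.1⟩, finSigmaFinEquiv ⟨x.2.1, x.2.2.2⟩))) P)
    ((MvPolynomial.totalDegree_rename_le _ _).trans hPd) (by
      rw [MvPolynomial.aeval_rename, ← hP0]
      refine congrArg (fun z => MvPolynomial.aeval z P) (funext fun x => ?_)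
      show Hf (Hcc (HH β)) _ (finSigmaFinEquiv ⟨x.2.1, x.2.2.1⟩) (finSigmaFinEquiv ⟨x.2.1, x.2.2.2⟩) = _
      rw [Hf_HH, bd_same]) (fun j => bd (γ j)) (fun j => mem_GS fun i => hγ j i)
  rw [MvPolynomial.aeval_rename] at h3
  rw [← h3]
  refine congrArg (fun z => MvPolynomial.aeval z P) (funext fun x => ?_)
  exact (bd_same (γ x.1) x.2.1 x.2.2.1 x.2.2.2).symm

end fam

end Pool.Agent.W2helper4.MJ
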