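import Pool.Agent.Y921.MT.Rb
import Pool.Agent.Y113.MT.Ult2

/-!
# Lie algebras of tuples of matrices of different sizes
-/

set_option autoImplicit false
set_option maxHeartbeats 1000000

open Matrix

namespace Pool.Agent.W2helper4.MJ

section one
variable {n : ℕ}

/-- symmetric matrices are combinations of squares -/
lemma sym_span {S : Matrix (Fin n) (Fin n) ℚ} (hSt : Sᵀ = S) :
    S = (1 / 2 : ℚ) • ∑ a, ∑ b, S a b • (vecMulVec (Pi.single a 1 + Pi.single b 1) (Pi.single a 1 + Pi.single b 1) -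
      vecMulVec (Pi.single a 1) (Pi.single a 1) - vecMulVec (Pi.single b 1) (Pi.single b 1) : Matrix _ _ ℚ) := by
  have e3 : ∀ a b : Fin n, (vecMulVec (Pi.single a 1 + Pi.single b 1) (Pi.single a 1 + Pi.single b 1) -
    vecMulVec (Pi.single a 1) (Pi.single a 1) - vecMulVec (Pi.single b 1) (Pi.single b 1) : Matrix (Fin n) (Fin n) ℚ) =
    vecMulVec (Pi.single a 1) (Pi.single b 1) + vecMulVec (Pi.single b 1) (Pi.single a 1) := by
    intro a b
    ext i j
    simp only [Matrix.sub_apply, Matrix.add_apply, vecMulVec_apply, Pi.add_apply]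
    ring
  simp only [e3]
  ext i j
  rw [Matrix.smul_apply, Matrix.sum_apply]
  simp only [Matrix.sum_apply, Matrix.smul_apply, Matrix.add_apply, vecMulVec_apply, Pi.single_apply, smul_eq_mul]
  have e4 : ∑ a : Fin n, ∑ b : Fin n, S a b * ((if i = a then (1 : ℚ) else 0) * (if j = b then (1 : ℚ) else 0) +
      (if i = b then (1 : ℚ) else 0) * (if j = a then (1 : ℚ) else 0)) = S i j + S j i := by
    simp only [mul_add, Finset.sum_add_distrib, mul_ite, mul_one, mul_zero, Finset.sum_ite_eq, Finset.mem_univ, if_true]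
    simp
  rw [e4]
  have e5 : S j i = S i j := by
    have := congrFun (congrFun hSt i) j
    rwa [Matrix.transpose_apply] at this
  rw [e5]
  ring

/-- the symplectic Lie algebra of the form `A` -/
def spA (A : Matrix (Fin n) (Fin n) ℚ) : Submodule ℚ (Matrix (Fin n) (Fin n) ℚ) where
  carrier := {X | X * A + A * Xᵀ = 0}
  add_mem' := by
    intro X Y hX hY
    show (X + Y) * A + A * (X + Y)ᵀ = 0
    have hX' : X * A + A * Xᵀ = 0 := hX
    have hY' : Y * A + A * Yᵀ = 0 := hY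
    rw [transpose_add, Matrix.add_mul, Matrix.mul_add]
    calc X * A + Y * A + (A * Xᵀ + A * Yᵀ) = (X * A + A * Xᵀ) + (Y * A + A * Yᵀ) := by abel
      _ = 0 := by rw [hX', hY', add_zero]
  zero_mem' := by
    show (0 : Matrix (Fin n) (Fin n) ℚ) * A + A * (0 : Matrix (Fin n) (Fin n) ℚ)ᵀ = 0
    rw [transpose_zero, Matrix.zero_mul, Matrix.mul_zero, add_zero]
  smul_mem' := by
    intro c X hX
    show (c • X) * A + A * (c • X)ᵀ = 0
    have hX' : X * A + A * Xᵀ = 0 := hX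
    rw [transpose_smul, Matrix.smul_mul, Matrix.mul_smul, ← smul_add, hX', smul_zero]

lemma mem_spA {A X : Matrix (Fin n) (Fin n) ℚ} : X ∈ spA A ↔ X * A + A * Xᵀ = 0 := Iff.rfl

lemma inv_skew {A : Matrix (Fin n) (Fin n) ℚ} (hA : Aᵀ = -A) (hd : A.det ≠ 0) : (A⁻¹)ᵀ = -A⁻¹ := by
  have hAJ : A * A⁻¹ = 1 := A.mul_nonsing_inv (isUnit_iff_ne_zero.2 hd)
  rw [transpose_nonsing_inv, hA]
  apply inv_eq_right_inv
  rw [neg_mul_neg, hAJ]

lemma sym_spA {A : Matrix (Fin n) (Fin n) ℚ} (hA : Aᵀ = -A) (hd : A.det ≠ 0) {S : Matrix (Fin n) (Fin n) ℚ}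
    (hS : Sᵀ = S) : S * A⁻¹ ∈ spA A := by
  have hAJ : A * A⁻¹ = 1 := A.mul_nonsing_inv (isUnit_iff_ne_zero.2 hd)
  have hJA : A⁻¹ * A = 1 := A.nonsing_inv_mul (isUnit_iff_ne_zero.2 hd)
  rw [mem_spA, transpose_mul, inv_skew hA hd, hS, Matrix.mul_assoc, hJA, Matrix.mul_one, Matrix.neg_mul,
    Matrix.mul_neg, ← Matrix.mul_assoc, hAJ, Matrix.one_mul, add_neg_cancel]

lemma spA_sym {A : Matrix (Fin n) (Fin n) ℚ} (hA : Aᵀ = -A) {X : Matrix (Fin n) (Fin n) ℚ} (hX : X ∈ spA A) :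
    (X * A)ᵀ = X * A := by
  rw [transpose_mul, hA, Matrix.neg_mul]
  exact (eq_neg_of_add_eq_zero_left hX).symm

/-- **an ideal with a nonzero element of the symplectic Lie algebra contains it** -/
theorem ideal_gen {A : Matrix (Fin n) (Fin n) ℚ} (hA : Aᵀ = -A) (hd : A.det ≠ 0)
    {L : Submodule ℚ (Matrix (Fin n) (Fin n) ℚ)} (hid : ∀ X ∈ spA A, ∀ Y ∈ L, X * Y - Y * X ∈ L)
    {X0 : Matrix (Fin n) (Fin n) ℚ} (hX0 : X0 ∈ spA A) (hL : X0 ∈ L) (hne : X0 ≠ 0) {X : Matrix (Fin n) (Fin n) ℚ}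
    (hX : X ∈ spA A) : X ∈ L := by
  set J := A⁻¹ with hJdef
  have hAJ : A * J = 1 := A.mul_nonsing_inv (isUnit_iff_ne_zero.2 hd)
  have hJA : J * A = 1 := A.nonsing_inv_mul (isUnit_iff_ne_zero.2 hd)
  have hJ : Jᵀ = -J := inv_skew hA hd
  have skew : ∀ v w : Fin n → ℚ, v ⬝ᵥ (J *ᵥ w) = -(w ⬝ᵥ (J *ᵥ v)) := by
    intro v w
    rw [dotProduct_mulVec, ← mulVec_transpose, hJ, neg_mulVec, neg_dotProduct, dotProduct_comm]
  have self : ∀ v : Fin n → ℚ, v ⬝ᵥ (J *ᵥ v) = 0 := by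
    intro v
    have h := skew v v
    linarith
  have nd : ∀ {z : Fin n → ℚ}, z ≠ 0 → ∃ u, z ⬝ᵥ (J *ᵥ u) ≠ 0 := by
    intro z hz
    by_contra hcon
    push Not at hcon
    apply hz
    funext i
    have h1 := hcon (A *ᵥ Pi.single i 1)
    rw [mulVec_mulVec, hJA, one_mulVec, dotProduct_single_one] at h1
    exact h1
  have vm : ∀ (a b c d : Fin n → ℚ) (M : Matrix (Fin n) (Fin n) ℚ),
      vecMulVec a b * M * vecMulVec c d = (b ⬝ᵥ (M *ᵥ c)) • vecMulVec a d := by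
    intro a b c d M
    rw [Matrix.mul_assoc, mul_vecMulVec, vecMulVec_mul_vecMulVec, vecMulVec_smul]
  set T : (Fin n → ℚ) → Matrix (Fin n) (Fin n) ℚ := fun w => vecMulVec w w * J with hT
  have hTsp : ∀ w, T w ∈ spA A := fun w => sym_spA hA hd (transpose_vecMulVec w w)
  have hTX : ∀ w Y, T w * Y * T w = (w ⬝ᵥ ((J * Y) *ᵥ w)) • T w := by
    intro w Y
    have e : T w * Y * T w = (vecMulVec w w * (J * Y) * vecMulVec w w) * J := by
      simp only [hT, Matrix.mul_assoc]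
    rw [e, vm, Matrix.smul_mul]
  have hTT : ∀ w, T w * T w = 0 := by
    intro w
    have e := hTX w 1
    rw [Matrix.mul_one, Matrix.mul_one, self, zero_smul] at e
    exact e
  have key : ∀ w, ∀ Y ∈ L, w ⬝ᵥ ((J * Y) *ᵥ w) ≠ 0 → T w ∈ L := by
    intro w Y hY hw
    have h1 := hid (T w) (hTsp w) Y hY
    have h2 := hid (T w) (hTsp w) _ h1
    have e : T w * (T w * Y - Y * T w) - (T w * Y - Y * T w) * T w = (-2 : ℚ) • (T w * Y * T w) := by
      have e1 : T w * (T w * Y) = 0 := by rw [← Matrix.mul_assoc, hTT, Matrix.zero_mul]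
      have e2 : Y * T w * T w = 0 := by rw [Matrix.mul_assoc, hTT, Matrix.mul_zero]
      rw [Matrix.mul_sub, Matrix.sub_mul, e1, e2, ← Matrix.mul_assoc, zero_sub, sub_zero, neg_smul, two_smul]
      abel
    rw [e, hTX, smul_smul] at h2
    have h3 := L.smul_mem ((-2 * (w ⬝ᵥ ((J * Y) *ᵥ w)))⁻¹) h2
    rwa [smul_smul, inv_mul_cancel₀ (mul_ne_zero (by norm_num) hw), one_smul] at h3
  -- the first square
  obtain ⟨w, hw⟩ : ∃ w, w ⬝ᵥ ((J * X0) *ᵥ w) ≠ 0 := by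
    by_contra hcon
    push Not at hcon
    set M := J * X0 with hM
    have hMt : Mᵀ = M := by
      have h1 := spA_sym hA hX0
      -- M = J * (X0 * A) * J
      have h2 : M = J * (X0 * A) * J := by
        rw [hM, Matrix.mul_assoc, Matrix.mul_assoc, hAJ, Matrix.mul_one]
      rw [h2, Matrix.transpose_mul, Matrix.transpose_mul, h1, hJ, Matrix.neg_mul, Matrix.mul_neg, Matrix.mul_neg, neg_neg,
        ← Matrix.mul_assoc]
    have hM0 : M = 0 := by
      ext i j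
      have e : ∀ a b : Fin n, (Pi.single a 1 : Fin n → ℚ) ⬝ᵥ (M *ᵥ Pi.single b 1) = M a b := by
        intro a b
        rw [single_one_dotProduct, mulVec_single_one]
        rfl
      have h1 := hcon (Pi.single i 1 + Pi.single j 1)
      rw [mulVec_add, dotProduct_add, add_dotProduct, add_dotProduct, e, e, e, e] at h1
      have h2 := hcon (Pi.single i 1)
      have h3 := hcon (Pi.single j 1)
      rw [e] at h2 h3
      have h4 : M j i = M i j := by
        have := congrFun (congrFun hMt i) j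
        rwa [Matrix.transpose_apply] at this
      rw [h2, h3, h4, zero_add, add_zero] at h1
      rw [Matrix.zero_apply]
      linarith
    apply hne
    have h1 : A * M = X0 := by rw [hM, ← Matrix.mul_assoc, hAJ, Matrix.one_mul]
    rw [hM0, Matrix.mul_zero] at h1
    exact h1.symm
  have h1 : T w ∈ L := key w X0 hL hw
  have hw0 : w ≠ 0 := by
    rintro rfl
    apply hw
    rw [zero_dotProduct]
  -- neighbours
  have nb : ∀ z u, T u ∈ L → z ⬝ᵥ (J *ᵥ u) ≠ 0 → T z ∈ L := by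
    intro z u hu hzu
    refine key z _ hu ?_
    have e : z ⬝ᵥ ((J * T u) *ᵥ z) = (z ⬝ᵥ (J *ᵥ u)) * (u ⬝ᵥ (J *ᵥ z)) := by
      have e1 : (J * T u) *ᵥ z = (u ⬝ᵥ (J *ᵥ z)) • (J *ᵥ u) := by
        simp only [hT]
        rw [← mulVec_mulVec, ← mulVec_mulVec, vecMulVec_mulVec, op_smul_eq_smul, mulVec_smul]
      rw [e1, dotProduct_smul, smul_eq_mul, mul_comm]
    rw [e, skew u z]
    exact mul_ne_zero hzu (neg_ne_zero.2 hzu)
  have hall : ∀ z, T z ∈ L := by
    intro z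
    by_cases hz : z = 0
    · subst hz
      have : T 0 = 0 := by
        simp only [hT]
        rw [vecMulVec_zero, Matrix.zero_mul]
      rw [this]
      exact L.zero_mem
    by_cases hzw : z ⬝ᵥ (J *ᵥ w) = 0
    · obtain ⟨u1, hu1⟩ := nd hw0
      obtain ⟨u2, hu2⟩ := nd hz
      have hu1' : u1 ⬝ᵥ (J *ᵥ w) ≠ 0 := by
        rw [skew]
        exact neg_ne_zero.2 hu1
      by_cases c1 : z ⬝ᵥ (J *ᵥ u1) = 0
      · by_cases c2 : u2 ⬝ᵥ (J *ᵥ w) = 0
        · refine nb z (u1 + u2) (nb (u1 + u2) w h1 ?_) ?_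
          · rw [add_dotProduct, c2, add_zero]
            exact hu1'
          · rw [mulVec_add, dotProduct_add, c1, zero_add]
            exact hu2
        · exact nb z u2 (nb u2 w h1 c2) hu2
      · exact nb z u1 (nb u1 w h1 hu1') c1
    · exact nb z w h1 hzw
  have hXS : X = (X * A) * J := by rw [Matrix.mul_assoc, hAJ, Matrix.mul_one]
  rw [hXS, sym_span (spA_sym hA hX), Matrix.smul_mul, Finset.sum_mul]
  refine L.smul_mem _ (L.sum_mem fun a _ => ?_)
  rw [Finset.sum_mul]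
  refine L.sum_mem fun b _ => ?_
  rw [Matrix.smul_mul, Matrix.sub_mul, Matrix.sub_mul]
  exact L.smul_mem _ (L.sub_mem (L.sub_mem (hall _) (hall _)) (hall _))

/-- the positions on and above the diagonal -/
abbrev Tri (n : ℕ) : Type := {p : Fin n × Fin n // p.1 ≤ p.2}

lemma card_Tri {n n' : ℕ} (h : n' < n) : Fintype.card (Tri n') < Fintype.card (Tri n) := by
  let f : Tri n' → Tri n := fun p => ⟨(⟨p.1.1, by have := p.1.1.2; omega⟩, ⟨p.1.2, by have := p.1.2.2; omega⟩), p.2⟩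
  have hf : Function.Injective f := by
    rintro ⟨⟨a, b⟩, h1⟩ ⟨⟨c, d⟩, h2⟩ h3
    have h4 := congrArg (fun z : Tri n => ((z.1.1 : Fin n) : ℕ)) h3
    have h5 := congrArg (fun z : Tri n => ((z.1.2 : Fin n) : ℕ)) h3
    have h4' : (a : ℕ) = c := h4
    have h5' : (b : ℕ) = d := h5
    have e1 : a = c := Fin.ext h4'
    have e2 : b = d := Fin.ext h5'
    subst e1
    subst e2
    rfl
  refine Fintype.card_lt_of_injective_of_notMem f hf (b := ⟨(⟨n', h⟩, ⟨n', h⟩), le_refl _⟩) ?_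
  rintro ⟨p, hp⟩
  have h4 : ((p.1.1 : Fin n') : ℕ) = n' := congrArg (fun z : Tri n => ((z.1.1 : Fin n) : ℕ)) hp
  have := p.1.1.2
  omega

lemma finrank_spA_le {A : Matrix (Fin n) (Fin n) ℚ} (hA : Aᵀ = -A) (hd : A.det ≠ 0) :
    Module.finrank ℚ (spA A) ≤ Fintype.card (Tri n) := by
  let ρ : spA A →ₗ[ℚ] (Tri n → ℚ) :=
    { toFun := fun X p => ((X : Matrix (Fin n) (Fin n) ℚ) * A) p.1.1 p.1.2
      map_add' := by
        intro X Y
        funext p
        show (((X : Matrix (Fin n) (Fin n) ℚ) + (Y : Matrix (Fin n) (Fin n) ℚ)) * A) p.1.1 p.1.2 = _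
        rw [Matrix.add_mul]
        rfl
      map_smul' := by
        intro c X
        funext p
        show ((c • (X : Matrix (Fin n) (Fin n) ℚ)) * A) p.1.1 p.1.2 = _
        rw [Matrix.smul_mul]
        rfl }
  have hρ : Function.Injective ρ := by
    rw [← LinearMap.ker_eq_bot, LinearMap.ker_eq_bot']
    intro X hX
    have h1 : (X : Matrix (Fin n) (Fin n) ℚ) * A = 0 := by
      ext a b
      rcases le_total a b with h | h
      · exact congrFun hX ⟨(a, b), h⟩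
      · have h2 := congrFun (congrFun (spA_sym hA X.2) a) b
        rw [Matrix.transpose_apply] at h2
        rw [← h2]
        exact congrFun hX ⟨(b, a), h⟩
    apply Subtype.ext
    have h3 : (X : Matrix (Fin n) (Fin n) ℚ) * A * A⁻¹ = 0 := by rw [h1, Matrix.zero_mul]
    rwa [Matrix.mul_assoc, A.mul_nonsing_inv (isUnit_iff_ne_zero.2 hd), Matrix.mul_one] at h3
  have h1 := LinearMap.finrank_le_finrank_of_injective hρ
  rwa [Module.finrank_fintype_fun_eq_card] at h1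

lemma le_finrank_spA {A : Matrix (Fin n) (Fin n) ℚ} (hA : Aᵀ = -A) (hd : A.det ≠ 0) :
    Fintype.card (Tri n) ≤ Module.finrank ℚ (spA A) := by
  let σ : (Tri n → ℚ) →ₗ[ℚ] Matrix (Fin n) (Fin n) ℚ :=
    { toFun := fun f => (Matrix.of fun a b : Fin n => if h : a ≤ b then f ⟨(a, b), h⟩ else
        f ⟨(b, a), le_of_lt (not_le.1 h)⟩) * A⁻¹
      map_add' := by
        intro f g
        rw [← Matrix.add_mul]
        congr 1
        ext a b
        simp only [Matrix.of_apply, Matrix.add_apply]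
        split_ifs <;> rfl
      map_smul' := by
        intro c f
        rw [RingHom.id_apply, ← Matrix.smul_mul]
        congr 1
        ext a b
        simp only [Matrix.of_apply, Matrix.smul_apply]
        split_ifs <;> rfl }
  have hmem : ∀ f, σ f ∈ spA A := by
    intro f
    refine sym_spA hA hd ?_
    ext a b
    simp only [Matrix.transpose_apply, Matrix.of_apply]
    rcases lt_trichotomy a b with h | h | h
    · rw [dif_neg (not_le.2 h), dif_pos h.le]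
    · subst h
      rfl
    · rw [dif_pos h.le, dif_neg (not_le.2 h)]
  let τ : (Tri n → ℚ) →ₗ[ℚ] spA A := LinearMap.codRestrict (spA A) σ hmem
  have hτ : Function.Injective τ := by
    rw [← LinearMap.ker_eq_bot, LinearMap.ker_eq_bot']
    intro f hf
    have h1 : σ f = 0 := congrArg Subtype.val hf
    have h2 : (Matrix.of fun a b : Fin n => if h : a ≤ b then f ⟨(a, b), h⟩ else
        f ⟨(b, a), le_of_lt (not_le.1 h)⟩) = 0 := by
      have h3 : (Matrix.of fun a b : Fin n => if h : a ≤ b then f ⟨(a, b), h⟩ else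
        f ⟨(b, a), le_of_lt (not_le.1 h)⟩) * A⁻¹ * A = 0 := by
        have h4 : (Matrix.of fun a b : Fin n => if h : a ≤ b then f ⟨(a, b), h⟩ else
          f ⟨(b, a), le_of_lt (not_le.1 h)⟩) * A⁻¹ = 0 := h1
        rw [h4, Matrix.zero_mul]
      rwa [Matrix.mul_assoc, A.nonsing_inv_mul (isUnit_iff_ne_zero.2 hd), Matrix.mul_one] at h3
    funext p
    have h3 := congrFun (congrFun h2 p.1.1) p.1.2
    rw [Matrix.of_apply, dif_pos p.2] at h3
    exact h3
  have h1 := LinearMap.finrank_le_finrank_of_injective hτ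
  rwa [Module.finrank_fintype_fun_eq_card] at h1

/-- brackets of similitudes -/
lemma br_gsp {A X Y : Matrix (Fin n) (Fin n) ℚ} {s t : ℚ} (hX : X * A + A * Xᵀ = t • A) (hY : Y * A + A * Yᵀ = s • A) :
    X * Y - Y * X ∈ spA A := by
  rw [mem_spA]
  have hXA : X * A = t • A - A * Xᵀ := eq_sub_of_add_eq hX
  have hYA : Y * A = s • A - A * Yᵀ := eq_sub_of_add_eq hY
  have e1 : X * Y * A = s • (t • A - A * Xᵀ) - (t • A - A * Xᵀ) * Yᵀ := by
    rw [Matrix.mul_assoc, hYA, Matrix.mul_sub, Matrix.mul_smul, ← Matrix.mul_assoc, hXA]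
  have e2 : Y * X * A = t • (s • A - A * Yᵀ) - (s • A - A * Yᵀ) * Xᵀ := by
    rw [Matrix.mul_assoc, hXA, Matrix.mul_sub, Matrix.mul_smul, ← Matrix.mul_assoc, hYA]
  rw [Matrix.sub_mul, e1, e2, Matrix.transpose_sub, Matrix.transpose_mul, Matrix.transpose_mul, Matrix.mul_sub]
  simp only [Matrix.sub_mul, Matrix.smul_mul, smul_sub, Matrix.mul_assoc, smul_smul, mul_comm s t]
  abel

end one

section two
variable {n n' : ℕ} {A : Matrix (Fin n) (Fin n) ℚ} {A' : Matrix (Fin n') (Fin n') ℚ}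
  {V : Submodule ℚ (Matrix (Fin n) (Fin n) ℚ × Matrix (Fin n') (Fin n') ℚ)}

/-- the brackets -/
def DD (V : Submodule ℚ (Matrix (Fin n) (Fin n) ℚ × Matrix (Fin n') (Fin n') ℚ)) :
    Submodule ℚ (Matrix (Fin n) (Fin n) ℚ × Matrix (Fin n') (Fin n') ℚ) :=
  Submodule.span ℚ {w | ∃ u ∈ V, ∃ v ∈ V, w = (u.1 * v.1 - v.1 * u.1, u.2 * v.2 - v.2 * u.2)}

lemma DD_le (hbr : ∀ u ∈ V, ∀ v ∈ V, (u.1 * v.1 - v.1 * u.1, u.2 * v.2 - v.2 * u.2) ∈ V) : DD V ≤ V := by
  unfold DD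
  rw [Submodule.span_le]
  rintro _ ⟨u, hu, v, hv, rfl⟩
  exact hbr u hu v hv

lemma DD_sp (hg1 : ∀ z ∈ V, ∃ t : ℚ, z.1 * A + A * z.1ᵀ = t • A) (hg2 : ∀ z ∈ V, ∃ t : ℚ, z.2 * A' + A' * z.2ᵀ = t • A')
    {z : Matrix (Fin n) (Fin n) ℚ × Matrix (Fin n') (Fin n') ℚ} (hz : z ∈ DD V) : z.1 ∈ spA A ∧ z.2 ∈ spA A' := by
  have h1 : DD V ≤ (spA A).prod (spA A') := by
    unfold DD
    rw [Submodule.span_le]
    rintro _ ⟨u, hu, v, hv, rfl⟩
    obtain ⟨t, ht⟩ := hg1 u hu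
    obtain ⟨s, hs⟩ := hg1 v hv
    obtain ⟨t', ht'⟩ := hg2 u hu
    obtain ⟨s', hs'⟩ := hg2 v hv
    exact ⟨br_gsp ht hs, br_gsp ht' hs'⟩
  exact h1 hz

lemma DD_fst (hA : Aᵀ = -A) (hd : A.det ≠ 0) (h1 : ∀ Z ∈ spA A, ∃ Y, (Z, Y) ∈ V) {Z : Matrix (Fin n) (Fin n) ℚ}
    (hZ : Z ∈ spA A) : ∃ Y, (Z, Y) ∈ DD V := by
  have h2 := Pool.Agent.Y921.MT.perfect A hA hd ((DD V).map (LinearMap.fst ℚ _ _)) (by
    intro X Y hX hY
    obtain ⟨X', hX'⟩ := h1 X hX
    obtain ⟨Y', hY'⟩ := h1 Y hY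
    exact ⟨_, Submodule.subset_span ⟨_, hX', _, hY', rfl⟩, rfl⟩) Z hZ
  obtain ⟨⟨a, b⟩, hab, rfl⟩ := h2
  exact ⟨b, hab⟩

/-- **the larger factor** -/
theorem pair_big (h : n' < n) (hA : Aᵀ = -A) (hd : A.det ≠ 0) (hA' : A'ᵀ = -A') (hd' : A'.det ≠ 0)
    (hbr : ∀ u ∈ V, ∀ v ∈ V, (u.1 * v.1 - v.1 * u.1, u.2 * v.2 - v.2 * u.2) ∈ V)
    (h1 : ∀ Z ∈ spA A, ∃ Y, (Z, Y) ∈ V)
    (hg1 : ∀ z ∈ V, ∃ t : ℚ, z.1 * A + A * z.1ᵀ = t • A) (hg2 : ∀ z ∈ V, ∃ t : ℚ, z.2 * A' + A' * z.2ᵀ = t • A')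
    {X : Matrix (Fin n) (Fin n) ℚ} (hX : X ∈ spA A) : (X, (0 : Matrix (Fin n') (Fin n') ℚ)) ∈ V := by
  obtain ⟨X0, hX0, hne⟩ : ∃ X0, (X0, (0 : Matrix (Fin n') (Fin n') ℚ)) ∈ DD V ∧ X0 ≠ 0 := by
    by_contra hcon
    push Not at hcon
    let f : DD V →ₗ[ℚ] spA A' := LinearMap.codRestrict (spA A') ((LinearMap.snd ℚ _ _) ∘ₗ (DD V).subtype)
      fun z => (DD_sp hg1 hg2 z.2).2
    have hf : Function.Injective f := by
      rw [← LinearMap.ker_eq_bot, LinearMap.ker_eq_bot']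
      rintro ⟨⟨a, b⟩, hab⟩ h0
      have h2 : b = 0 := congrArg Subtype.val h0
      subst h2
      have h3 : a = 0 := hcon a hab
      subst h3
      rfl
    have h2 := LinearMap.finrank_le_finrank_of_injective hf
    have h3 : spA A ≤ (DD V).map (LinearMap.fst ℚ _ _) := by
      intro Z hZ
      obtain ⟨Y, hY⟩ := DD_fst hA hd h1 hZ
      exact ⟨_, hY, rfl⟩
    have h4 := Submodule.finrank_mono h3
    have h5 := Submodule.finrank_map_le (LinearMap.fst ℚ (Matrix (Fin n) (Fin n) ℚ) (Matrix (Fin n') (Fin n') ℚ)) (DD V)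
    have h6 := finrank_spA_le hA' hd'
    have h7 := le_finrank_spA hA hd
    have h8 := card_Tri h
    omega
  let L : Submodule ℚ (Matrix (Fin n) (Fin n) ℚ) :=
    { carrier := {X | (X, (0 : Matrix (Fin n') (Fin n') ℚ)) ∈ V}
      add_mem' := by
        intro X Y h1 h2
        have h3 := V.add_mem h1 h2
        rw [Prod.mk_add_mk, add_zero] at h3
        exact h3
      zero_mem' := V.zero_mem
      smul_mem' := by
        intro a X h1
        have h2 := V.smul_mem a h1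
        rw [Prod.smul_mk, smul_zero] at h2
        exact h2 }
  have hid : ∀ X ∈ spA A, ∀ Y ∈ L, X * Y - Y * X ∈ L := by
    intro X hX Y hY
    obtain ⟨Z, hZ⟩ := h1 X hX
    have h5 := hbr _ hZ _ hY
    simp only [Matrix.mul_zero, Matrix.zero_mul, sub_zero] at h5
    exact h5
  exact ideal_gen hA hd (L := L) hid (DD_sp hg1 hg2 hX0).1 (DD_le hbr hX0) hne hX

/-- **different sizes** -/
theorem pair_diff (h : n ≠ n') (hA : Aᵀ = -A) (hd : A.det ≠ 0) (hA' : A'ᵀ = -A') (hd' : A'.det ≠ 0)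
    (hbr : ∀ u ∈ V, ∀ v ∈ V, (u.1 * v.1 - v.1 * u.1, u.2 * v.2 - v.2 * u.2) ∈ V)
    (h1 : ∀ Z ∈ spA A, ∃ Y, (Z, Y) ∈ V) (h2 : ∀ Z ∈ spA A', ∃ Y, (Y, Z) ∈ V)
    (hg1 : ∀ z ∈ V, ∃ t : ℚ, z.1 * A + A * z.1ᵀ = t • A) (hg2 : ∀ z ∈ V, ∃ t : ℚ, z.2 * A' + A' * z.2ᵀ = t • A')
    {X : Matrix (Fin n) (Fin n) ℚ} (hX : X ∈ spA A) : (X, (0 : Matrix (Fin n') (Fin n') ℚ)) ∈ V := by
  rcases lt_or_gt_of_ne h with h | h
  · -- the second factor is larger
    set W : Submodule ℚ (Matrix (Fin n') (Fin n') ℚ × Matrix (Fin n) (Fin n) ℚ) :=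
      V.comap (LinearMap.prod (LinearMap.snd ℚ _ _) (LinearMap.fst ℚ _ _)) with hW
    have mW : ∀ a b, (b, a) ∈ W ↔ (a, b) ∈ V := fun a b => Iff.rfl
    have h3 : ∀ Z ∈ spA A', ((0 : Matrix (Fin n) (Fin n) ℚ), Z) ∈ V := by
      intro Z hZ
      exact (mW _ _).1 (pair_big (V := W) h hA' hd' hA hd (fun u hu v hv => hbr (u.2, u.1) hu (v.2, v.1) hv)
        (fun Z hZ => h2 Z hZ) (fun z hz => hg2 (z.2, z.1) hz) (fun z hz => hg1 (z.2, z.1) hz) hZ)
    obtain ⟨Y, hY⟩ := DD_fst hA hd h1 hX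
    have h4 := V.sub_mem (DD_le hbr hY) (h3 Y (DD_sp hg1 hg2 hY).2)
    rw [Prod.mk_sub_mk, sub_zero, sub_self] at h4
    exact h4
  · exact pair_big h hA hd hA' hd' hbr h1 hg1 hg2 hX

end two

section many
variable {s : ℕ} {n : Fin s → ℕ}

/-- **Goursat, Kolchin, Ribet** for factors of different sizes -/
theorem ribet (A : ∀ i, Matrix (Fin (n i)) (Fin (n i)) ℚ) (hA : ∀ i, (A i)ᵀ = -A i) (hd : ∀ i, (A i).det ≠ 0)
    (𝔪 : Submodule ℚ (∀ i, Matrix (Fin (n i)) (Fin (n i)) ℚ))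
    (hbr : ∀ X ∈ 𝔪, ∀ Y ∈ 𝔪, (fun i => X i * Y i - Y i * X i) ∈ 𝔪)
    (hpair : ∀ i j, i ≠ j → ∀ Z ∈ spA (A i), ∃ Y ∈ 𝔪, Y i = Z ∧ Y j = 0)
    (hW : ∀ i, ∀ Z ∈ spA (A i), ∃ Y ∈ 𝔪, Y i = Z) (X : ∀ i, Matrix (Fin (n i)) (Fin (n i)) ℚ)
    (hX : ∀ i, X i ∈ spA (A i)) : X ∈ 𝔪 := by
  classical
  have hJ : ∀ (i : Fin s) (t : Finset (Fin s)), i ∉ t → ∀ Z ∈ spA (A i),
      ∃ Y ∈ 𝔪, Y i = Z ∧ ∀ j ∈ t, Y j = 0 := by
    intro i t
    induction t using Finset.induction_on with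
    | empty =>
      intro _ Z hZ
      obtain ⟨Y, hY, h1⟩ := hW i Z hZ
      exact ⟨Y, hY, h1, fun j hj => absurd hj (Finset.notMem_empty j)⟩
    | insert j' t hj' ih =>
      intro hi Z hZ
      have hij : i ≠ j' := fun h => hi (h ▸ Finset.mem_insert_self _ _)
      have his : i ∉ t := fun h => hi (Finset.mem_insert_of_mem h)
      let V : Submodule ℚ (Matrix (Fin (n i)) (Fin (n i)) ℚ) :=
        { carrier := {Z | ∃ Y ∈ 𝔪, Y i = Z ∧ ∀ j ∈ insert j' t, Y j = 0}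
          add_mem' := by
            rintro a b ⟨Y, hY, h1, h3⟩ ⟨Y', hY', h1', h3'⟩
            refine ⟨Y + Y', 𝔪.add_mem hY hY', ?_, fun j hj => ?_⟩
            · rw [Pi.add_apply, h1, h1']
            · rw [Pi.add_apply, h3 j hj, h3' j hj, add_zero]
          zero_mem' := ⟨0, 𝔪.zero_mem, rfl, fun j _ => rfl⟩
          smul_mem' := by
            rintro c a ⟨Y, hY, h1, h3⟩
            refine ⟨c • Y, 𝔪.smul_mem c hY, ?_, fun j hj => ?_⟩
            · rw [Pi.smul_apply, h1]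
            · rw [Pi.smul_apply, h3 j hj, smul_zero] }
      refine Pool.Agent.Y921.MT.perfect (A i) (hA i) (hd i) V ?_ Z hZ
      intro P Q hP hQ
      obtain ⟨Y, hY, h1, h3⟩ := ih his P hP
      obtain ⟨Y', hY', h1', h2'⟩ := hpair i j' hij Q hQ
      refine ⟨_, hbr Y hY Y' hY', ?_, fun j hj => ?_⟩
      · simp only [h1, h1']
      · rcases Finset.mem_insert.1 hj with rfl | hj
        · simp only [h2', Matrix.zero_mul, Matrix.mul_zero, sub_zero]
        · simp only [h3 j hj, Matrix.zero_mul, Matrix.mul_zero, sub_zero]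
  have hsing : ∀ i, Pi.single i (X i) ∈ 𝔪 := by
    intro i
    obtain ⟨Y, hY, h1, h3⟩ := hJ i (Finset.univ.erase i) (Finset.notMem_erase i _) (X i) (hX i)
    have h4 : Pi.single i (X i) = Y := by
      funext j
      by_cases hj : j = i
      · subst hj
        rw [Pi.single_eq_same, h1]
      · rw [Pi.single_eq_of_ne hj, h3 j (Finset.mem_erase.2 ⟨hj, Finset.mem_univ j⟩)]
    rw [h4]
    exact hY
  have hsum : X = ∑ i, Pi.single i (X i) := (Finset.univ_sum_single X).symm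
  rw [hsum]
  exact 𝔪.sum_mem fun i _ => hsing i

open Pool.Agent.Y113.MT (cq)

/-- tuples of rational matrices as tuples of complex matrices -/
def tq (X : ∀ i, Matrix (Fin (n i)) (Fin (n i)) ℚ) : ∀ i, Matrix (Fin (n i)) (Fin (n i)) ℂ := fun i => cq (X i)

/-- a rational linear functional of the entries -/
noncomputable def ap (φ : ℂ →ₗ[ℚ] ℚ) (X : ∀ i, Matrix (Fin (n i)) (Fin (n i)) ℂ) : ∀ i, Matrix (Fin (n i)) (Fin (n i)) ℚ :=
  fun i => (X i).map φ

lemma phi_mul (φ : ℂ →ₗ[ℚ] ℚ) (z : ℂ) (x : ℚ) : φ (z * (x : ℂ)) = φ z * x := by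
  have h : z * (x : ℂ) = x • z := by rw [Rat.smul_def, mul_comm]
  rw [h, map_smul, smul_eq_mul, mul_comm]

lemma ap_mem {V : Submodule ℚ (∀ i, Matrix (Fin (n i)) (Fin (n i)) ℚ)} {Z : ∀ i, Matrix (Fin (n i)) (Fin (n i)) ℂ}
    (h : Z ∈ Submodule.span ℂ (tq '' (V : Set (∀ i, Matrix (Fin (n i)) (Fin (n i)) ℚ)))) :
    ∀ φ : ℂ →ₗ[ℚ] ℚ, ap φ Z ∈ V := by
  induction h using Submodule.span_induction with
  | mem x hx =>
    obtain ⟨v, hv, rfl⟩ := hx
    intro φ
    have e : ap φ (tq v) = φ 1 • v := by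
      funext i
      ext a b
      show φ ((v i a b : ℚ) : ℂ) = φ 1 * v i a b
      rw [← phi_mul, one_mul]
    rw [e]
    exact V.smul_mem _ hv
  | zero =>
    intro φ
    have e : ap φ (0 : ∀ i, Matrix (Fin (n i)) (Fin (n i)) ℂ) = 0 := by
      funext i
      ext a b
      exact map_zero φ
    rw [e]
    exact V.zero_mem
  | add x y _ _ hx hy =>
    intro φ
    have e : ap φ (x + y) = ap φ x + ap φ y := by
      funext i
      ext a b
      exact map_add φ _ _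
    rw [e]
    exact V.add_mem (hx φ) (hy φ)
  | smul c x _ hx =>
    intro φ
    exact hx (φ ∘ₗ LinearMap.mulLeft ℚ c)

lemma span_ap {V : Submodule ℚ (∀ i, Matrix (Fin (n i)) (Fin (n i)) ℚ)} {Z : ∀ i, Matrix (Fin (n i)) (Fin (n i)) ℂ}
    (h : ∀ φ : ℂ →ₗ[ℚ] ℚ, ap φ Z ∈ V) :
    Z ∈ Submodule.span ℂ (tq '' (V : Set (∀ i, Matrix (Fin (n i)) (Fin (n i)) ℚ))) := by
  classical
  set b := Module.Basis.ofVectorSpace ℚ ℂ with hb
  set T := (Finset.univ : Finset (Σ i, Fin (n i) × Fin (n i))).biUnion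
    (fun x => (b.repr (Z x.1 x.2.1 x.2.2)).support) with hT
  have hZ : Z = ∑ e ∈ T, b e • tq (ap (b.coord e) Z) := by
    funext i
    ext a c
    rw [Finset.sum_apply, Matrix.sum_apply]
    have h1 : Z i a c = ∑ e ∈ T, b.repr (Z i a c) e • b e := by
      have h2 := b.linearCombination_repr (Z i a c)
      rw [Finsupp.linearCombination_apply, Finsupp.sum] at h2
      conv_lhs => rw [← h2]
      refine Finset.sum_subset ?_ ?_
      · intro e he
        rw [hT, Finset.mem_biUnion]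
        exact ⟨⟨i, (a, c)⟩, Finset.mem_univ _, he⟩
      · intro e _ he
        rw [Finsupp.notMem_support_iff.1 he, zero_smul]
    rw [h1]
    refine Finset.sum_congr rfl fun e _ => ?_
    show _ = b e * (((b.coord e) (Z i a c) : ℚ) : ℂ)
    rw [Module.Basis.coord_apply, Rat.smul_def, mul_comm, h1]
  rw [hZ]
  exact Submodule.sum_mem _ fun e _ => Submodule.smul_mem _ _ (Submodule.subset_span ⟨_, h _, rfl⟩)

end many

end Pool.Agent.W2helper4.MJ
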