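import Pool.Agent.Y113.MT.Pr1
import Pool.Agent.Y118.HX.Core

/-!
# The core theorem for fibres of two different families

There are no derivations which kill the base change, so we count dimensions.
-/

set_option autoImplicit false
set_option maxHeartbeats 1000000

open Matrix

namespace Pool.Agent.W2helper4.MJ

open Pool.Agent.Y113.MT
open Pool.Agent.Y118.HX (Up)

section ideal
variable {F : Type} [Field F] {n m : ℕ}

lemma vm (a b c d : Fin n → F) (M : Matrix (Fin n) (Fin n) F) :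
    vecMulVec a b * M * vecMulVec c d = (b ⬝ᵥ (M *ᵥ c)) • vecMulVec a d := by
  rw [Matrix.mul_assoc, mul_vecMulVec, vecMulVec_mul_vecMulVec, vecMulVec_smul]

lemma SS_skew (v w : Fin (2 * m) → F) : v ⬝ᵥ (SS F (2 * m) *ᵥ w) = -(w ⬝ᵥ (SS F (2 * m) *ᵥ v)) := by
  have h2 : w ⬝ᵥ (SS F (2 * m) *ᵥ v) = -(v ⬝ᵥ (SS F (2 * m) *ᵥ w)) := by
    rw [dotProduct_mulVec, ← mulVec_transpose, SS_tr, neg_mulVec, neg_dotProduct, dotProduct_comm]
  rw [h2, neg_neg]

lemma SS_self [CharZero F] (v : Fin (2 * m) → F) : v ⬝ᵥ (SS F (2 * m) *ᵥ v) = 0 := by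
  have h := SS_skew v v
  have h2 : (2 : F) * (v ⬝ᵥ (SS F (2 * m) *ᵥ v)) = 0 := by linear_combination h
  exact (mul_eq_zero.1 h2).resolve_left two_ne_zero

lemma SS_nd {z : Fin (2 * m) → F} (hz : z ≠ 0) : ∃ u, z ⬝ᵥ (SS F (2 * m) *ᵥ u) ≠ 0 := by
  by_contra hcon
  push Not at hcon
  apply hz
  funext i
  have h1 := hcon (SS F (2 * m) *ᵥ Pi.single i 1)
  rw [mulVec_mulVec, SS_sq, neg_mulVec, one_mulVec, dotProduct_neg, dotProduct_single_one, neg_eq_zero] at h1
  exact h1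

lemma sq_sp (w : Fin (2 * m) → F) : vecMulVec w w * SS F (2 * m) ∈ spS F m := by
  rw [mem_spS, Matrix.transpose_mul, SS_tr, transpose_vecMulVec, Matrix.neg_mul, Matrix.mul_neg, ← Matrix.mul_assoc (SS F (2 * m)),
    SS_sq, Matrix.mul_assoc, SS_sq, Matrix.mul_neg, Matrix.mul_one, Matrix.neg_mul, Matrix.one_mul, neg_neg, neg_add_cancel]

/-- **an ideal with a nonzero element of the symplectic Lie algebra contains it** -/
theorem ideal_all [CharZero F] {L : Submodule F (Matrix (Fin (2 * m)) (Fin (2 * m)) F)}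
    (hid : ∀ X ∈ spS F m, ∀ Y ∈ L, X * Y - Y * X ∈ L) {X0 : Matrix (Fin (2 * m)) (Fin (2 * m)) F} (hX0 : X0 ∈ spS F m)
    (hL : X0 ∈ L) (hne : X0 ≠ 0) {X : Matrix (Fin (2 * m)) (Fin (2 * m)) F} (hX : X ∈ spS F m) : X ∈ L := by
  set T : (Fin (2 * m) → F) → Matrix (Fin (2 * m)) (Fin (2 * m)) F := fun w => vecMulVec w w * SS F (2 * m) with hT
  have hTX : ∀ w Y, T w * Y * T w = (w ⬝ᵥ ((SS F (2 * m) * Y) *ᵥ w)) • T w := by
    intro w Y
    have e : T w * Y * T w = (vecMulVec w w * (SS F (2 * m) * Y) * vecMulVec w w) * SS F (2 * m) := by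
      simp only [hT, Matrix.mul_assoc]
    rw [e, vm, Matrix.smul_mul]
  have hTT : ∀ w, T w * T w = 0 := by
    intro w
    have e := hTX w 1
    rw [Matrix.mul_one, Matrix.mul_one, SS_self, zero_smul] at e
    exact e
  have key : ∀ w, ∀ Y ∈ L, w ⬝ᵥ ((SS F (2 * m) * Y) *ᵥ w) ≠ 0 → T w ∈ L := by
    intro w Y hY hw
    have h1 := hid (T w) (sq_sp w) Y hY
    have h2 := hid (T w) (sq_sp w) _ h1
    have e : T w * (T w * Y - Y * T w) - (T w * Y - Y * T w) * T w = (-2 : F) • (T w * Y * T w) := by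
      have e1 : T w * (T w * Y) = 0 := by rw [← Matrix.mul_assoc, hTT, Matrix.zero_mul]
      have e2 : Y * T w * T w = 0 := by rw [Matrix.mul_assoc, hTT, Matrix.mul_zero]
      rw [Matrix.mul_sub, Matrix.sub_mul, e1, e2, ← Matrix.mul_assoc, zero_sub, sub_zero, neg_smul, two_smul]
      abel
    rw [e, hTX, smul_smul] at h2
    have h3 := L.smul_mem ((-2 * (w ⬝ᵥ ((SS F (2 * m) * Y) *ᵥ w)))⁻¹) h2
    rwa [smul_smul, inv_mul_cancel₀ (mul_ne_zero (by norm_num) hw), one_smul] at h3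
  -- the first square
  obtain ⟨w, hw⟩ : ∃ w, w ⬝ᵥ ((SS F (2 * m) * X0) *ᵥ w) ≠ 0 := by
    by_contra hcon
    push Not at hcon
    set M := SS F (2 * m) * X0 with hM
    have hMt : Mᵀ = M := by
      have h1 := mem_spS.1 hX0
      have h2 : SS F (2 * m) * X0ᵀ = -(X0 * SS F (2 * m)) := eq_neg_of_add_eq_zero_right h1
      have h3 : X0ᵀ * SS F (2 * m) = -(SS F (2 * m) * X0) := by
        have h4 : -(SS F (2 * m) * (SS F (2 * m) * X0ᵀ) * SS F (2 * m)) =
            -(SS F (2 * m) * -(X0 * SS F (2 * m)) * SS F (2 * m)) := by rw [h2]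
        have e1 : -(SS F (2 * m) * (SS F (2 * m) * X0ᵀ) * SS F (2 * m)) = X0ᵀ * SS F (2 * m) := by
          rw [← Matrix.mul_assoc, SS_sq, Matrix.neg_mul, Matrix.one_mul, Matrix.neg_mul, neg_neg]
        have e2 : -(SS F (2 * m) * -(X0 * SS F (2 * m)) * SS F (2 * m)) = -(SS F (2 * m) * X0) := by
          rw [Matrix.mul_neg, Matrix.neg_mul, neg_neg, Matrix.mul_assoc, Matrix.mul_assoc, SS_sq, Matrix.mul_neg, Matrix.mul_one,
            Matrix.mul_neg]
        rw [e1, e2] at h4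
        exact h4
      rw [hM, Matrix.transpose_mul, SS_tr, Matrix.mul_neg, h3, neg_neg]
    have hM0 : M = 0 := by
      ext i j
      have e : ∀ a b : Fin (2 * m), (Pi.single a 1 : Fin (2 * m) → F) ⬝ᵥ (M *ᵥ Pi.single b 1) = M a b := by
        intro a b
        rw [single_one_dotProduct, mulVec_single_one]
        rfl
      have h1 := hcon (Pi.single i 1 + Pi.single j 1)
      rw [mulVec_add, dotProduct_add, add_dotProduct, add_dotProduct, e, e, e, e] at h1
      have h2 := hcon (Pi.single i 1)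
      have h3 := hcon (Pi.single j 1)
      rw [e] at h2 h3
      have h4 : M j i = M i j := by
        have := congrFun (congrFun hMt i) j
        rwa [Matrix.transpose_apply] at this
      rw [h2, h3, h4, zero_add, add_zero] at h1
      rw [Matrix.zero_apply]
      have h5 : (2 : F) * M i j = 0 := by linear_combination h1
      exact (mul_eq_zero.1 h5).resolve_left two_ne_zero
    apply hne
    have h1 : SS F (2 * m) * M = -X0 := by rw [hM, ← Matrix.mul_assoc, SS_sq, Matrix.neg_mul, Matrix.one_mul]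
    rw [hM0, Matrix.mul_zero] at h1
    exact (neg_eq_zero.1 h1.symm)
  have h1 : T w ∈ L := key w X0 hL hw
  have hw0 : w ≠ 0 := by
    rintro rfl
    apply hw
    rw [zero_dotProduct]
  -- neighbours
  have nb : ∀ z u, T u ∈ L → z ⬝ᵥ (SS F (2 * m) *ᵥ u) ≠ 0 → T z ∈ L := by
    intro z u hu hzu
    refine key z _ hu ?_
    have e : z ⬝ᵥ ((SS F (2 * m) * T u) *ᵥ z) = (z ⬝ᵥ (SS F (2 * m) *ᵥ u)) * (u ⬝ᵥ (SS F (2 * m) *ᵥ z)) := by
      have e1 : (SS F (2 * m) * T u) *ᵥ z = (u ⬝ᵥ (SS F (2 * m) *ᵥ z)) • (SS F (2 * m) *ᵥ u) := by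
        simp only [hT]
        rw [← mulVec_mulVec, ← mulVec_mulVec, vecMulVec_mulVec, op_smul_eq_smul, mulVec_smul]
      rw [e1, dotProduct_smul, smul_eq_mul, mul_comm]
    rw [e, SS_skew u z]
    exact mul_ne_zero hzu (neg_ne_zero.2 hzu)
  have hall : ∀ z, T z ∈ L := by
    intro z
    by_cases hz : z = 0
    · subst hz
      have : T 0 = 0 := by
        simp only [hT]
        rw [vecMulVec_zero, Matrix.zero_mul]
      rw [this]
      exact L.zero_mem
    by_cases hzw : z ⬝ᵥ (SS F (2 * m) *ᵥ w) = 0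
    · obtain ⟨u1, hu1⟩ := SS_nd hw0
      obtain ⟨u2, hu2⟩ := SS_nd hz
      have hu1' : u1 ⬝ᵥ (SS F (2 * m) *ᵥ w) ≠ 0 := by
        rw [SS_skew]
        exact neg_ne_zero.2 hu1
      by_cases c1 : z ⬝ᵥ (SS F (2 * m) *ᵥ u1) = 0
      · by_cases c2 : u2 ⬝ᵥ (SS F (2 * m) *ᵥ w) = 0
        · refine nb z (u1 + u2) (nb (u1 + u2) w h1 ?_) ?_
          · rw [add_dotProduct, c2, add_zero]
            exact hu1'
          · rw [mulVec_add, dotProduct_add, c1, zero_add]
            exact hu2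
        · exact nb z u2 (nb u2 w h1 c2) hu2
      · exact nb z u1 (nb u1 w h1 hu1') c1
    · exact nb z w h1 hzw
  have h5 : Submodule.span F (Set.range fun w : Fin (2 * m) → F => vecMulVec w w * SS F (2 * m)) ≤ L := by
    rw [Submodule.span_le]
    rintro _ ⟨z, rfl⟩
    exact hall z
  exact h5 (sp_span hX)

/-- submodules of pairs which are stable under `ad gr` are graded -/
theorem graded2 [CharZero F] {n' : ℕ} (V : Submodule F (Matrix (Fin n) (Fin n) F × Matrix (Fin n') (Fin n') F))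
    (hV : ∀ X ∈ V, (gr F n * X.1 - X.1 * gr F n, gr F n' * X.2 - X.2 * gr F n') ∈ V) (f : ℤ → F)
    {X : Matrix (Fin n) (Fin n) F × Matrix (Fin n') (Fin n') F} (hX : X ∈ V) :
    ((Matrix.of fun a b : Fin n => f (((b : ℕ) : ℤ) - ((a : ℕ) : ℤ)) * X.1 a b),
      (Matrix.of fun a b : Fin n' => f (((b : ℕ) : ℤ) - ((a : ℕ) : ℤ)) * X.2 a b)) ∈ V := by
  classical
  have key : ∀ p : Polynomial F, ((Matrix.of fun a b : Fin n => p.eval ((((b : ℕ) : ℤ) - ((a : ℕ) : ℤ) : ℤ) : F) * X.1 a b),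
      (Matrix.of fun a b : Fin n' => p.eval ((((b : ℕ) : ℤ) - ((a : ℕ) : ℤ) : ℤ) : F) * X.2 a b)) ∈ V := by
    intro p
    induction p using Polynomial.induction_on' with
    | add p q hp hq =>
      have h := V.add_mem hp hq
      have e : ∀ {k : ℕ} (Y : Matrix (Fin k) (Fin k) F),
          (Matrix.of fun a b : Fin k => (p + q).eval ((((b : ℕ) : ℤ) - ((a : ℕ) : ℤ) : ℤ) : F) * Y a b) =
          (Matrix.of fun a b : Fin k => p.eval ((((b : ℕ) : ℤ) - ((a : ℕ) : ℤ) : ℤ) : F) * Y a b) +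
          Matrix.of fun a b : Fin k => q.eval ((((b : ℕ) : ℤ) - ((a : ℕ) : ℤ) : ℤ) : F) * Y a b := by
        intro k Y
        ext a b
        simp only [Matrix.of_apply, Matrix.add_apply, Polynomial.eval_add]
        ring
      rw [e, e]
      exact h
    | monomial k c =>
      induction k generalizing c with
      | zero =>
        have e : ∀ {k : ℕ} (Y : Matrix (Fin k) (Fin k) F), (Matrix.of fun a b : Fin k => (Polynomial.monomial 0 c).eval
            ((((b : ℕ) : ℤ) - ((a : ℕ) : ℤ) : ℤ) : F) * Y a b) = c • Y := by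
          intro k Y
          ext a b
          simp only [Matrix.of_apply, Matrix.smul_apply, Polynomial.eval_monomial, pow_zero, mul_one, smul_eq_mul]
        rw [e, e]
        exact V.smul_mem c hX
      | succ k ih =>
        have h := hV _ (ih c)
        have e : ∀ {l : ℕ} (Y : Matrix (Fin l) (Fin l) F), (Matrix.of fun a b : Fin l => (Polynomial.monomial (k + 1) c).eval
            ((((b : ℕ) : ℤ) - ((a : ℕ) : ℤ) : ℤ) : F) * Y a b) =
            gr F l * (Matrix.of fun a b : Fin l => (Polynomial.monomial k c).eval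
            ((((b : ℕ) : ℤ) - ((a : ℕ) : ℤ) : ℤ) : F) * Y a b) - (Matrix.of fun a b : Fin l =>
            (Polynomial.monomial k c).eval ((((b : ℕ) : ℤ) - ((a : ℕ) : ℤ) : ℤ) : F) * Y a b) * gr F l := by
          intro l Y
          ext a b
          rw [ad_gr]
          simp only [Matrix.of_apply, Polynomial.eval_monomial, pow_succ]
          ring
        rw [e, e]
        exact h
  set s : Finset ℤ := Finset.Icc (-((n : ℤ) + n')) ((n : ℤ) + n') with hs
  set v : ℤ → F := fun d => (d : F) with hv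
  have hinj : Set.InjOn v s := fun a _ b _ h => by
    have h' : (a : F) = (b : F) := h
    exact_mod_cast h'
  have h := key (Lagrange.interpolate s v f)
  have e : ∀ {l : ℕ} (hl : l ≤ n + n') (Y : Matrix (Fin l) (Fin l) F),
      (Matrix.of fun a b : Fin l => f (((b : ℕ) : ℤ) - ((a : ℕ) : ℤ)) * Y a b) =
      Matrix.of fun a b : Fin l => (Lagrange.interpolate s v f).eval ((((b : ℕ) : ℤ) - ((a : ℕ) : ℤ) : ℤ) : F) * Y a b := by
    intro l hl Y
    ext a b
    simp only [Matrix.of_apply]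
    have hmem : ((b : ℕ) : ℤ) - ((a : ℕ) : ℤ) ∈ s := by
      rw [hs, Finset.mem_Icc]
      have ha := a.2
      have hb := b.2
      constructor <;> omega
    have h2 := Lagrange.eval_interpolate_at_node (r := f) hinj hmem
    rw [show ((((b : ℕ) : ℤ) - ((a : ℕ) : ℤ) : ℤ) : F) = v (((b : ℕ) : ℤ) - ((a : ℕ) : ℤ)) from rfl, h2]
  rw [e (by omega), e (by omega)]
  exact h

/-- the part above the diagonal -/
def up (F : Type) [Field F] (n : ℕ) : Matrix (Fin n) (Fin n) F →ₗ[F] Matrix (Fin n) (Fin n) F where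
  toFun X := Matrix.of fun a b => if a < b then X a b else 0
  map_add' X Y := by
    ext a b
    simp only [Matrix.of_apply, Matrix.add_apply]
    split_ifs <;> simp
  map_smul' c X := by
    ext a b
    simp only [Matrix.of_apply, Matrix.smul_apply, RingHom.id_apply]
    split_ifs <;> simp

lemma up_apply (X : Matrix (Fin n) (Fin n) F) (a b : Fin n) : up F n X a b = if a < b then X a b else 0 := rfl

lemma up_congr {X Y : Matrix (Fin n) (Fin n) F} (h : ∀ a b, a < b → X a b = Y a b) : up F n X = up F n Y := by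
  ext a b
  rw [up_apply, up_apply]
  split_ifs with hab
  · exact h a b hab
  · rfl

lemma up_sp {Y : Matrix (Fin (2 * m)) (Fin (2 * m)) F} {s : F}
    (hs : Y * SS F (2 * m) + SS F (2 * m) * Yᵀ = s • SS F (2 * m)) : up F (2 * m) Y ∈ spS F m := by
  apply sp_of_entry
  intro a b
  rw [up_apply, up_apply]
  by_cases hab : a < b
  · have hab2 : Fin.rev b < Fin.rev a := Fin.rev_lt_rev.2 hab
    rw [if_pos hab, if_pos hab2]
    have h10 := congrFun (congrFun hs a) (Fin.rev b)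
    rw [Matrix.add_apply, mul_SS, SS_mul, Fin.rev_rev, Matrix.transpose_apply, Matrix.smul_apply, SS_ne, smul_zero] at h10
    · have h11 : (-1 : F) ^ (a : ℕ) * ((-1) ^ (a : ℕ) * Y (Fin.rev b) (Fin.rev a)) =
          -((-1) ^ (a : ℕ) * (Y a b * (-1) ^ (b : ℕ))) := by
        have h3 : (-1 : F) ^ (a : ℕ) * Y (Fin.rev b) (Fin.rev a) = -(Y a b * (-1) ^ (b : ℕ)) := by linear_combination h10
        rw [h3]
        ring
      rw [← mul_assoc, neg_one_sq', one_mul] at h11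
      rw [h11, pow_add]
      ring
    · intro h0
      exact absurd (Fin.rev_injective h0) (ne_of_gt hab)
  · have hab2 : ¬ (Fin.rev b < Fin.rev a) := fun h0 => hab (Fin.rev_lt_rev.1 h0)
    rw [if_neg hab, if_neg hab2, mul_zero, neg_zero]

/-- the map `W ↦` upper part of `E W E⁻¹` -/
noncomputable def TE (J E : Matrix (Fin (2 * m)) (Fin (2 * m)) F) : Vw F J →ₗ[F] Matrix (Fin (2 * m)) (Fin (2 * m)) F :=
  (up F (2 * m)) ∘ₗ (LinearMap.mulLeft F E) ∘ₗ (LinearMap.mulRight F E⁻¹) ∘ₗ (Vw F J).subtype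

lemma TE_apply (J E : Matrix (Fin (2 * m)) (Fin (2 * m)) F) (W : Vw F J) :
    TE J E W = up F (2 * m) (E * ((W : Matrix (Fin (2 * m)) (Fin (2 * m)) F) * E⁻¹)) := rfl

lemma TE_rank [CharZero F] (lE : S_EB) (hm : 1 ≤ m) {J E : Matrix (Fin (2 * m)) (Fin (2 * m)) F} (hJ : J.det ≠ 0)
    (hJN : (NN F (2 * m))ᵀ * J = -(J * NN F (2 * m))) (hE : IsUnit E.det) :
    Module.finrank F (LinearMap.range (TE J E)) ≤ m + 1 := by
  have hone : (1 : Matrix (Fin (2 * m)) (Fin (2 * m)) F) ∈ Vw F J := by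
    refine ⟨⟨0, by rw [one_mul, mul_one, sub_self, zero_smul]⟩, 2, ?_⟩
    rw [Matrix.transpose_one, one_mul, mul_one, two_smul]
  have hker : TE J E ⟨1, hone⟩ = 0 := by
    rw [TE_apply]
    show up F (2 * m) (E * (1 * E⁻¹)) = 0
    rw [one_mul, Matrix.mul_nonsing_inv _ hE]
    ext a b
    rw [up_apply]
    split_ifs with hab
    · rw [Matrix.one_apply_ne (ne_of_lt hab)]
      rfl
    · rfl
  have h1 := LinearMap.finrank_range_add_finrank_ker (TE J E)
  have h2 := lE F m hm J hJ hJN (Vw F J) fun W hW => hW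
  have h3 : 0 < Module.finrank F (LinearMap.ker (TE J E)) := by
    have hnt : Nontrivial (LinearMap.ker (TE J E)) := by
      refine ⟨⟨⟨⟨1, hone⟩, hker⟩, 0, fun h0 => ?_⟩⟩
      have h4 := congrArg (fun z : LinearMap.ker (TE J E) => ((z : Vw F J) : Matrix (Fin (2 * m)) (Fin (2 * m)) F)) h0
      have h5 := congrFun (congrFun h4 ⟨0, by omega⟩) ⟨0, by omega⟩
      simp at h5
    exact Module.finrank_pos (R := F) (M := LinearMap.ker (TE J E))
  omega

/-- the number of the positions above the diagonal -/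
lemma card_Up_ge (hm : 2 ≤ m) : 4 * m - 4 ≤ Fintype.card (Up m) := by
  have hinj : Function.Injective (Sum.elim
      (fun j : Fin (2 * m - 1) => (⟨(⟨0, by omega⟩, ⟨(j : ℕ) + 1, by have := j.2; omega⟩), by
        have := j.2
        constructor
        · show (0 : ℕ) < (j : ℕ) + 1
          omega
        · show (0 : ℕ) + ((j : ℕ) + 1) ≤ 2 * m - 1
          omega⟩ : Up m))
      (fun j : Fin (2 * m - 3) => (⟨(⟨1, by omega⟩, ⟨(j : ℕ) + 2, by have := j.2; omega⟩), by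
        have := j.2
        constructor
        · show (1 : ℕ) < (j : ℕ) + 2
          omega
        · show (1 : ℕ) + ((j : ℕ) + 2) ≤ 2 * m - 1
          omega⟩ : Up m))) := by
    intro a b hab
    rcases a with a | a <;> rcases b with b | b
    · have h1 := congrArg (fun z : Up m => ((z.1.2 : Fin (2 * m)) : ℕ)) hab
      simp only [Sum.elim_inl] at h1
      congr 1
      exact Fin.ext (by omega)
    · have h1 := congrArg (fun z : Up m => ((z.1.1 : Fin (2 * m)) : ℕ)) hab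
      simp only [Sum.elim_inl, Sum.elim_inr] at h1
      omega
    · have h1 := congrArg (fun z : Up m => ((z.1.1 : Fin (2 * m)) : ℕ)) hab
      simp only [Sum.elim_inl, Sum.elim_inr] at h1
      omega
    · have h1 := congrArg (fun z : Up m => ((z.1.2 : Fin (2 * m)) : ℕ)) hab
      simp only [Sum.elim_inr] at h1
      congr 1
      exact Fin.ext (by omega)
  have h1 : Fintype.card (Fin (2 * m - 1) ⊕ Fin (2 * m - 3)) ≤ Fintype.card (Up m) := Fintype.card_le_of_injective _ hinj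
  have h2 : Fintype.card (Fin (2 * m - 1) ⊕ Fin (2 * m - 3)) = (2 * m - 1) + (2 * m - 3) := by
    rw [Fintype.card_sum, Fintype.card_fin, Fintype.card_fin]
  omega

/-- symplectic matrices with prescribed entries above the diagonal -/
lemma sp_exists (f : Up m → F) : ∃ X ∈ spS F m, ∀ p : Up m, up F (2 * m) X p.1.1 p.1.2 = f p := by
  classical
  let X : Matrix (Fin (2 * m)) (Fin (2 * m)) F := Matrix.of fun a b =>
    if h : (a : ℕ) < b ∧ (a : ℕ) + b ≤ 2 * m - 1 then f ⟨(a, b), h⟩ else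
    if h : (a : ℕ) < b ∧ 2 * m - 1 < (a : ℕ) + b then -((-1) ^ ((a : ℕ) + b) * f ⟨(Fin.rev b, Fin.rev a), by
      rw [Fin.val_rev, Fin.val_rev]
      have := a.2
      have := b.2
      constructor
      · show 2 * m - ((b : ℕ) + 1) < 2 * m - ((a : ℕ) + 1)
        omega
      · show 2 * m - ((b : ℕ) + 1) + (2 * m - ((a : ℕ) + 1)) ≤ 2 * m - 1
        omega⟩) else 0
  have hX : ∀ a b, X a b = if h : (a : ℕ) < b ∧ (a : ℕ) + b ≤ 2 * m - 1 then f ⟨(a, b), h⟩ else
    if h : (a : ℕ) < b ∧ 2 * m - 1 < (a : ℕ) + b then -((-1) ^ ((a : ℕ) + b) * f ⟨(Fin.rev b, Fin.rev a), by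
      rw [Fin.val_rev, Fin.val_rev]
      have := a.2
      have := b.2
      constructor
      · show 2 * m - ((b : ℕ) + 1) < 2 * m - ((a : ℕ) + 1)
        omega
      · show 2 * m - ((b : ℕ) + 1) + (2 * m - ((a : ℕ) + 1)) ≤ 2 * m - 1
        omega⟩) else 0 := fun a b => rfl
  refine ⟨X, ?_, ?_⟩
  · apply sp_of_entry
    intro a b
    have ha := a.2
    have hb := b.2
    have va : ((Fin.rev a : Fin (2 * m)) : ℕ) = 2 * m - ((a : ℕ) + 1) := Fin.val_rev a
    have vb : ((Fin.rev b : Fin (2 * m)) : ℕ) = 2 * m - ((b : ℕ) + 1) := Fin.val_rev b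
    have hsgn : (-1 : F) ^ (((Fin.rev b : Fin (2 * m)) : ℕ) + ((Fin.rev a : Fin (2 * m)) : ℕ)) = (-1) ^ ((a : ℕ) + b) := by
      rw [pow_add, neg_one_rev, neg_one_rev, pow_add]
      ring
    by_cases hab : (a : ℕ) < b
    · have hrr : ((Fin.rev b : Fin (2 * m)) : ℕ) < (Fin.rev a : Fin (2 * m)) := by omega
      rcases lt_trichotomy ((a : ℕ) + b) (2 * m - 1) with h1 | h1 | h1
      · rw [hX a b, dif_pos ⟨hab, h1.le⟩, hX, dif_neg (by omega), dif_pos ⟨hrr, by omega⟩, hsgn]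
        have e : f ⟨(Fin.rev (Fin.rev a), Fin.rev (Fin.rev b)), by
            rw [Fin.rev_rev, Fin.rev_rev]
            exact ⟨hab, h1.le⟩⟩ = f ⟨(a, b), ⟨hab, h1.le⟩⟩ := by
          congr 1
          exact Subtype.ext (Prod.ext (Fin.rev_rev a) (Fin.rev_rev b))
        rw [e]
      · have hbr : b = Fin.rev a := Fin.ext (by omega)
        subst hbr
        rw [Fin.rev_rev]
        have hodd : (-1 : F) ^ ((a : ℕ) + (Fin.rev a : Fin (2 * m))) = -1 := by
          rw [pow_add, neg_one_rev, mul_neg, neg_one_sq']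
        rw [hodd]
        ring
      · rw [hX a b, dif_neg (by omega), dif_pos ⟨hab, h1⟩, hX, dif_pos ⟨hrr, by omega⟩, mul_neg, neg_neg, ← mul_assoc,
          neg_one_sq', one_mul]
    · have hrr : ¬ (((Fin.rev b : Fin (2 * m)) : ℕ) < (Fin.rev a : Fin (2 * m))) := by omega
      rw [hX a b, dif_neg (by omega), dif_neg (by omega), hX, dif_neg (by tauto), dif_neg (by tauto), mul_zero, neg_zero]
  · rintro ⟨⟨a, b⟩, h⟩
    show (if a < b then X a b else 0) = _
    rw [if_pos (show a < b from h.1), hX, dif_pos h]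

end ideal

section
variable {F : Type} [Field F] {K : Subfield F} {σ : F →+* F} {m : ℕ}
  {J g G M A B Λ Δ Φ : Matrix (Fin (2 * m)) (Fin (2 * m)) F} {r : ℕ} {x : Fin r → Matrix (Fin (2 * m)) (Fin (2 * m)) F}
  {q κ c : F}

/-- the logarithmic derivative of the adapted basis -/
lemma UBgen (h : CD K σ J g G M A B Λ Δ Φ x q κ c) (D : Derivation ℤ F F) (hD : ∀ z ∈ K, D z = 0)
    {Z : Matrix (Fin (2 * m)) (Fin (2 * m)) F} (hg : g.map D = g * Z) :
    B.map D * B⁻¹ = Λ.map D * Λ⁻¹ + (Λ * (Δ * g)) * (Z + G.map D * G⁻¹) * (Λ * (Δ * g))⁻¹ := by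
  have hBu : IsUnit B.det := isUnit_iff_ne_zero.2 h.Bdet
  have hGu : IsUnit G.det := isUnit_iff_ne_zero.2 h.Gdet
  have hLu : IsUnit Λ.det := isUnit_iff_ne_zero.2 h.Ldet
  set W := G.map D * G⁻¹ with hW
  set E := Λ * (Δ * g) with hE
  have hEu : IsUnit E.det := isUnit_iff_ne_zero.2 h.Edet
  have hWG : G.map D = W * G := by rw [hW, Matrix.mul_assoc, Matrix.nonsing_inv_mul _ hGu, mul_one]
  have hBE : B = E * G := h.BE
  have h2 : B.map D = Λ.map D * (Δ * (g * G)) + E * (Z + W) * G := by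
    rw [h.BL, dmap_mul, dmap_mul, dmap_mul, dmap_zero D (fun i j => hD _ (h.Dk i j)), zero_mul, zero_add, hg, hWG, hE]
    simp only [Matrix.mul_add, Matrix.add_mul, Matrix.mul_assoc]
  have h3 : Δ * (g * G) = Λ⁻¹ * B := by
    nth_rewrite 1 [h.BL]
    rw [← Matrix.mul_assoc Λ⁻¹, Matrix.nonsing_inv_mul _ hLu, one_mul]
  have h4 : G = E⁻¹ * B := by
    rw [hBE, ← Matrix.mul_assoc, Matrix.nonsing_inv_mul _ hEu, one_mul]
  have h5 : G * B⁻¹ = E⁻¹ := by
    nth_rewrite 1 [h4]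
    rw [Matrix.mul_assoc, Matrix.mul_nonsing_inv _ hBu, mul_one]
  rw [h2, add_mul, h3, Matrix.mul_assoc, Matrix.mul_assoc, Matrix.mul_nonsing_inv _ hBu, mul_one,
    Matrix.mul_assoc (E * (Z + W)), h5]

end

section
variable {F : Type} [Field F] [CharZero F] {K : Subfield F} {σ : F →+* F} {m : ℕ}
  {J Δ g G M A B Λ Φ J' Δ' g' G' M' A' B' Λ' Φ' : Matrix (Fin (2 * m)) (Fin (2 * m)) F} {r : ℕ}
  {x y : Fin r → Matrix (Fin (2 * m)) (Fin (2 * m)) F} {q κ c q' κ' c' : F}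

/-- the symplectic Lie algebra in the adapted basis -/
lemma conj_sp (h : CD K σ J g G M A B Λ Δ Φ x q κ c) {X : Matrix (Fin (2 * m)) (Fin (2 * m)) F} (hX : X ∈ spS F m) :
    (B⁻¹ * X * B) * A + A * (B⁻¹ * X * B)ᵀ = 0 := by
  have hBu : IsUnit B.det := isUnit_iff_ne_zero.2 h.Bdet
  have hBTu : IsUnit Bᵀ.det := by rwa [Matrix.det_transpose]
  have hA0 : A = c • (B⁻¹ * SS F (2 * m) * Bᵀ⁻¹) := by
    calc A = (B⁻¹ * B) * A * (Bᵀ * Bᵀ⁻¹) := by
          rw [Matrix.nonsing_inv_mul _ hBu, Matrix.mul_nonsing_inv _ hBTu, Matrix.one_mul, Matrix.mul_one]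
      _ = B⁻¹ * (B * A * Bᵀ) * Bᵀ⁻¹ := by simp only [Matrix.mul_assoc]
      _ = _ := by rw [h.BA, Matrix.mul_smul, Matrix.smul_mul]
  have e1 : (B⁻¹ * X * B) * A = c • (B⁻¹ * (X * SS F (2 * m)) * Bᵀ⁻¹) := by
    nth_rewrite 1 [hA0]
    rw [Matrix.mul_smul]
    congr 1
    calc B⁻¹ * X * B * (B⁻¹ * SS F (2 * m) * Bᵀ⁻¹) = B⁻¹ * X * (B * B⁻¹) * SS F (2 * m) * Bᵀ⁻¹ := by
          simp only [Matrix.mul_assoc]
      _ = _ := by
          rw [Matrix.mul_nonsing_inv _ hBu, Matrix.mul_one]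
          simp only [Matrix.mul_assoc]
  have e2 : A * (B⁻¹ * X * B)ᵀ = c • (B⁻¹ * (SS F (2 * m) * Xᵀ) * Bᵀ⁻¹) := by
    nth_rewrite 1 [hA0]
    rw [Matrix.smul_mul]
    congr 1
    rw [Matrix.transpose_mul, Matrix.transpose_mul, Matrix.transpose_nonsing_inv]
    calc B⁻¹ * SS F (2 * m) * Bᵀ⁻¹ * (Bᵀ * (Xᵀ * Bᵀ⁻¹)) = B⁻¹ * SS F (2 * m) * (Bᵀ⁻¹ * Bᵀ) * Xᵀ * Bᵀ⁻¹ := by
          simp only [Matrix.mul_assoc]
      _ = _ := by
          rw [Matrix.nonsing_inv_mul _ hBTu, Matrix.mul_one]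
          simp only [Matrix.mul_assoc]
  rw [e1, e2, ← smul_add, ← Matrix.add_mul, ← Matrix.mul_add, mem_spS.1 hX, Matrix.mul_zero, Matrix.zero_mul, smul_zero]

/-- **The core theorem for fibres of two families.** -/
theorem pair_free (l1 : S_LIE1) (l2 : S_LIE2) (l3 : S_LIE3) (lF : S_FIN) (lE : S_EB) (lG : S_GEN) (hm : 4 ≤ m)
    (h : CD K σ J g G M A B Λ Δ Φ x q κ c) (h' : CD K σ J' g' G' M' A' B' Λ' Δ' Φ' y q' κ' c')
    (hbr : ∀ a b, (x a * x b - x b * x a, y a * y b - y b * y a) ∈ JS x y) (hP : (Φ, Φ') ∈ JS x y)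
    (hDer : ∀ v : Fin (2 * m) → F, ∃ D : Derivation ℤ F F, (∀ z ∈ K, D z = 0) ∧ g.map D = g * (vecMulVec v v * J) ∧
      g'.map D = 0) {X : Matrix (Fin (2 * m)) (Fin (2 * m)) F} (hX : X * A + A * Xᵀ = 0) :
    (X, 0) ∈ JS x y := by
  have hBu : IsUnit B.det := isUnit_iff_ne_zero.2 h.Bdet
  have hBu' : IsUnit B'.det := isUnit_iff_ne_zero.2 h'.Bdet
  have hBTu : IsUnit Bᵀ.det := by rwa [Matrix.det_transpose]
  have hsp : ∀ X : Matrix (Fin (2 * m)) (Fin (2 * m)) F, X * A + A * Xᵀ = 0 → X ∈ Submodule.span F (Set.range x) :=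
    fun X hX => core l1 l2 l3 lF lE lG h hm hX
  let V : Submodule F (Matrix (Fin (2 * m)) (Fin (2 * m)) F × Matrix (Fin (2 * m)) (Fin (2 * m)) F) :=
    { carrier := {Z | (B⁻¹ * Z.1 * B, B'⁻¹ * Z.2 * B') ∈ JS x y}
      add_mem' := by
        intro X Y h1 h2
        have h3 := (JS x y).add_mem (show (B⁻¹ * X.1 * B, B'⁻¹ * X.2 * B') ∈ JS x y from h1)
          (show (B⁻¹ * Y.1 * B, B'⁻¹ * Y.2 * B') ∈ JS x y from h2)
        show (B⁻¹ * (X.1 + Y.1) * B, B'⁻¹ * (X.2 + Y.2) * B') ∈ JS x y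
        rw [Matrix.mul_add, Matrix.add_mul, Matrix.mul_add, Matrix.add_mul]
        exact h3
      zero_mem' := by
        show (B⁻¹ * 0 * B, B'⁻¹ * 0 * B') ∈ JS x y
        rw [Matrix.mul_zero, Matrix.zero_mul, Matrix.mul_zero, Matrix.zero_mul]
        exact Submodule.zero_mem _
      smul_mem' := by
        intro a X h1
        have h3 := (JS x y).smul_mem a (show (B⁻¹ * X.1 * B, B'⁻¹ * X.2 * B') ∈ JS x y from h1)
        show (B⁻¹ * (a • X.1) * B, B'⁻¹ * (a • X.2) * B') ∈ JS x y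
        rw [Matrix.mul_smul, Matrix.smul_mul, Matrix.mul_smul, Matrix.smul_mul]
        exact h3 }
  have memV : ∀ X Y, ((X, Y) : Matrix (Fin (2 * m)) (Fin (2 * m)) F × Matrix (Fin (2 * m)) (Fin (2 * m)) F) ∈ V ↔
      (B⁻¹ * X * B, B'⁻¹ * Y * B') ∈ JS x y := fun X Y => Iff.rfl
  have cj : ∀ {B : Matrix (Fin (2 * m)) (Fin (2 * m)) F}, IsUnit B.det → ∀ X Y : Matrix (Fin (2 * m)) (Fin (2 * m)) F,
      (B⁻¹ * X * B) * (B⁻¹ * Y * B) - (B⁻¹ * Y * B) * (B⁻¹ * X * B) = B⁻¹ * (X * Y - Y * X) * B := by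
    intro B hu X Y
    have e : ∀ X Y : Matrix (Fin (2 * m)) (Fin (2 * m)) F, (B⁻¹ * X * B) * (B⁻¹ * Y * B) = B⁻¹ * (X * Y) * B := by
      intro X Y
      calc (B⁻¹ * X * B) * (B⁻¹ * Y * B) = B⁻¹ * X * (B * B⁻¹) * Y * B := by simp only [Matrix.mul_assoc]
        _ = _ := by
          rw [Matrix.mul_nonsing_inv _ hu, mul_one]
          simp only [Matrix.mul_assoc]
    rw [e, e, Matrix.mul_sub, Matrix.sub_mul]
  have ilbr : ∀ X Y X' Y', (X, Y) ∈ V → (X', Y') ∈ V → (X * X' - X' * X, Y * Y' - Y' * Y) ∈ V := by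
    intro X Y X' Y' h1 h2
    have h3 := js_br hbr h1 h2
    simp only [cj hBu, cj hBu'] at h3
    exact h3
  have ildl : (dl F m, dl F m) ∈ V := by
    have e : ∀ {B Φ : Matrix (Fin (2 * m)) (Fin (2 * m)) F}, IsUnit B.det → B * Φ = dl F m * B → B⁻¹ * dl F m * B = Φ := by
      intro B Φ hu hBP
      rw [Matrix.mul_assoc, ← hBP, ← Matrix.mul_assoc, Matrix.nonsing_inv_mul _ hu, one_mul]
    rw [memV, e hBu h.BP, e hBu' h'.BP]
    exact hP
  have hgr : ∀ X ∈ V, (gr F (2 * m) * X.1 - X.1 * gr F (2 * m), gr F (2 * m) * X.2 - X.2 * gr F (2 * m)) ∈ V := by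
    rintro ⟨X, Y⟩ hXY
    have h1 := ilbr _ _ _ _ ildl hXY
    have e : ∀ X : Matrix (Fin (2 * m)) (Fin (2 * m)) F, dl F m * X - X * dl F m = gr F (2 * m) * X - X * gr F (2 * m) := by
      intro X
      rw [dl_eq, Matrix.add_mul, Matrix.mul_add, Matrix.smul_mul, Matrix.mul_smul, Matrix.one_mul, Matrix.mul_one]
      abel
    rw [e, e] at h1
    exact h1
  -- the velocities
  set E := Λ * (Δ * g) with hE
  set E' := Λ' * (Δ' * g') with hE'
  have hEu : IsUnit E.det := isUnit_iff_ne_zero.2 h.Edet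
  have hEu' : IsUnit E'.det := isUnit_iff_ne_zero.2 h'.Edet
  set U1 := LinearMap.range (TE J E) with hU1
  set U2 := LinearMap.range (TE J' E') with hU2
  have hr1 : Module.finrank F U1 ≤ m + 1 := TE_rank lE (by omega) h.Jdet h.JN hEu
  have hr2 : Module.finrank F U2 ≤ m + 1 := TE_rank lE (by omega) h'.Jdet h'.JN hEu'
  have hvel : ∀ w : Fin (2 * m) → F, ∃ Y1 ∈ spS F m, ∃ Y2 ∈ U2, (Y1, Y2) ∈ V ∧ ∃ W ∈ U1,
      Y1 = -((κ / c) • up F (2 * m) (vecMulVec w w * SS F (2 * m))) + W := by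
    intro w
    set v := E⁻¹ *ᵥ w with hv
    have hwv : E *ᵥ v = w := by
      rw [hv, Matrix.mulVec_mulVec, Matrix.mul_nonsing_inv _ hEu, Matrix.one_mulVec]
    obtain ⟨D, hD, hg, hg'⟩ := hDer v
    have hUB := UBgen h D hD hg
    have hUB' := UBgen h' D hD (Z := 0) (by rw [hg', Matrix.mul_zero])
    have hW : G.map D * G⁻¹ ∈ Vw F J := ⟨⟨_, h.W1 D hD⟩, _, h.W2 D hD⟩
    have hW' : G'.map D * G'⁻¹ ∈ Vw F J' := ⟨⟨_, h'.W1 D hD⟩, _, h'.W2 D hD⟩
    have hu1 : up F (2 * m) (B.map D * B⁻¹) = up F (2 * m) (E * (vecMulVec v v * J + G.map D * G⁻¹) * E⁻¹) := by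
      refine up_congr fun a b hab => ?_
      rw [hUB, Matrix.add_apply, low_entry D h.Ldet h.Ll a b hab, zero_add]
    have hu2 : up F (2 * m) (B'.map D * B'⁻¹) = up F (2 * m) (E' * (0 + G'.map D * G'⁻¹) * E'⁻¹) := by
      refine up_congr fun a b hab => ?_
      rw [hUB', Matrix.add_apply, low_entry D h'.Ldet h'.Ll a b hab, zero_add]
    refine ⟨up F (2 * m) (B.map D * B⁻¹), ?_, up F (2 * m) (B'.map D * B'⁻¹), ?_, ?_, TE J E ⟨_, hW⟩, ⟨_, rfl⟩, ?_⟩
    · rw [hu1]
      refine up_sp (s := D κ / κ) (h.gsp ?_)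
      have e1 := h.rk1 v
      have e2 := h.W2 D hD
      rw [Matrix.transpose_add, add_mul, mul_add]
      calc (vecMulVec v v * J)ᵀ * J + (G.map D * G⁻¹)ᵀ * J + (J * (vecMulVec v v * J) + J * (G.map D * G⁻¹)) =
          ((vecMulVec v v * J)ᵀ * J + J * (vecMulVec v v * J)) + ((G.map D * G⁻¹)ᵀ * J + J * (G.map D * G⁻¹)) := by abel
        _ = _ := by rw [e1, e2, zero_add]
    · rw [hu2, zero_add]
      refine ⟨⟨_, hW'⟩, ?_⟩
      rw [TE_apply, Matrix.mul_assoc E']
    · have hder := js_der D (fun a i j => hD _ (h.xk a i j)) (fun a i j => hD _ (h'.xk a i j)) hP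
      rw [← h.Phider D, ← h'.Phider D] at hder
      have hV1 : (dl F m * (B.map D * B⁻¹) - (B.map D * B⁻¹) * dl F m,
          dl F m * (B'.map D * B'⁻¹) - (B'.map D * B'⁻¹) * dl F m) ∈ V := hder
      have hV2 := graded2 V hgr (fun d => if 0 < d then ((d : F)⁻¹) else 0) hV1
      have e : ∀ Y : Matrix (Fin (2 * m)) (Fin (2 * m)) F, (Matrix.of fun a b : Fin (2 * m) =>
          (fun d : ℤ => if 0 < d then ((d : F)⁻¹) else 0) (((b : ℕ) : ℤ) - ((a : ℕ) : ℤ)) * (dl F m * Y - Y * dl F m) a b) =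
          up F (2 * m) Y := by
        intro Y
        ext a b
        rw [Matrix.of_apply, up_apply, dl_entry]
        by_cases hab : a < b
        · have hab' : (a : ℕ) < b := hab
          have h0 : 0 < ((b : ℕ) : ℤ) - ((a : ℕ) : ℤ) := by omega
          have h0' : ((((b : ℕ) : ℤ) - ((a : ℕ) : ℤ) : ℤ) : F) ≠ 0 := by
            rw [Int.cast_ne_zero]
            omega
          rw [if_pos hab]
          simp only [if_pos h0]
          rw [← mul_assoc, inv_mul_cancel₀ h0', one_mul]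
        · have hab' : ¬ ((a : ℕ) < b) := hab
          have h0 : ¬ (0 < ((b : ℕ) : ℤ) - ((a : ℕ) : ℤ)) := by omega
          rw [if_neg hab]
          simp only [if_neg h0, zero_mul]
      simp only [e] at hV2
      exact hV2
    · rw [hu1, Matrix.mul_add, Matrix.add_mul, map_add]
      congr 1
      · rw [h.rk1' v, ← hE, hwv, map_neg, map_smul]
      · rw [TE_apply, Matrix.mul_assoc E]
  -- a nonzero element of the kernel
  obtain ⟨X0, hX0, hX0V, hX0ne⟩ : ∃ X0 ∈ spS F m, (X0, 0) ∈ V ∧ X0 ≠ 0 := by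
    by_contra hcon
    push Not at hcon
    set S : Submodule F (Matrix (Fin (2 * m)) (Fin (2 * m)) F × Matrix (Fin (2 * m)) (Fin (2 * m)) F) :=
      V ⊓ ((spS F m).comap (LinearMap.fst F _ _) ⊓ U2.comap (LinearMap.snd F _ _)) with hS
    have hSd : Module.finrank F S ≤ m + 1 := by
      refine le_trans ?_ hr2
      let f : S →ₗ[F] U2 := LinearMap.codRestrict U2 ((LinearMap.snd F _ _) ∘ₗ S.subtype) fun z => z.2.2.2
      refine LinearMap.finrank_le_finrank_of_injective (f := f) ?_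
      rw [← LinearMap.ker_eq_bot, LinearMap.ker_eq_bot']
      rintro ⟨⟨Y1, Y2⟩, hY⟩ h0
      have h1 : Y2 = 0 := congrArg Subtype.val h0
      subst h1
      have h2 : Y1 = 0 := hcon Y1 hY.2.1 hY.1
      subst h2
      rfl
    set U := S.map (LinearMap.fst F _ _) ⊔ U1 with hU
    have hUd : Module.finrank F U ≤ 2 * m + 2 := by
      have h1 := Submodule.finrank_add_le_finrank_add_finrank (S.map (LinearMap.fst F _ _)) U1
      have h2 := Submodule.finrank_map_le (LinearMap.fst F (Matrix (Fin (2 * m)) (Fin (2 * m)) F)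
        (Matrix (Fin (2 * m)) (Fin (2 * m)) F)) S
      rw [← hU] at h1
      omega
    have hup : ∀ X ∈ spS F m, up F (2 * m) X ∈ U := by
      intro X hX
      have h1 : (Submodule.span F (Set.range fun w : Fin (2 * m) → F => vecMulVec w w * SS F (2 * m))) ≤
          U.comap (up F (2 * m)) := by
        rw [Submodule.span_le]
        rintro _ ⟨w, rfl⟩
        obtain ⟨Y1, hY1, Y2, hY2, hYV, W, hW, he⟩ := hvel w
        have h2 : Y1 ∈ U := Submodule.mem_sup_left ⟨(Y1, Y2), ⟨hYV, hY1, hY2⟩, rfl⟩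
        have h3 : W ∈ U := Submodule.mem_sup_right hW
        have h4 := U.sub_mem h3 h2
        have e : W - Y1 = (κ / c) • up F (2 * m) (vecMulVec w w * SS F (2 * m)) := by
          rw [he]
          abel
        rw [e] at h4
        have h5 := U.smul_mem (κ / c)⁻¹ h4
        rwa [smul_smul, inv_mul_cancel₀ (div_ne_zero h.k0 h.c0), one_smul] at h5
      exact h1 (sp_span hX)
    let ρ : U →ₗ[F] (Up m → F) :=
      { toFun := fun X p => (X : Matrix (Fin (2 * m)) (Fin (2 * m)) F) p.1.1 p.1.2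
        map_add' := fun _ _ => rfl
        map_smul' := fun _ _ => rfl }
    have hρ : LinearMap.range ρ = ⊤ := by
      rw [eq_top_iff]
      intro f _
      obtain ⟨X, hX, hf⟩ := sp_exists f
      exact ⟨⟨_, hup X hX⟩, funext fun p => hf p⟩
    have h1 := LinearMap.finrank_range_le ρ
    rw [hρ, finrank_top, Module.finrank_fintype_fun_eq_card] at h1
    have h2 := card_Up_ge (m := m) (by omega)
    omega
  -- the ideal
  let L : Submodule F (Matrix (Fin (2 * m)) (Fin (2 * m)) F) :=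
    { carrier := {X | (X, 0) ∈ V}
      add_mem' := by
        intro X Y h1 h2
        have h3 := V.add_mem h1 h2
        rw [Prod.mk_add_mk, add_zero] at h3
        exact h3
      zero_mem' := V.zero_mem
      smul_mem' := by
        intro a X h1
        have h2 := V.smul_mem a h1
        rw [Prod.smul_mk, smul_zero] at h2
        exact h2 }
  have hid : ∀ X ∈ spS F m, ∀ Y ∈ L, X * Y - Y * X ∈ L := by
    intro X hX Y hY
    have h2 := hsp _ (conj_sp h hX)
    rw [Submodule.mem_span_range_iff_exists_fun] at h2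
    obtain ⟨d, hd⟩ := h2
    have h3 : (B⁻¹ * X * B, ∑ a, d a • y a) ∈ JS x y := mem_JS.2 ⟨d, hd, rfl⟩
    have h4 : (X, B' * (∑ a, d a • y a) * B'⁻¹) ∈ V := by
      rw [memV]
      have e : B'⁻¹ * (B' * (∑ a, d a • y a) * B'⁻¹) * B' = ∑ a, d a • y a := by
        calc B'⁻¹ * (B' * (∑ a, d a • y a) * B'⁻¹) * B' = (B'⁻¹ * B') * (∑ a, d a • y a) * (B'⁻¹ * B') := by
              simp only [Matrix.mul_assoc]
          _ = _ := by rw [Matrix.nonsing_inv_mul _ hBu', Matrix.one_mul, Matrix.mul_one]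
      rw [e]
      exact h3
    have h5 := ilbr _ _ _ _ h4 hY
    rw [Matrix.mul_zero, Matrix.zero_mul, sub_zero] at h5
    exact h5
  -- back
  have hXs : (B * X * B⁻¹) ∈ spS F m := by
    rw [mem_spS]
    have h1 : SS F (2 * m) = c⁻¹ • (B * A * Bᵀ) := by rw [h.BA, smul_smul, inv_mul_cancel₀ h.c0, one_smul]
    have e1 : B * X * B⁻¹ * (B * A * Bᵀ) = B * (X * A) * Bᵀ := by
      have : B * X * B⁻¹ * (B * A * Bᵀ) = B * X * (B⁻¹ * B) * A * Bᵀ := by simp only [Matrix.mul_assoc]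
      rw [this, Matrix.nonsing_inv_mul _ hBu, mul_one]
      simp only [Matrix.mul_assoc]
    have e2 : B * A * Bᵀ * (B * X * B⁻¹)ᵀ = B * (A * Xᵀ) * Bᵀ := by
      rw [Matrix.transpose_mul, Matrix.transpose_mul, Matrix.transpose_nonsing_inv]
      have : B * A * Bᵀ * ((Bᵀ)⁻¹ * (Xᵀ * Bᵀ)) = B * A * (Bᵀ * (Bᵀ)⁻¹) * (Xᵀ * Bᵀ) := by simp only [Matrix.mul_assoc]
      rw [this, Matrix.mul_nonsing_inv _ hBTu, mul_one]
      simp only [Matrix.mul_assoc]
    rw [h1, Matrix.mul_smul, Matrix.smul_mul, ← smul_add, e1, e2, ← add_mul, ← mul_add, hX, mul_zero, zero_mul, smul_zero]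
  have h6 : B * X * B⁻¹ ∈ L := ideal_all hid hX0 hX0V hX0ne hXs
  have h7 : (B⁻¹ * (B * X * B⁻¹) * B, B'⁻¹ * 0 * B') ∈ JS x y := h6
  have e : B⁻¹ * (B * X * B⁻¹) * B = X := by
    calc B⁻¹ * (B * X * B⁻¹) * B = (B⁻¹ * B) * X * (B⁻¹ * B) := by simp only [Matrix.mul_assoc]
      _ = _ := by rw [Matrix.nonsing_inv_mul _ hBu, Matrix.one_mul, Matrix.mul_one]
  rw [e, Matrix.mul_zero, Matrix.zero_mul] at h7
  exact h7

end

end Pool.Agent.W2helper4.MJ
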