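import Pool.Agent.Y113.MT.Pr2
import Pool.Agent.W2helper4.MJ.Pair

/-!
# The transfer for fibres of two families
-/

set_option autoImplicit false
set_option maxHeartbeats 1000000

open Matrix Filter

namespace Pool.Agent.W2helper4.MJ

open Pool.Agent.Y113.MT

/-- **The theorem for sequences of pairs of fibres.** -/
theorem ultra_free (l1 : S_LIE1) (l2 : S_LIE2) (l3 : S_LIE3) (lF : S_FIN) (lE : S_EB) (lG : S_GEN) {m r : ℕ} (hm : 4 ≤ m)
    {J Δ J' Δ' : Matrix (Fin (2 * m)) (Fin (2 * m)) ℚ} {q q' : ℕ → ℂ} (hq : ∀ k, q k ≠ 0) (hq' : ∀ k, q' k ≠ 0)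
    (hJ : J.det ≠ 0) (hJt : Jᵀ = -J) (hJN : (NN ℂ (2 * m))ᵀ * cq J = -(cq J * NN ℂ (2 * m)))
    (hJ' : J'.det ≠ 0) (hJt' : J'ᵀ = -J') (hJN' : (NN ℂ (2 * m))ᵀ * cq J' = -(cq J' * NN ℂ (2 * m)))
    {g G B Λ Φ g' G' B' Λ' Φ' : ℕ → Matrix (Fin (2 * m)) (Fin (2 * m)) ℂ}
    {M A M' A' : ℕ → Matrix (Fin (2 * m)) (Fin (2 * m)) ℚ}
    {x y : ℕ → Fin r → Matrix (Fin (2 * m)) (Fin (2 * m)) ℚ} {κ c κ' c' : ℕ → ℂ}
    {X : ℕ → Matrix (Fin (2 * m)) (Fin (2 * m)) ℚ}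
    (h : ∀ k, ID J Δ (q k) k (g k) (G k) (B k) (Λ k) (Φ k) (M k) (A k) (x k) (κ k) (c k))
    (h' : ∀ k, ID J' Δ' (q' k) k (g' k) (G' k) (B' k) (Λ' k) (Φ' k) (M' k) (A' k) (y k) (κ' k) (c' k))
    (hgen : ∀ k, ∀ P : MvPolynomial ((Fin (2 * m) × Fin (2 * m)) ⊕ Fin (2 * m) × Fin (2 * m)) ℚ, P.totalDegree ≤ k →
      MvPolynomial.aeval (Sum.elim (fun z : Fin (2 * m) × Fin (2 * m) => g' k z.1 z.2)
        fun z : Fin (2 * m) × Fin (2 * m) => g k z.1 z.2) P = 0 →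
      ∀ h : Matrix (Fin (2 * m)) (Fin (2 * m)) ℂ, hᵀ * cq J * h = cq J →
      MvPolynomial.aeval (Sum.elim (fun z : Fin (2 * m) × Fin (2 * m) => g' k z.1 z.2)
        fun z : Fin (2 * m) × Fin (2 * m) => h z.1 z.2) P = 0)
    (hbr : ∀ k a b, (x k a * x k b - x k b * x k a, y k a * y k b - y k b * y k a) ∈ JS (x k) (y k))
    (hP : ∀ k, (Φ k, Φ' k) ∈ JS (fun a => cq (x k a)) (fun a => cq (y k a)))
    (hX : ∀ k, X k * A k + A k * (X k)ᵀ = 0) : ∃ k, (X k, 0) ∈ JS (x k) (y k) := by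
  have key := key_of hq hJ hJt hJN h
  have key' := key_of hq' hJ' hJt' hJN' h'
  have hJc' : (cq J)ᵀ = -cq J := by rw [← cq_tr, hJt, cq_neg]
  have hDer : ∀ v : Fin (2 * m) → UF, ∃ D : Derivation ℤ UF UF, (∀ z ∈ UK, D z = 0) ∧
      (gm g).map D = gm g * (vecMulVec v v * gm fun _ => cq J) ∧ (gm g').map D = 0 := by
    intro v
    obtain ⟨D, hD, hDx⟩ := gen_all UK (Sum.elim (fun z : Fin (2 * m) × Fin (2 * m) => rh fun k => g' k z.1 z.2)
        fun z : Fin (2 * m) × Fin (2 * m) => gm g z.1 z.2)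
      (Sum.elim (fun _ => 0) fun z : Fin (2 * m) × Fin (2 * m) => (gm g * (vecMulVec v v * gm fun _ => cq J)) z.1 z.2)
      (fun P hP => generic2 hJc' (fun k => (h k).gJ) (fun k => fun z : Fin (2 * m) × Fin (2 * m) => g' k z.1 z.2)
        hgen P hP v)
    refine ⟨D, hD, ?_, ?_⟩
    · ext i j
      exact hDx (Sum.inr (i, j))
    · refine dmap_zero D fun i j => ?_
      exact hDx (Sum.inl (i, j))
  have h1 := pair_free l1 l2 l3 lF lE lG hm key key' (by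
    intro a b
    have h2 := gm_JS (Z := fun k a => cq (x k a)) (Z' := fun k a => cq (y k a)) fun k => cq_JS (hbr k a b)
    simp only [cq_sub, cq_mul] at h2
    rw [gm_sub, gm_sub, gm_mul, gm_mul, gm_mul, gm_mul] at h2
    exact h2) (gm_JS hP) hDer
    (X := gm fun k => cq (X k)) (by
    rw [← gm_mul, ← gm_tr, ← gm_mul, ← gm_add, ← gm_zero]
    congr 1
    funext k
    rw [← cq_mul, ← cq_tr, ← cq_mul, ← cq_add, hX, cq_zero])
  have h2 : (gm (fun k => cq (X k)), gm fun _ => cq 0) ∈ JS (fun a => gm fun k => cq (x k a)) (fun a => gm fun k => cq (y k a)) := by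
    have e : (gm fun _ => cq (0 : Matrix (Fin (2 * m)) (Fin (2 * m)) ℚ)) = 0 := by
      rw [← gm_zero]
      congr 1
      funext k
      rw [cq_zero]
    rw [e]
    exact h1
  obtain ⟨k, hk⟩ := JS_gm (Z := fun k a => cq (x k a)) (Z' := fun k a => cq (y k a)) h2
  exact ⟨k, JS_cq hk⟩

end Pool.Agent.W2helper4.MJ
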