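import Pool.Agent.W2helper4.MJ.PD
import Pool.Agent.W2helper4.MJ.Ult
import Pool.Agent.W2helper4.MJ.Lie
import Pool.Agent.W2helper4.MJ.Fib

/-!
# Mumford–Tate Lie algebras of sums of fibres
-/

set_option autoImplicit false
set_option maxHeartbeats 1000000

open Matrix Pool.Agent.Y113.MT

namespace Pool.Agent.W2helper4.MJ

section
variable {n n' : ℕ}

/-- all relations of degree at most `k` between the entries hold on the isometry group -/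
def GenS (k : ℕ) (J : Matrix (Fin n) (Fin n) ℚ) (g : Matrix (Fin n) (Fin n) ℂ) : Prop :=
  ∀ P : MvPolynomial (Fin n × Fin n) ℚ, P.totalDegree ≤ k →
    MvPolynomial.aeval (fun z : Fin n × Fin n => g z.1 z.2) P = 0 →
    ∀ h : Matrix (Fin n) (Fin n) ℂ, hᵀ * cq J * h = cq J →
    MvPolynomial.aeval (fun z : Fin n × Fin n => h z.1 z.2) P = 0

/-- all relations of degree at most `k` between the entries of two matrices hold on the product of the isometry groups -/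
def GenP (k : ℕ) (J : Matrix (Fin n) (Fin n) ℚ) (J' : Matrix (Fin n') (Fin n') ℚ) (g : Matrix (Fin n) (Fin n) ℂ)
    (g' : Matrix (Fin n') (Fin n') ℂ) : Prop :=
  ∀ P : MvPolynomial ((Fin n' × Fin n') ⊕ (Fin n × Fin n)) ℚ, P.totalDegree ≤ k →
    MvPolynomial.aeval (Sum.elim (fun z : Fin n' × Fin n' => g' z.1 z.2) fun z : Fin n × Fin n => g z.1 z.2) P = 0 →
    ∀ (h' : Matrix (Fin n') (Fin n') ℂ) (h : Matrix (Fin n) (Fin n) ℂ), h'ᵀ * cq J' * h' = cq J' →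
    hᵀ * cq J * h = cq J →
    MvPolynomial.aeval (Sum.elim (fun z : Fin n' × Fin n' => h' z.1 z.2) fun z : Fin n × Fin n => h z.1 z.2) P = 0

lemma GenS.mono {k k' : ℕ} (hk : k ≤ k') {J : Matrix (Fin n) (Fin n) ℚ} {g : Matrix (Fin n) (Fin n) ℂ}
    (h : GenS k' J g) : GenS k J g := fun P hP => h P (hP.trans hk)

lemma GenP.mono {k k' : ℕ} (hk : k ≤ k') {J : Matrix (Fin n) (Fin n) ℚ} {J' : Matrix (Fin n') (Fin n') ℚ}
    {g : Matrix (Fin n) (Fin n) ℂ} {g' : Matrix (Fin n') (Fin n') ℂ}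
    (h : GenP k' J J' g g') : GenP k J J' g g' := fun P hP => h P (hP.trans hk)

lemma GenP.snd {k : ℕ} {J : Matrix (Fin n) (Fin n) ℚ} {J' : Matrix (Fin n') (Fin n') ℚ}
    {g : Matrix (Fin n) (Fin n) ℂ} {g' : Matrix (Fin n') (Fin n') ℂ} (h : GenP k J J' g g')
    (hg' : g'ᵀ * cq J' * g' = cq J') : GenS k J g := by
  intro P hP h0 a ha
  have h1 := h (MvPolynomial.rename Sum.inr P) ((MvPolynomial.totalDegree_rename_le _ _).trans hP) (by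
    rw [MvPolynomial.aeval_rename]
    exact h0) g' a hg' ha
  rw [MvPolynomial.aeval_rename] at h1
  exact h1

lemma GenP.fst {k : ℕ} {J : Matrix (Fin n) (Fin n) ℚ} {J' : Matrix (Fin n') (Fin n') ℚ}
    {g : Matrix (Fin n) (Fin n) ℂ} {g' : Matrix (Fin n') (Fin n') ℂ} (h : GenP k J J' g g')
    (hg : gᵀ * cq J * g = cq J) : GenS k J' g' := by
  intro P hP h0 a ha
  have h1 := h (MvPolynomial.rename Sum.inl P) ((MvPolynomial.totalDegree_rename_le _ _).trans hP) (by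
    rw [MvPolynomial.aeval_rename]
    exact h0) a g ha hg
  rw [MvPolynomial.aeval_rename] at h1
  exact h1

/-- a spanning family -/
lemma span_family {E : Type} [AddCommGroup E] [Module ℚ E] [Module.Finite ℚ E] {R : ℕ} (hR : Module.finrank ℚ E ≤ R)
    (V : Submodule ℚ E) : ∃ x : Fin R → E, Submodule.span ℚ (Set.range x) = V := by
  have hle : Module.finrank ℚ V ≤ R := (Submodule.finrank_le V).trans hR
  set b := Module.finBasis ℚ V with hb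
  refine ⟨fun i => if h : (i : ℕ) < Module.finrank ℚ V then (b ⟨i, h⟩ : E) else 0, ?_⟩
  apply le_antisymm
  · rw [Submodule.span_le]
    rintro _ ⟨i, rfl⟩
    show (if h : (i : ℕ) < Module.finrank ℚ V then (b ⟨i, h⟩ : E) else 0) ∈ V
    split_ifs with h
    · exact (b ⟨i, h⟩).2
    · exact V.zero_mem
  · intro v hv
    have h1 : (⟨v, hv⟩ : V) ∈ Submodule.span ℚ (Set.range b) := by
      rw [b.span_eq]
      exact Submodule.mem_top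
    have h2 : v ∈ (Submodule.span ℚ (Set.range b)).map V.subtype := ⟨_, h1, rfl⟩
    rw [Submodule.map_span] at h2
    refine Submodule.span_mono ?_ h2
    rintro _ ⟨_, ⟨i, rfl⟩, rfl⟩
    refine ⟨⟨i, lt_of_lt_of_le i.2 hle⟩, ?_⟩
    show (if h : (i : ℕ) < Module.finrank ℚ V then (b ⟨i, h⟩ : E) else 0) = _
    rw [dif_pos i.2]
    rfl

end

/-- **one block** -/
theorem single_lem {m : ℕ} (hm : 4 ≤ m) {J Δ : Matrix (Fin (2 * m)) (Fin (2 * m)) ℚ}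
    (hJ : J.det ≠ 0) (hJt : Jᵀ = -J) (hJN : (NN ℂ (2 * m))ᵀ * cq J = -(cq J * NN ℂ (2 * m))) :
    ∃ N : ℕ, ∀ (q : ℂ) (g G B Λ Φ : Matrix (Fin (2 * m)) (Fin (2 * m)) ℂ) (M A : Matrix (Fin (2 * m)) (Fin (2 * m)) ℚ)
      (κ c : ℂ), q ≠ 0 → PD J Δ q g G B Λ Φ M A κ c → GenS N J g →
      ∀ V : Submodule ℚ (Matrix (Fin (2 * m)) (Fin (2 * m)) ℚ), (∀ X ∈ V, ∀ Y ∈ V, X * Y - Y * X ∈ V) →
      Φ ∈ Submodule.span ℂ (cq '' (V : Set (Matrix (Fin (2 * m)) (Fin (2 * m)) ℚ))) →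
      ∀ X ∈ spA A, X ∈ V := by
  by_contra hcon
  push Not at hcon
  have h1 : ∀ k : ℕ, ∃ (q : ℂ) (g G B Λ Φ : Matrix (Fin (2 * m)) (Fin (2 * m)) ℂ)
      (M A : Matrix (Fin (2 * m)) (Fin (2 * m)) ℚ) (κ c : ℂ)
      (x : Fin (Module.finrank ℚ (Matrix (Fin (2 * m)) (Fin (2 * m)) ℚ)) → Matrix (Fin (2 * m)) (Fin (2 * m)) ℚ)
      (X : Matrix (Fin (2 * m)) (Fin (2 * m)) ℚ), q ≠ 0 ∧
      ID J Δ q k g G B Λ Φ M A x κ c ∧ X * A + A * Xᵀ = 0 ∧ X ∉ Submodule.span ℚ (Set.range x) := by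
    intro k
    obtain ⟨q, g, G, B, Λ, Φ, M, A, κ, c, hq, hPD, hgen, V, hV, hΦ, X, hX, hXV⟩ := hcon k
    obtain ⟨x, hx⟩ := span_family le_rfl V
    refine ⟨q, g, G, B, Λ, Φ, M, A, κ, c, x, X, hq, hPD.toID hgen ?_ ?_, hX, by rwa [hx]⟩
    · intro a b
      rw [hx]
      have hxa : ∀ a, x a ∈ V := fun a => by
        rw [← hx]
        exact Submodule.subset_span ⟨a, rfl⟩
      exact hV _ (hxa a) _ (hxa b)
    · refine (Submodule.span_le.2 ?_) hΦ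
      rintro _ ⟨Y, hY, rfl⟩
      refine cq_span ?_
      rw [hx]
      exact hY
  choose q g G B Λ Φ M A κ c x X hq hID hX hXx using h1
  obtain ⟨k, hk⟩ := ultra Pool.Agent.Y412.MT.lie1 Pool.Agent.Y961.MT.lie2 Pool.Agent.Y195.MT.lie3 Pool.Agent.Y155.MT.fin
    Pool.Agent.Y155.MT.eb Pool.Agent.Y872.MT.gen hm hq hJ hJt hJN hID hX
  exact hXx k hk

/-- pairs of rational matrices as pairs of complex matrices -/
def pq {n n' : ℕ} (z : Matrix (Fin n) (Fin n) ℚ × Matrix (Fin n') (Fin n') ℚ) :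
    Matrix (Fin n) (Fin n) ℂ × Matrix (Fin n') (Fin n') ℂ := (cq z.1, cq z.2)

/-- **two blocks of the same size** -/
theorem pair_same {m : ℕ} (hm : 4 ≤ m) {J Δ J' Δ' : Matrix (Fin (2 * m)) (Fin (2 * m)) ℚ}
    (hJ : J.det ≠ 0) (hJt : Jᵀ = -J) (hJN : (NN ℂ (2 * m))ᵀ * cq J = -(cq J * NN ℂ (2 * m)))
    (hJ' : J'.det ≠ 0) (hJt' : J'ᵀ = -J') (hJN' : (NN ℂ (2 * m))ᵀ * cq J' = -(cq J' * NN ℂ (2 * m))) :
    ∃ N : ℕ, ∀ (q : ℂ) (g G B Λ Φ : Matrix (Fin (2 * m)) (Fin (2 * m)) ℂ) (M A : Matrix (Fin (2 * m)) (Fin (2 * m)) ℚ)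
      (κ c : ℂ) (q' : ℂ) (g' G' B' Λ' Φ' : Matrix (Fin (2 * m)) (Fin (2 * m)) ℂ)
      (M' A' : Matrix (Fin (2 * m)) (Fin (2 * m)) ℚ) (κ' c' : ℂ), q ≠ 0 → q' ≠ 0 → PD J Δ q g G B Λ Φ M A κ c →
      PD J' Δ' q' g' G' B' Λ' Φ' M' A' κ' c' → GenP N J J' g g' →
      ∀ V : Submodule ℚ (Matrix (Fin (2 * m)) (Fin (2 * m)) ℚ × Matrix (Fin (2 * m)) (Fin (2 * m)) ℚ),
      (∀ u ∈ V, ∀ v ∈ V, (u.1 * v.1 - v.1 * u.1, u.2 * v.2 - v.2 * u.2) ∈ V) →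
      (Φ, Φ') ∈ Submodule.span ℂ (pq '' (V : Set (Matrix (Fin (2 * m)) (Fin (2 * m)) ℚ × Matrix (Fin (2 * m)) (Fin (2 * m)) ℚ))) →
      ∀ X ∈ spA A, (X, (0 : Matrix (Fin (2 * m)) (Fin (2 * m)) ℚ)) ∈ V := by
  by_contra hcon
  push Not at hcon
  obtain ⟨R, hR⟩ : ∃ R : ℕ, R = Module.finrank ℚ (Matrix (Fin (2 * m)) (Fin (2 * m)) ℚ × Matrix (Fin (2 * m)) (Fin (2 * m)) ℚ) :=
    ⟨_, rfl⟩
  have h1 : ∀ k : ℕ, ∃ (q : ℂ) (g G B Λ Φ : Matrix (Fin (2 * m)) (Fin (2 * m)) ℂ)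
      (M A : Matrix (Fin (2 * m)) (Fin (2 * m)) ℚ) (κ c : ℂ)
      (q' : ℂ) (g' G' B' Λ' Φ' : Matrix (Fin (2 * m)) (Fin (2 * m)) ℂ)
      (M' A' : Matrix (Fin (2 * m)) (Fin (2 * m)) ℚ) (κ' c' : ℂ)
      (x y : Fin R → Matrix (Fin (2 * m)) (Fin (2 * m)) ℚ)
      (X : Matrix (Fin (2 * m)) (Fin (2 * m)) ℚ), q ≠ 0 ∧ q' ≠ 0 ∧
      ID J Δ q k g G B Λ Φ M A x κ c ∧ ID J' Δ' q' k g' G' B' Λ' Φ' M' A' y κ' c' ∧ GenP k J J' g g' ∧
      (∀ a b, (x a * x b - x b * x a, y a * y b - y b * y a) ∈ JS x y) ∧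
      ((Φ, Φ') ∈ JS (fun a => cq (x a)) (fun a => cq (y a))) ∧
      X * A + A * Xᵀ = 0 ∧ (X, 0) ∉ JS x y := by
    intro k
    obtain ⟨q, g, G, B, Λ, Φ, M, A, κ, c, q', g', G', B', Λ', Φ', M', A', κ', c', hq, hq', hPD, hPD', hgen, V, hV, hΦ,
      X, hX, hXV⟩ := hcon k
    obtain ⟨z, hz⟩ := span_family hR.ge V
    have hJS : ∀ X Y, (X, Y) ∈ JS (fun a => (z a).1) (fun a => (z a).2) ↔ (X, Y) ∈ V := by
      intro X Y
      rw [mem_JS, ← hz, Submodule.mem_span_range_iff_exists_fun]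
      constructor
      · rintro ⟨d, h1, h2⟩
        refine ⟨d, ?_⟩
        refine Prod.ext ?_ ?_
        · rw [Prod.fst_sum]
          exact h1
        · rw [Prod.snd_sum]
          exact h2
      · rintro ⟨d, hd⟩
        refine ⟨d, ?_, ?_⟩
        · have h3 := congrArg Prod.fst hd
          rw [Prod.fst_sum] at h3
          exact h3
        · have h3 := congrArg Prod.snd hd
          rw [Prod.snd_sum] at h3
          exact h3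
    have hza : ∀ a, z a ∈ V := fun a => by
      rw [← hz]
      exact Submodule.subset_span ⟨a, rfl⟩
    have hbr : ∀ a b, ((z a).1 * (z b).1 - (z b).1 * (z a).1, (z a).2 * (z b).2 - (z b).2 * (z a).2) ∈
        JS (fun a => (z a).1) (fun a => (z a).2) := fun a b => (hJS _ _).2 (hV _ (hza a) _ (hza b))
    have hΦJ : (Φ, Φ') ∈ JS (fun a => cq (z a).1) (fun a => cq (z a).2) := by
      refine (Submodule.span_le.2 ?_) hΦ
      rintro _ ⟨Y, hY, rfl⟩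
      exact cq_JS ((hJS Y.1 Y.2).2 hY)
    refine ⟨q, g, G, B, Λ, Φ, M, A, κ, c, q', g', G', B', Λ', Φ', M', A', κ', c', fun a => (z a).1, fun a => (z a).2, X,
      hq, hq', hPD.toID (hgen.snd hPD'.gJ) ?_ ?_, hPD'.toID (hgen.fst hPD.gJ) ?_ ?_, hgen, hbr, hΦJ, hX, ?_⟩
    · intro a b
      obtain ⟨d, h1, -⟩ := mem_JS.1 (hbr a b)
      rw [Submodule.mem_span_range_iff_exists_fun]
      exact ⟨d, h1⟩
    · obtain ⟨d, h1, -⟩ := mem_JS.1 hΦJ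
      rw [Submodule.mem_span_range_iff_exists_fun]
      exact ⟨d, h1⟩
    · intro a b
      obtain ⟨d, -, h1⟩ := mem_JS.1 (hbr a b)
      rw [Submodule.mem_span_range_iff_exists_fun]
      exact ⟨d, h1⟩
    · obtain ⟨d, -, h1⟩ := mem_JS.1 hΦJ
      rw [Submodule.mem_span_range_iff_exists_fun]
      exact ⟨d, h1⟩
    · rw [hJS]
      exact hXV
  choose q g G B Λ Φ M A κ c q' g' G' B' Λ' Φ' M' A' κ' c' x y X hq hq' hID hID' hgen hbr hΦ hX hXx using h1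
  obtain ⟨k, hk⟩ := ultra_free Pool.Agent.Y412.MT.lie1 Pool.Agent.Y961.MT.lie2 Pool.Agent.Y195.MT.lie3 Pool.Agent.Y155.MT.fin
    Pool.Agent.Y155.MT.eb Pool.Agent.Y872.MT.gen hm hq hq' hJ hJt hJN hJ' hJt' hJN' hID hID'
    (fun k P hP h0 h hh => hgen k P hP h0 (g' k) h (hID' k).gJ hh) hbr hΦ hX
  exact hXx k hk

/-- **two blocks** -/
theorem pair_lem {m m' : ℕ} (hm : 4 ≤ m) (hm' : 4 ≤ m') {J Δ : Matrix (Fin (2 * m)) (Fin (2 * m)) ℚ}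
    {J' Δ' : Matrix (Fin (2 * m')) (Fin (2 * m')) ℚ}
    (hJ : J.det ≠ 0) (hJt : Jᵀ = -J) (hJN : (NN ℂ (2 * m))ᵀ * cq J = -(cq J * NN ℂ (2 * m)))
    (hJ' : J'.det ≠ 0) (hJt' : J'ᵀ = -J') (hJN' : (NN ℂ (2 * m'))ᵀ * cq J' = -(cq J' * NN ℂ (2 * m'))) :
    ∃ N : ℕ, ∀ (q : ℂ) (g G B Λ Φ : Matrix (Fin (2 * m)) (Fin (2 * m)) ℂ) (M A : Matrix (Fin (2 * m)) (Fin (2 * m)) ℚ)
      (κ c : ℂ) (q' : ℂ) (g' G' B' Λ' Φ' : Matrix (Fin (2 * m')) (Fin (2 * m')) ℂ)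
      (M' A' : Matrix (Fin (2 * m')) (Fin (2 * m')) ℚ) (κ' c' : ℂ), q ≠ 0 → q' ≠ 0 → PD J Δ q g G B Λ Φ M A κ c →
      PD J' Δ' q' g' G' B' Λ' Φ' M' A' κ' c' → GenP N J J' g g' →
      ∀ V : Submodule ℚ (Matrix (Fin (2 * m)) (Fin (2 * m)) ℚ × Matrix (Fin (2 * m')) (Fin (2 * m')) ℚ),
      (∀ u ∈ V, ∀ v ∈ V, (u.1 * v.1 - v.1 * u.1, u.2 * v.2 - v.2 * u.2) ∈ V) →
      (Φ, Φ') ∈ Submodule.span ℂ (pq '' (V : Set (Matrix (Fin (2 * m)) (Fin (2 * m)) ℚ × Matrix (Fin (2 * m')) (Fin (2 * m')) ℚ))) →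
      (∀ z ∈ V, ∃ t : ℚ, z.1 * A + A * z.1ᵀ = t • A) → (∀ z ∈ V, ∃ t : ℚ, z.2 * A' + A' * z.2ᵀ = t • A') →
      ∀ X ∈ spA A, (X, (0 : Matrix (Fin (2 * m')) (Fin (2 * m')) ℚ)) ∈ V := by
  by_cases h : m = m'
  · subst h
    obtain ⟨N, hN⟩ := pair_same hm (Δ := Δ) (Δ' := Δ') hJ hJt hJN hJ' hJt' hJN'
    exact ⟨N, fun q g G B Λ Φ M A κ c q' g' G' B' Λ' Φ' M' A' κ' c' hq hq' hPD hPD' hgen V hV hΦ _ _ =>
      hN q g G B Λ Φ M A κ c q' g' G' B' Λ' Φ' M' A' κ' c' hq hq' hPD hPD' hgen V hV hΦ⟩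
  · obtain ⟨N₁, hN₁⟩ := single_lem hm (Δ := Δ) hJ hJt hJN
    obtain ⟨N₂, hN₂⟩ := single_lem hm' (Δ := Δ') hJ' hJt' hJN'
    refine ⟨max N₁ N₂, fun q g G B Λ Φ M A κ c q' g' G' B' Λ' Φ' M' A' κ' c' hq hq' hPD hPD' hgen V hV hΦ hg1 hg2 X hX => ?_⟩
    refine pair_diff (by omega) hPD.Askew hPD.Adet hPD'.Askew hPD'.Adet hV ?_ ?_ hg1 hg2 hX
    · intro Z hZ
      have h1 := hN₁ q g G B Λ Φ M A κ c hq hPD ((hgen.snd hPD'.gJ).mono (le_max_left _ _))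
        (V.map (LinearMap.fst ℚ _ _)) (by
          rintro _ ⟨u, hu, rfl⟩ _ ⟨v, hv, rfl⟩
          exact ⟨_, hV u hu v hv, rfl⟩) (by
          have h2 : Φ ∈ (Submodule.span ℂ (pq '' (V : Set (Matrix (Fin (2 * m)) (Fin (2 * m)) ℚ ×
            Matrix (Fin (2 * m')) (Fin (2 * m')) ℚ)))).map (LinearMap.fst ℂ _ _) := ⟨_, hΦ, rfl⟩
          rw [Submodule.map_span] at h2
          refine Submodule.span_mono ?_ h2
          rintro _ ⟨_, ⟨z, hz, rfl⟩, rfl⟩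
          exact ⟨z.1, ⟨z, hz, rfl⟩, rfl⟩) Z hZ
      obtain ⟨⟨a, b⟩, hab, rfl⟩ := h1
      exact ⟨b, hab⟩
    · intro Z hZ
      have h1 := hN₂ q' g' G' B' Λ' Φ' M' A' κ' c' hq' hPD' ((hgen.fst hPD.gJ).mono (le_max_right _ _))
        (V.map (LinearMap.snd ℚ _ _)) (by
          rintro _ ⟨u, hu, rfl⟩ _ ⟨v, hv, rfl⟩
          exact ⟨_, hV u hu v hv, rfl⟩) (by
          have h2 : Φ' ∈ (Submodule.span ℂ (pq '' (V : Set (Matrix (Fin (2 * m)) (Fin (2 * m)) ℚ ×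
            Matrix (Fin (2 * m')) (Fin (2 * m')) ℚ)))).map (LinearMap.snd ℂ _ _) := ⟨_, hΦ, rfl⟩
          rw [Submodule.map_span] at h2
          refine Submodule.span_mono ?_ h2
          rintro _ ⟨_, ⟨z, hz, rfl⟩, rfl⟩
          exact ⟨z.2, ⟨z, hz, rfl⟩, rfl⟩) Z hZ
      obtain ⟨⟨a, b⟩, hab, rfl⟩ := h1
      exact ⟨a, hab⟩

end Pool.Agent.W2helper4.MJ
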