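import Pool.Agent.W2helper4.MJ.Abs
import Pool.Agent.Y916.Sl.Many

/-!
# Few exceptional tuples of algebraic integers
-/

set_option autoImplicit false
set_option maxHeartbeats 4000000

open Matrix PowerSeries Pool.Agent.Y113

namespace Pool.Agent.W2helper4.MJ

open Pool.Agent.Y119.HY (cm E Hf Yf Hc Am Jm Bm QB QD Sol Ac_nil Jc_rel Jc_skew Jc_det sol_c Gal map_C_eval)
open Pool.Agent.Y119.HZ
open Pool.Agent.W2helper4.HJ
open Pool.Agent.Y916.Al (Ht evc)
open Pool.Agent.Y916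

section
variable {r : ℕ} {m : Fin r → ℕ}

/-- the points with given logarithms -/
def Ypt {n : ℕ} (G : Submonoid (Matrix (Fin n) (Fin n) ℂ)) (k : ℕ) (ℓ : Fin k → ℂ) : Set (Fin k × Option (Fin (n * n)) → ℂ) :=
  {y | (∀ j, y (j, none) = ℓ j) ∧ (fun a : Fin k × Fin (n * n) => y (a.1, some a.2)) ∈ Gpt G k}

/-- the substitution of the logarithms -/
noncomputable def sbl {n k : ℕ} (ℓ : Fin k → ℂ) (a : Fin k × Option (Fin (n * n))) : MvPolynomial (Fin k × Fin (n * n)) ℂ :=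
  a.2.elim (MvPolynomial.C (ℓ a.1)) fun i => MvPolynomial.X (a.1, i)

theorem Ypt_irr {n : ℕ} {G : Submonoid (Matrix (Fin n) (Fin n) ℂ)} (hG : PG G) (k : ℕ) (ℓ : Fin k → ℂ) :
    Pool.Agent.Y118.UL.Irr (Ypt G k ℓ) := by
  intro P Q h
  have key : ∀ (R : MvPolynomial (Fin k × Option (Fin (n * n))) ℂ) (y' : Fin k × Fin (n * n) → ℂ),
      MvPolynomial.eval y' (MvPolynomial.aeval (sbl ℓ) R) =
      MvPolynomial.eval (fun a : Fin k × Option (Fin (n * n)) => a.2.elim (ℓ a.1) fun i => y' (a.1, i)) R := by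
    intro R y'
    have h3 : (MvPolynomial.aeval y' : MvPolynomial (Fin k × Fin (n * n)) ℂ →ₐ[ℂ] ℂ).comp
        (MvPolynomial.aeval (sbl (n := n) ℓ)) =
        MvPolynomial.aeval (fun a : Fin k × Option (Fin (n * n)) => a.2.elim (ℓ a.1) fun i => y' (a.1, i)) := by
      refine MvPolynomial.algHom_ext fun a => ?_
      rw [AlgHom.comp_apply, MvPolynomial.aeval_X, MvPolynomial.aeval_X]
      obtain ⟨j, _ | i⟩ := a
      · show MvPolynomial.aeval y' (MvPolynomial.C (ℓ j)) = ℓ j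
        rw [MvPolynomial.aeval_C]
        rfl
      · show MvPolynomial.aeval y' (MvPolynomial.X (j, i)) = y' (j, i)
        rw [MvPolynomial.aeval_X]
    exact DFunLike.congr_fun h3 R
  have hmem : ∀ y' ∈ Gpt G k, (fun a : Fin k × Option (Fin (n * n)) => a.2.elim (ℓ a.1) fun i => y' (a.1, i)) ∈ Ypt G k ℓ :=
    fun y' hy' => ⟨fun j => rfl, hy'⟩
  have hback : ∀ y ∈ Ypt G k ℓ, y = fun a : Fin k × Option (Fin (n * n)) => a.2.elim (ℓ a.1)
      fun i => (fun a : Fin k × Fin (n * n) => y (a.1, some a.2)) (a.1, i) := by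
    rintro y ⟨h1, h2⟩
    funext a
    obtain ⟨j, _ | i⟩ := a
    · exact h1 j
    · rfl
  rcases Gpt_irr hG k (MvPolynomial.aeval (sbl ℓ) P) (MvPolynomial.aeval (sbl ℓ) Q) (fun y' hy' => by
    rw [key, key]
    exact h _ (hmem y' hy')) with h1 | h1
  · left
    intro y hy
    rw [hback y hy]
    exact (key P (fun a => y (a.1, some a.2))).symm.trans (h1 _ hy.2)
  · right
    intro y hy
    rw [hback y hy]
    exact (key Q (fun a => y (a.1, some a.2))).symm.trans (h1 _ hy.2)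

/-- **Few exceptional tuples.** -/
theorem fam_tup (β : ∀ i, Fin (m i) → ℚ) (hm : ∀ i, 1 ≤ m i) (hβ : ∀ i j, ∀ a : ℤ, β i j ≠ a)
    (hne : ∀ i k, i ≠ k → ¬ Eqv (β i) (β k)) (k g N : ℕ) (hg : 1 ≤ g) :
    ∃ c : ℝ, 0 < c ∧ ∃ K : ℝ, 0 ≤ K ∧ ∀ T : ℕ, 1 ≤ T →
      {α : Fin k → ℂ | (∀ j, Sl.SInt g T (α j)) ∧ (∀ j, 1 < ‖α j‖) ∧ ¬ GenAll β N (fun j => 1 / α j)}.Finite ∧
      ({α : Fin k → ℂ | (∀ j, Sl.SInt g T (α j)) ∧ (∀ j, 1 < ‖α j‖) ∧ ¬ GenAll β N (fun j => 1 / α j)}.ncard : ℝ) ≤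
        K * (T : ℝ) ^ (-c) * ({ξ : ℂ | Sl.SInt g T ξ}.ncard : ℝ) ^ k := by
  classical
  obtain ⟨D0, b, hD0, hb⟩ := exists_bb β
  have hU := us_HH β hm hβ hD0 hb
  have hGD := gd_HH β hm hβ hne
  have hPG := pg_GS β hm hβ
  have hN : cm (rm (NZ m)) ^ (∑ i, 2 * m i) = 0 := cm_nil hU
  set n := ∑ i, 2 * m i with hn
  obtain ⟨δ₁, c, hc, C, hC, hmain⟩ := Af.tupDs (Af.nrh_of_gfs (gfs_hg hU)) (gfs_hg hU).hsize k g N 1 1
  obtain ⟨c₁, hc₁, hmany⟩ := Sl.many g hg
  refine ⟨c, hc, C / c₁ ^ k, by positivity, fun T hT => ?_⟩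
  obtain ⟨hfin, hcard⟩ := hmain (Submodule.span ℚ {(1 : ℂ)}) inferInstance
    (by rw [finrank_span_singleton one_ne_zero]) T hT
  have hsub : {α : Fin k → ℂ | (∀ j, Sl.SInt g T (α j)) ∧ (∀ j, 1 < ‖α j‖) ∧ ¬ GenAll β N (fun j => 1 / α j)} ⊆
      {α : Fin k → ℂ | (∀ i, Sl.AInt g T (α i)) ∧ Af.ExcD δ₁ (HJ.hg (HH β)) N 1 (Submodule.span ℚ {(1 : ℂ)}) α} := by
    rintro α ⟨h1, h2, h3⟩
    refine ⟨fun j => Sl.SInt.aint (h1 j), ?_⟩
    unfold GenAll at h3
    push Not at h3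
    obtain ⟨P, hP, hP0, γ, hγ, hPγ⟩ := h3
    have hα0 : ∀ j, α j ≠ 0 := by
      intro j h0
      have := h2 j
      rw [h0, norm_zero] at this
      linarith
    have hz : ∀ j, ‖1 / α j‖ < 1 := by
      intro j
      rw [norm_div, norm_one, div_lt_one (by have := h2 j; linarith)]
      exact h2 j
    set f : Vs m k → Fin k × Option (Fin (n * n)) := fun x =>
      (x.1, some ((ix n).symm (finSigmaFinEquiv ⟨x.2.1, x.2.2.1⟩, finSigmaFinEquiv ⟨x.2.1, x.2.2.2⟩))) with hf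
    have hval : ∀ (γ' : Fin k → ∀ i, Matrix (Fin (2 * m i)) (Fin (2 * m i)) ℂ) (ℓ : Fin k → ℂ),
        MvPolynomial.aeval (fun a : Fin k × Option (Fin (n * n)) => a.2.elim (ℓ a.1)
          fun i => bd (γ' a.1) (ix n i).1 (ix n i).2)
        (MvPolynomial.map (algebraMap ℚ ℂ) (MvPolynomial.rename f P)) =
        MvPolynomial.aeval (fun x : Vs m k => γ' x.1 x.2.1 x.2.2.1 x.2.2.2) P := by
      intro γ' ℓ
      rw [MvPolynomial.aeval_map_algebraMap, MvPolynomial.aeval_rename]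
      refine congrArg (fun z => MvPolynomial.aeval z P) (funext fun x => ?_)
      show bd (γ' x.1) (ix n ((ix n).symm _)).1 (ix n ((ix n).symm _)).2 = _
      rw [Equiv.apply_symm_apply]
      exact bd_same (γ' x.1) x.2.1 x.2.2.1 x.2.2.2
    refine ⟨fun j => Complex.log (α j), fun j => Complex.exp_log (hα0 j), Ypt (GS β) k fun j => Complex.log (α j),
      Af.irrD_of_irr (Ypt_irr hPG k _) _, ?_, ?_, ⊥, inferInstance, by rw [IntermediateField.finrank_bot],
      MvPolynomial.map (algebraMap ℚ ℂ) (MvPolynomial.rename f P), ?_, ?_, ?_, ?_⟩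
    · refine ⟨fun j => rfl, fun j => Hf (Hcc (HH β)) (1 / α j), fun j => val_GS β hm hβ (hz j), ?_⟩
      funext a
      exact evc_hg _ _
    · rintro y ⟨-, γ', hγ', hy⟩ j
      have h4 : (fun i => y (j, some i)) = fun i => γ' j (ix n i).1 (ix n i).2 := by
        funext i
        exact congrFun hy (j, i)
      rw [h4]
      exact mem_Vg hN hGD hPG (hz j) (val_GS β hm hβ (hz j)) (hγ' j)
    · exact (Finset.sup_mono (MvPolynomial.support_map_subset _ _)).trans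
        ((MvPolynomial.totalDegree_rename_le _ _).trans hP)
    · intro s
      rw [MvPolynomial.coeff_map]
      have h4 : (algebraMap ℚ ℂ) (MvPolynomial.coeff s (MvPolynomial.rename f P)) =
          (MvPolynomial.coeff s (MvPolynomial.rename f P)) • (1 : ℂ) := by
        rw [Algebra.smul_def, mul_one]
      rw [h4]
      exact Submodule.subset_span (Submodule.smul_mem _ _ (Submodule.subset_span rfl))
    · have h4 := hval (fun j i => Hf (Hc (2 * m i) (QB (β i))) (1 / α j)) (fun j => Complex.log (α j))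
      have h5 : (Af.ptc (HJ.hg (HH β)) α fun j => Complex.log (α j)) =
          fun a : Fin k × Option (Fin (n * n)) => a.2.elim (Complex.log (α a.1))
          fun i => bd (fun i => Hf (Hc (2 * m i) (QB (β i))) (1 / α a.1)) (ix n i).1 (ix n i).2 := by
        funext a
        obtain ⟨j, _ | i⟩ := a
        · rfl
        · show evc (1 / α j) (HJ.hg (HH β) i) = _
          rw [evc_hg, Hf_HH]
          rfl
      rw [h5, h4]
      exact hP0
    · refine ⟨fun a : Fin k × Option (Fin (n * n)) => a.2.elim (Complex.log (α a.1))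
          fun i => bd (γ a.1) (ix n i).1 (ix n i).2, ⟨fun j => rfl, fun j => bd (γ j), fun j => mem_GS (hγ j), rfl⟩, ?_⟩
      rw [hval γ (fun j => Complex.log (α j))]
      exact hPγ
  refine ⟨hfin.subset hsub, ?_⟩
  have h1 := Set.ncard_le_ncard hsub hfin
  refine (by exact_mod_cast h1 : ({α : Fin k → ℂ | (∀ j, Sl.SInt g T (α j)) ∧ (∀ j, 1 < ‖α j‖) ∧
    ¬ GenAll β N (fun j => 1 / α j)}.ncard : ℝ) ≤ _).trans (hcard.trans ?_)
  exact Sl.prop_bound hc₁ hC hT (hmany T hT)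

end

end Pool.Agent.W2helper4.MJ
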