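import Pool.Agent.W2helper4.MJ.Asm

/-!
# Mumford–Tate Lie algebras of sums of fibres of several families at neighbouring algebraic points
-/

set_option autoImplicit false
set_option maxHeartbeats 1000000

open Matrix Pool.Agent.Y113.MT

namespace Pool.Agent.W2helper4.MJ

open Pool.Agent.Y119.HY Pool.Agent.Y119.HZ Pool.Agent.Y118.CM
open Pool.Agent.Y119.HA (Flx)
open Pool.Agent.W2helper4.HJ (JJ Eqv not_int)
open Pool.Agent.Y916.Al (Ht)

/-- tuples of infinitesimal similitudes -/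
def gspT {s : ℕ} {n : Fin s → ℕ} (A : ∀ a, Matrix (Fin (n a)) (Fin (n a)) ℚ) :
    Submodule ℚ (∀ a, Matrix (Fin (n a)) (Fin (n a)) ℚ) where
  carrier := {X | ∀ a, ∃ t : ℚ, X a * A a + A a * (X a)ᵀ = t • A a}
  add_mem' := by
    intro X Y hX hY a
    obtain ⟨t, ht⟩ := hX a
    obtain ⟨t', ht'⟩ := hY a
    refine ⟨t + t', ?_⟩
    rw [add_smul, ← ht, ← ht', Pi.add_apply, transpose_add, Matrix.add_mul, Matrix.mul_add]
    abel
  zero_mem' := by
    intro a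
    refine ⟨0, ?_⟩
    rw [Pi.zero_apply, transpose_zero, Matrix.zero_mul, Matrix.mul_zero, add_zero, zero_smul]
  smul_mem' := by
    intro c X hX a
    obtain ⟨t, ht⟩ := hX a
    refine ⟨c * t, ?_⟩
    rw [Pi.smul_apply, transpose_smul, Matrix.smul_mul, Matrix.mul_smul, ← smul_add, ht, smul_smul]

section
variable {r : ℕ} {m : Fin r → ℕ} {β : ∀ i, Fin (m i) → ℚ}

lemma upd_ok {i0 : Fin r} {h : Matrix (Fin (2 * m i0)) (Fin (2 * m i0)) ℂ} (hh : hᵀ * JJ (β i0) * h = JJ (β i0))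
    {f : ∀ i, Matrix (Fin (2 * m i)) (Fin (2 * m i)) ℂ} (hf : ∀ i, (f i)ᵀ * JJ (β i) * f i = JJ (β i)) (i : Fin r) :
    (Function.update f i0 h i)ᵀ * JJ (β i) * Function.update f i0 h i = JJ (β i) := by
  by_cases hi : i = i0
  · subst hi
    rw [Function.update_self]
    exact hh
  · rw [Function.update_of_ne hi]
    exact hf i

lemma one_ok (i : Fin r) : (1 : Matrix (Fin (2 * m i)) (Fin (2 * m i)) ℂ)ᵀ * JJ (β i) * 1 = JJ (β i) := by
  rw [transpose_one, Matrix.one_mul, Matrix.mul_one]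

/-- the identity -/
def oT (m : Fin r → ℕ) : ∀ i, Matrix (Fin (2 * m i)) (Fin (2 * m i)) ℂ := fun _ => 1

/-- the variables -/
abbrev Vs (m : Fin r → ℕ) (k : ℕ) : Type := Fin k × (Σ i, Fin (2 * m i) × Fin (2 * m i))

/-- relations over the rational numbers -/
lemma rat_of {k N : ℕ} {z : Fin k → ℂ}
    (h : ∀ K : IntermediateField ℚ ℂ, FiniteDimensional ℚ K → Module.finrank ℚ K ≤ 1 →
    ∀ P : MvPolynomial (Vs m k) K, P.totalDegree ≤ N →
    MvPolynomial.aeval (fun x : Vs m k => Hf (Hc (2 * m x.2.1) (QB (β x.2.1))) (z x.1) x.2.2.1 x.2.2.2) P = 0 →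
    ∀ γ : Fin k → ∀ i, Matrix (Fin (2 * m i)) (Fin (2 * m i)) ℂ, (∀ j i, (γ j i)ᵀ * JJ (β i) * γ j i = JJ (β i)) →
    MvPolynomial.aeval (fun x : Vs m k => γ x.1 x.2.1 x.2.2.1 x.2.2.2) P = 0)
    {ι : Type} (f : ι → Vs m k) (P : MvPolynomial ι ℚ) (hP : P.totalDegree ≤ N)
    (h0 : MvPolynomial.aeval (fun x => Hf (Hc (2 * m (f x).2.1) (QB (β (f x).2.1))) (z (f x).1) (f x).2.2.1 (f x).2.2.2) P = 0)
    (γ : Fin k → ∀ i, Matrix (Fin (2 * m i)) (Fin (2 * m i)) ℂ) (hγ : ∀ j i, (γ j i)ᵀ * JJ (β i) * γ j i = JJ (β i)) :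
    MvPolynomial.aeval (fun x => γ (f x).1 (f x).2.1 (f x).2.2.1 (f x).2.2.2) P = 0 := by
  have h1 := h ⊥ inferInstance (by rw [IntermediateField.finrank_bot])
    (MvPolynomial.map (algebraMap ℚ (⊥ : IntermediateField ℚ ℂ)) (MvPolynomial.rename f P))
    ((Finset.sup_mono (MvPolynomial.support_map_subset _ _)).trans ((MvPolynomial.totalDegree_rename_le _ _).trans hP)) (by
      rw [MvPolynomial.aeval_map_algebraMap, MvPolynomial.aeval_rename]
      exact h0) γ hγ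
  rw [MvPolynomial.aeval_map_algebraMap, MvPolynomial.aeval_rename] at h1
  exact h1

/-- one block -/
lemma gens_of {N : ℕ} {z : ℂ}
    (h : ∀ K : IntermediateField ℚ ℂ, FiniteDimensional ℚ K → Module.finrank ℚ K ≤ 1 →
    ∀ P : MvPolynomial (Vs m 1) K, P.totalDegree ≤ N →
    MvPolynomial.aeval (fun x : Vs m 1 => Hf (Hc (2 * m x.2.1) (QB (β x.2.1))) z x.2.2.1 x.2.2.2) P = 0 →
    ∀ γ : Fin 1 → ∀ i, Matrix (Fin (2 * m i)) (Fin (2 * m i)) ℂ, (∀ j i, (γ j i)ᵀ * JJ (β i) * γ j i = JJ (β i)) →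
    MvPolynomial.aeval (fun x : Vs m 1 => γ x.1 x.2.1 x.2.2.1 x.2.2.2) P = 0) (i : Fin r) :
    GenS N (Jm (2 * m i) (QB (β i))) (Hf (Hc (2 * m i) (QB (β i))) z) := by
  intro P hP h0 g hg
  have h1 := rat_of (z := fun _ => z) h (fun x : Fin (2 * m i) × Fin (2 * m i) => ((0 : Fin 1), (⟨i, x⟩ : Σ i, Fin (2 * m i) × Fin (2 * m i))))
    P hP h0 (fun _ => Function.update (oT m) i g) (fun _ => upd_ok hg one_ok)
  rw [← h1]
  refine congrArg (fun z => MvPolynomial.aeval z P) (funext fun x => ?_)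
  show g x.1 x.2 = Function.update (oT m) i g i x.1 x.2
  rw [Function.update_self]

/-- two blocks at the same point -/
lemma genp_same {N : ℕ} {z : ℂ}
    (h : ∀ K : IntermediateField ℚ ℂ, FiniteDimensional ℚ K → Module.finrank ℚ K ≤ 1 →
    ∀ P : MvPolynomial (Vs m 1) K, P.totalDegree ≤ N →
    MvPolynomial.aeval (fun x : Vs m 1 => Hf (Hc (2 * m x.2.1) (QB (β x.2.1))) z x.2.2.1 x.2.2.2) P = 0 →
    ∀ γ : Fin 1 → ∀ i, Matrix (Fin (2 * m i)) (Fin (2 * m i)) ℂ, (∀ j i, (γ j i)ᵀ * JJ (β i) * γ j i = JJ (β i)) →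
    MvPolynomial.aeval (fun x : Vs m 1 => γ x.1 x.2.1 x.2.2.1 x.2.2.2) P = 0) {i j : Fin r} (hij : i ≠ j) :
    GenP N (Jm (2 * m i) (QB (β i))) (Jm (2 * m j) (QB (β j))) (Hf (Hc (2 * m i) (QB (β i))) z)
      (Hf (Hc (2 * m j) (QB (β j))) z) := by
  intro P hP h0 g' g hg' hg
  have h1 := rat_of (z := fun _ => z) h (Sum.elim
    (fun x : Fin (2 * m j) × Fin (2 * m j) => ((0 : Fin 1), (⟨j, x⟩ : Σ i, Fin (2 * m i) × Fin (2 * m i))))
    (fun x : Fin (2 * m i) × Fin (2 * m i) => ((0 : Fin 1), (⟨i, x⟩ : Σ i, Fin (2 * m i) × Fin (2 * m i)))))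
    P hP (by
      rw [← h0]
      refine congrArg (fun z => MvPolynomial.aeval z P) (funext fun x => ?_)
      rcases x with x | x <;> rfl)
    (fun _ => Function.update (Function.update (oT m) i g) j g') (fun _ => upd_ok hg' (upd_ok hg one_ok))
  rw [← h1]
  refine congrArg (fun z => MvPolynomial.aeval z P) (funext fun x => ?_)
  rcases x with x | x
  · show g' x.1 x.2 = Function.update (Function.update (oT m) i g) j g' j x.1 x.2
    rw [Function.update_self]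
  · show g x.1 x.2 = Function.update (Function.update (oT m) i g) j g' i x.1 x.2
    rw [Function.update_of_ne hij, Function.update_self]

/-- two blocks at different points -/
lemma genp_diff {N : ℕ} {z z' : ℂ}
    (h : ∀ K : IntermediateField ℚ ℂ, FiniteDimensional ℚ K → Module.finrank ℚ K ≤ 1 →
    ∀ P : MvPolynomial (Vs m 2) K, P.totalDegree ≤ N →
    MvPolynomial.aeval (fun x : Vs m 2 => Hf (Hc (2 * m x.2.1) (QB (β x.2.1))) ((![z, z'] : Fin 2 → ℂ) x.1) x.2.2.1 x.2.2.2)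
      P = 0 →
    ∀ γ : Fin 2 → ∀ i, Matrix (Fin (2 * m i)) (Fin (2 * m i)) ℂ, (∀ j i, (γ j i)ᵀ * JJ (β i) * γ j i = JJ (β i)) →
    MvPolynomial.aeval (fun x : Vs m 2 => γ x.1 x.2.1 x.2.2.1 x.2.2.2) P = 0) (i j : Fin r) :
    GenP N (Jm (2 * m i) (QB (β i))) (Jm (2 * m j) (QB (β j))) (Hf (Hc (2 * m i) (QB (β i))) z)
      (Hf (Hc (2 * m j) (QB (β j))) z') := by
  intro P hP h0 g' g hg' hg
  have h1 := rat_of (z := ![z, z']) h (Sum.elim
    (fun x : Fin (2 * m j) × Fin (2 * m j) => ((1 : Fin 2), (⟨j, x⟩ : Σ i, Fin (2 * m i) × Fin (2 * m i))))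
    (fun x : Fin (2 * m i) × Fin (2 * m i) => ((0 : Fin 2), (⟨i, x⟩ : Σ i, Fin (2 * m i) × Fin (2 * m i)))))
    P hP (by
      rw [← h0]
      refine congrArg (fun z => MvPolynomial.aeval z P) (funext fun x => ?_)
      rcases x with x | x <;> rfl)
    (fun k => if k = 0 then Function.update (oT m) i g else Function.update (oT m) j g') (fun k => by
      by_cases hk : k = 0
      · simp only [if_pos hk]
        exact upd_ok hg one_ok
      · simp only [if_neg hk]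
        exact upd_ok hg' one_ok)
  rw [← h1]
  refine congrArg (fun z => MvPolynomial.aeval z P) (funext fun x => ?_)
  rcases x with x | x
  · show g' x.1 x.2 = (if (1 : Fin 2) = 0 then Function.update (oT m) i g else Function.update (oT m) j g') j x.1 x.2
    rw [if_neg (by decide), Function.update_self]
  · show g x.1 x.2 = (if (0 : Fin 2) = 0 then Function.update (oT m) i g else Function.update (oT m) j g') i x.1 x.2
    rw [if_pos rfl, Function.update_self]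

end

/-- **The Hodge structures at neighbouring algebraic points of several families are jointly Hodge generic.** -/
theorem mt_many {r : ℕ} {m : Fin r → ℕ} (hm : ∀ i, 4 ≤ m i) (β : ∀ i, Fin (m i) → ℚ) (hβ : ∀ i j, ∀ a : ℤ, β i j ≠ a)
    (hne : ∀ i k, i ≠ k → ¬ Eqv (β i) (β k)) :
    ∃ G0 : ℕ, 1 ≤ G0 ∧ ∀ g : ℕ, G0 ≤ g → ∀ g₀ A₀ : ℕ, ∃ Ex : ℕ, ∀ (b : ℕ) (ξ : ℂ), ((b : ℝ) + 2) ^ Ex ≤ ‖ξ‖ → Ht g₀ A₀ ξ →
    (g * b : ℝ) + 1 < ‖ξ‖ ∧
    ∀ (s : ℕ) (c : Fin s → Fin r) (u : Fin s → ℕ), (∀ a, 1 ≤ u a ∧ u a ≤ b) → (∀ a a', a ≠ a' → c a = c a' → u a ≠ u a') →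
    ∀ (l : Fin s → ℂ) (C : ∀ a, Matrix (Fin (2 * m (c a))) (Fin (2 * m (c a))) ℂ)
      (M A : ∀ a, Matrix (Fin (2 * m (c a))) (Fin (2 * m (c a))) ℚ) (q κ : Fin s → ℂ), (∀ a, (C a).det ≠ 0) →
    (∀ a, q a ≠ 0) → (∀ a, C a * cq (M a) = q a • (NN ℂ (2 * m (c a)) * C a)) → (∀ a, κ a ≠ 0) →
    (∀ a, C a * cq (A a) * (C a)ᵀ = κ a • SS ℂ (2 * m (c a))) →
    ∀ (Fil H : ∀ a, ℕ → Submodule ℂ (Fin (2 * m (c a)) → ℂ)),
    (∀ a p, m (c a) ≤ p → Fil a p = Flx (β (c a)) (ξ - ((g * u a : ℕ) : ℂ)) (l a) (C a) p) →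
    (∀ a, Polarised (Fil a) (A a) (H a)) →
    ∀ V : Submodule ℚ (∀ a, Matrix (Fin (2 * m (c a))) (Fin (2 * m (c a))) ℚ),
    (∀ X ∈ V, ∀ Y ∈ V, (fun a => X a * Y a - Y a * X a) ∈ V) →
    (∀ Φ : ∀ a, Matrix (Fin (2 * m (c a))) (Fin (2 * m (c a))) ℂ,
      (∀ a, ∀ p < 2 * m (c a), ∀ v ∈ H a p, v ᵥ* Φ a = (p : ℂ) • v) →
      Φ ∈ Submodule.span ℂ (tq '' (V : Set (∀ a, Matrix (Fin (2 * m (c a))) (Fin (2 * m (c a))) ℚ)))) →
    ∀ X : ∀ a, Matrix (Fin (2 * m (c a))) (Fin (2 * m (c a))) ℚ, (∀ a, X a * A a + A a * (X a)ᵀ = 0) → X ∈ V := by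
  classical
  have hm1 : ∀ i, 1 ≤ m i := fun i => by have := hm i; omega
  have hQ : ∀ i, QD (2 * m i) (QB (β i)) := fun i => QD_QB (hm1 i) (not_int (hβ i))
  have hJr : ∀ i, (NN ℂ (2 * m i))ᵀ * cq (Jm (2 * m i) (QB (β i))) = -(cq (Jm (2 * m i) (QB (β i))) * NN ℂ (2 * m i)) := by
    intro i
    have h2 : (cm (Am (2 * m i))).transpose * cm (Jm (2 * m i) (QB (β i))) + cm (Jm (2 * m i) (QB (β i))) * cm (Am (2 * m i)) = 0 :=
      Jc_rel
    rw [← NN_eq] at h2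
    exact eq_neg_of_add_eq_zero_left h2
  choose N1 hN1 using fun i => single_lem (hm i) (Δ := DN (β i)) (Jm_det (hQ i)) (Jm_skew (hQ i)) (hJr i)
  choose N2 hN2 using fun i j => pair_lem (hm i) (hm j) (Δ := DN (β i)) (Δ' := DN (β j)) (Jm_det (hQ i)) (Jm_skew (hQ i)) (hJr i)
    (Jm_det (hQ j)) (Jm_skew (hQ j)) (hJr j)
  set N := max (Finset.univ.sup N1) (Finset.univ.sup fun x : Fin r × Fin r => N2 x.1 x.2) with hN
  have hN1' : ∀ i, N1 i ≤ N := fun i => (Finset.le_sup (f := N1) (Finset.mem_univ i)).trans (le_max_left _ _)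
  have hN2' : ∀ i j, N2 i j ≤ N := fun i j =>
    (Finset.le_sup (f := fun x : Fin r × Fin r => N2 x.1 x.2) (Finset.mem_univ (i, j))).trans (le_max_right _ _)
  obtain ⟨G0, hG0, hfam⟩ := fam_alg β hm1 hβ hne
  refine ⟨G0, hG0, fun g hg g₀ A₀ => ?_⟩
  obtain ⟨Ex1, hE1⟩ := hfam g hg 1 g₀ A₀ 1 N
  obtain ⟨Ex2, hE2⟩ := hfam g hg 2 g₀ A₀ 1 N
  refine ⟨Ex1 + Ex2, fun b ξ hξ hHt => ?_⟩
  have hB1 : (1 : ℝ) ≤ (b : ℝ) + 2 := by linarith [(Nat.cast_nonneg b : (0 : ℝ) ≤ b)]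
  obtain ⟨hgb, hF1⟩ := hE1 b ξ ((pow_le_pow_right₀ hB1 (by omega)).trans hξ) hHt
  obtain ⟨-, hF2⟩ := hE2 b ξ ((pow_le_pow_right₀ hB1 (by omega)).trans hξ) hHt
  refine ⟨hgb, fun s c u hub huc l C M A q κ hC hq hM hκ hA Fil H hFil hH V hV hΦ X hX => ?_⟩
  -- the points
  have hz : ∀ a, 1 < ‖ξ - ((g * u a : ℕ) : ℂ)‖ := by
    intro a
    have h1 := norm_sub_norm_le ξ ((g * u a : ℕ) : ℂ)
    rw [Complex.norm_natCast] at h1
    have h2 : ((g * u a : ℕ) : ℝ) ≤ g * b := by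
      push_cast
      exact mul_le_mul_of_nonneg_left (by exact_mod_cast (hub a).2) (Nat.cast_nonneg g)
    linarith
  -- the data
  choose G B Λ Φ κ' c' hPD hHo hun using fun a => pd_x (hm1 (c a)) (hQ (c a)) (hz a) (l a) (hC a) (hM a) (hκ a) (hA a)
    (hFil a) (hH a)
  -- relations
  have hS : ∀ a, GenS N (Jm (2 * m (c a)) (QB (β (c a)))) (Hf (Hc (2 * m (c a)) (QB (β (c a)))) (1 / (ξ - ((g * u a : ℕ) : ℂ)))) := by
    intro a
    refine gens_of (fun K hK hKD P hP h0 γ hγ => ?_) (c a)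
    exact hF1 (fun _ => u a) (fun i j _ => Subsingleton.elim i j) (fun _ => hub a) K hK hKD P hP h0 γ hγ
  have hP : ∀ a a', a ≠ a' → GenP N (Jm (2 * m (c a)) (QB (β (c a)))) (Jm (2 * m (c a')) (QB (β (c a'))))
      (Hf (Hc (2 * m (c a)) (QB (β (c a)))) (1 / (ξ - ((g * u a : ℕ) : ℂ))))
      (Hf (Hc (2 * m (c a')) (QB (β (c a')))) (1 / (ξ - ((g * u a' : ℕ) : ℂ)))) := by
    intro a a' haa
    by_cases hu : u a = u a'
    · have hcc : c a ≠ c a' := fun h => huc a a' haa h hu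
      rw [← hu]
      refine genp_same (fun K hK hKD P hP h0 γ hγ => ?_) hcc
      exact hF1 (fun _ => u a) (fun i j _ => Subsingleton.elim i j) (fun _ => hub a) K hK hKD P hP h0 γ hγ
    · refine genp_diff (fun K hK hKD P hP h0 γ hγ => ?_) (c a) (c a')
      refine hF2 ![u a, u a'] ?_ ?_ K hK hKD P hP ?_ γ hγ
      · intro i j hij
        fin_cases i <;> fin_cases j
        · rfl
        · exact absurd hij hu
        · exact absurd hij.symm hu
        · rfl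
      · intro j
        fin_cases j
        · exact hub a
        · exact hub a'
      · rw [← h0]
        refine congrArg (fun z => MvPolynomial.aeval z P) (funext fun x => ?_)
        obtain ⟨j, x⟩ := x
        fin_cases j <;> rfl
  -- the reduction to similitudes
  set V' := V ⊓ gspT A with hV'
  have hΦV : Φ ∈ Submodule.span ℂ (tq '' (V' : Set (∀ a, Matrix (Fin (2 * m (c a))) (Fin (2 * m (c a))) ℚ))) := by
    refine span_ap fun φ => ⟨ap_mem (hΦ Φ hHo) φ, fun a => ⟨φ (((2 * m (c a) - 1 : ℕ) : ℂ)), ?_⟩⟩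
    have h1 := (hPD a).PhiA
    ext i j
    have h2 := congrArg φ (congrFun (congrFun h1 i) j)
    rw [Matrix.add_apply, Matrix.mul_apply, Matrix.mul_apply, map_add, map_sum, map_sum, Matrix.smul_apply, smul_eq_mul,
      cq_apply, phi_mul] at h2
    rw [Matrix.add_apply, Matrix.mul_apply, Matrix.mul_apply, Matrix.smul_apply, smul_eq_mul, ← h2]
    congr 1
    · refine Finset.sum_congr rfl fun k _ => ?_
      rw [cq_apply, phi_mul]
      rfl
    · refine Finset.sum_congr rfl fun k _ => ?_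
      rw [cq_apply, Matrix.transpose_apply, mul_comm (((A a i k : ℚ)) : ℂ), phi_mul, Matrix.transpose_apply, mul_comm]
      rfl
  have hbr : ∀ X ∈ V', ∀ Y ∈ V', (fun a => X a * Y a - Y a * X a) ∈ V' := by
    rintro X ⟨hX1, hX2⟩ Y ⟨hY1, hY2⟩
    refine ⟨hV X hX1 Y hY1, fun a => ⟨0, ?_⟩⟩
    obtain ⟨t, ht⟩ := hX2 a
    obtain ⟨t', ht'⟩ := hY2 a
    rw [zero_smul]
    exact br_gsp ht ht'
  have hmain : X ∈ V' := by
    refine ribet A (fun a => (hPD a).Askew) (fun a => (hPD a).Adet) V' hbr ?_ ?_ X hX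
    · intro a a' haa Z hZ
      have h1 := hN2 (c a) (c a') (q a) _ (G a) (B a) (Λ a) (Φ a) (M a) (A a) (κ' a) (c' a) (q a') _ (G a') (B a') (Λ a')
        (Φ a') (M a') (A a') (κ' a') (c' a') (hq a) (hq a') (hPD a) (hPD a') ((hP a a' haa).mono (hN2' _ _))
        (V'.map (LinearMap.prod (LinearMap.proj a) (LinearMap.proj a'))) (by
          rintro _ ⟨u, hu, rfl⟩ _ ⟨v, hv, rfl⟩
          exact ⟨_, hbr u hu v hv, rfl⟩) (by
          have h2 : (Φ a, Φ a') ∈ (Submodule.span ℂ (tq '' (V' : Set (∀ a, Matrix (Fin (2 * m (c a))) (Fin (2 * m (c a))) ℚ)))).map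
            (LinearMap.prod (LinearMap.proj a) (LinearMap.proj a')) := ⟨_, hΦV, rfl⟩
          rw [Submodule.map_span] at h2
          refine Submodule.span_mono ?_ h2
          rintro _ ⟨_, ⟨z, hz, rfl⟩, rfl⟩
          exact ⟨(z a, z a'), ⟨z, hz, rfl⟩, rfl⟩) (by
          rintro _ ⟨u, hu, rfl⟩
          exact hu.2 a) (by
          rintro _ ⟨u, hu, rfl⟩
          exact hu.2 a') Z hZ
      obtain ⟨Y, hY, hYe⟩ := h1
      exact ⟨Y, hY, congrArg Prod.fst hYe, congrArg Prod.snd hYe⟩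
    · intro a Z hZ
      have h1 := hN1 (c a) (q a) _ (G a) (B a) (Λ a) (Φ a) (M a) (A a) (κ' a) (c' a) (hq a) (hPD a) ((hS a).mono (hN1' _))
        (V'.map (LinearMap.proj a)) (by
          rintro _ ⟨u, hu, rfl⟩ _ ⟨v, hv, rfl⟩
          exact ⟨_, hbr u hu v hv, rfl⟩) (by
          have h2 : Φ a ∈ (Submodule.span ℂ (tq '' (V' : Set (∀ a, Matrix (Fin (2 * m (c a))) (Fin (2 * m (c a))) ℚ)))).map
            (LinearMap.proj a) := ⟨_, hΦV, rfl⟩
          rw [Submodule.map_span] at h2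
          refine Submodule.span_mono ?_ h2
          rintro _ ⟨_, ⟨z, hz, rfl⟩, rfl⟩
          exact ⟨z a, ⟨z, hz, rfl⟩, rfl⟩) Z hZ
      obtain ⟨Y, hY, hYe⟩ := h1
      exact ⟨Y, hY, hYe⟩
  exact hmain.1

end Pool.Agent.W2helper4.MJ
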