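import Pool.Agent.Y119.HA.Mt

/-!
# The data at one point
-/

set_option autoImplicit false
set_option maxHeartbeats 1000000

open Matrix PowerSeries Pool.Agent.Y119.HY Pool.Agent.Y119.HZ Pool.Agent.Y118.CM Pool.Agent.Y113.MT
open Pool.Agent.Y119.HA

namespace Pool.Agent.W2helper4.MJ

/-- the data over `ℂ` at one point -/
structure PD {m : ℕ} (J Δ : Matrix (Fin (2 * m)) (Fin (2 * m)) ℚ) (q : ℂ)
    (g G B Λ Φ : Matrix (Fin (2 * m)) (Fin (2 * m)) ℂ) (M A : Matrix (Fin (2 * m)) (Fin (2 * m)) ℚ) (κ c : ℂ) : Prop where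
  gJ : gᵀ * cq J * g = cq J
  k0 : κ ≠ 0
  c0 : c ≠ 0
  GM : G * cq M = q • (NN ℂ (2 * m) * G)
  GA : G * cq A * Gᵀ = κ • (cq J)⁻¹
  BL : B = Λ * (cq Δ * (g * G))
  Ll : ∀ a b, a < b → Λ a b = 0
  BA : B * cq A * Bᵀ = c • SS ℂ (2 * m)
  Bs : ∀ i j, star (B i j) = B (Fin.rev i) j
  BP : B * Φ = Matrix.diagonal (fun i : Fin (2 * m) => ((2 * m - 1 - (i : ℕ) : ℕ) : ℂ)) * B

section
variable {m : ℕ} {J Δ : Matrix (Fin (2 * m)) (Fin (2 * m)) ℚ} {q : ℂ}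
    {g G B Λ Φ : Matrix (Fin (2 * m)) (Fin (2 * m)) ℂ} {M A : Matrix (Fin (2 * m)) (Fin (2 * m)) ℚ} {κ c : ℂ}

lemma PD.toID (h : PD J Δ q g G B Λ Φ M A κ c) {k r : ℕ} {x : Fin r → Matrix (Fin (2 * m)) (Fin (2 * m)) ℚ}
    (gen : ∀ P : MvPolynomial (Fin (2 * m) × Fin (2 * m)) ℚ, P.totalDegree ≤ k →
      MvPolynomial.aeval (fun z => g z.1 z.2) P = 0 → ∀ h : Matrix (Fin (2 * m)) (Fin (2 * m)) ℂ, hᵀ * cq J * h = cq J →
      MvPolynomial.aeval (fun z => h z.1 z.2) P = 0)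
    (br : ∀ a b, x a * x b - x b * x a ∈ Submodule.span ℚ (Set.range x))
    (Pm : Φ ∈ Submodule.span ℂ (Set.range fun a => cq (x a))) : ID J Δ q k g G B Λ Φ M A x κ c :=
  ⟨h.gJ, gen, h.k0, h.c0, h.GM, h.GA, h.BL, h.Ll, h.BA, h.Bs, h.BP, br, Pm⟩

lemma PD.Bdet (h : PD J Δ q g G B Λ Φ M A κ c) : B.det ≠ 0 := by
  intro h0
  have h1 := congrArg Matrix.det h.BA
  rw [Matrix.det_mul, Matrix.det_mul, h0, zero_mul, zero_mul, Matrix.det_smul] at h1
  exact mul_ne_zero (pow_ne_zero _ h.c0) (SS_det m) h1.symm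

lemma PD.Adet (h : PD J Δ q g G B Λ Φ M A κ c) : A.det ≠ 0 := by
  intro h0
  have h1 := congrArg Matrix.det h.BA
  have h2 : (cq A).det = 0 := by
    rw [cq_det, h0, Rat.cast_zero]
  rw [Matrix.det_mul, Matrix.det_mul, h2, mul_zero, zero_mul, Matrix.det_smul] at h1
  exact mul_ne_zero (pow_ne_zero _ h.c0) (SS_det m) h1.symm

lemma cancel2 {n : ℕ} {B X Y : Matrix (Fin n) (Fin n) ℂ} (hB : B.det ≠ 0) (h : B * X * Bᵀ = B * Y * Bᵀ) : X = Y := by
  have hBu : IsUnit B.det := isUnit_iff_ne_zero.2 hB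
  have hBTu : IsUnit Bᵀ.det := by rwa [Matrix.det_transpose]
  have h3 : ∀ Z : Matrix (Fin n) (Fin n) ℂ, B⁻¹ * (B * Z * Bᵀ) * Bᵀ⁻¹ = Z := by
    intro Z
    calc B⁻¹ * (B * Z * Bᵀ) * Bᵀ⁻¹ = (B⁻¹ * B) * Z * (Bᵀ * Bᵀ⁻¹) := by simp only [Matrix.mul_assoc]
      _ = Z := by rw [Matrix.nonsing_inv_mul _ hBu, Matrix.mul_nonsing_inv _ hBTu, Matrix.one_mul, Matrix.mul_one]
  rw [← h3 X, h, h3]

lemma PD.Askew (h : PD J Δ q g G B Λ Φ M A κ c) : Aᵀ = -A := by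
  apply cq_inj
  rw [cq_neg, cq_tr]
  refine cancel2 h.Bdet ?_
  have h2 := congrArg Matrix.transpose h.BA
  rw [Matrix.transpose_mul, Matrix.transpose_mul, Matrix.transpose_transpose, Matrix.transpose_smul, SS_tr, smul_neg,
    ← h.BA, ← Matrix.mul_assoc] at h2
  rw [h2, Matrix.mul_neg, Matrix.neg_mul]

/-- the Hodge operator is an infinitesimal similitude -/
lemma PD.PhiA (h : PD J Δ q g G B Λ Φ M A κ c) : Φ * cq A + cq A * Φᵀ = ((2 * m - 1 : ℕ) : ℂ) • cq A := by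
  refine cancel2 h.Bdet ?_
  set Dg : Matrix (Fin (2 * m)) (Fin (2 * m)) ℂ := Matrix.diagonal (fun i : Fin (2 * m) => ((2 * m - 1 - (i : ℕ) : ℕ) : ℂ))
    with hDg
  have h1 : B * (Φ * cq A) * Bᵀ = Dg * (c • SS ℂ (2 * m)) := by
    rw [← h.BA]
    calc B * (Φ * cq A) * Bᵀ = (B * Φ) * cq A * Bᵀ := by simp only [Matrix.mul_assoc]
      _ = _ := by
        rw [h.BP, ← hDg]
        simp only [Matrix.mul_assoc]
  have h2 : B * (cq A * Φᵀ) * Bᵀ = (c • SS ℂ (2 * m)) * Dgᵀ := by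
    rw [← h.BA]
    calc B * (cq A * Φᵀ) * Bᵀ = B * cq A * (B * Φ)ᵀ := by
          rw [Matrix.transpose_mul]
          simp only [Matrix.mul_assoc]
      _ = _ := by
        rw [h.BP, ← hDg, Matrix.transpose_mul]
        simp only [Matrix.mul_assoc]
  have h3 : B * (((2 * m - 1 : ℕ) : ℂ) • cq A) * Bᵀ = ((2 * m - 1 : ℕ) : ℂ) • (c • SS ℂ (2 * m)) := by
    rw [Matrix.mul_smul, Matrix.smul_mul, h.BA]
  rw [Matrix.mul_add, Matrix.add_mul, h1, h2, h3, Matrix.mul_smul, Matrix.smul_mul, hDg, Matrix.diagonal_transpose]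
  ext i j
  simp only [Matrix.add_apply, Matrix.smul_apply, Matrix.diagonal_mul, Matrix.mul_diagonal, smul_eq_mul]
  have hi := i.2
  have hj := j.2
  unfold SS
  rw [Matrix.of_apply]
  split_ifs with hij
  · have e : ((2 * m - 1 : ℕ) : ℂ) = ((2 * m - 1 - (i : ℕ) : ℕ) : ℂ) + ((2 * m - 1 - (j : ℕ) : ℕ) : ℂ) := by
      rw [← Nat.cast_add]
      congr 1
      omega
    rw [e]
    ring
  · ring

end

section
variable {m : ℕ} {β : Fin m → ℚ}

/-- **The data at one point.** -/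
theorem pd_x (hm : 1 ≤ m) (hQ : QD (2 * m) (QB β)) {ξ : ℂ} (hξ : 1 < ‖ξ‖) (l : ℂ)
    {C : Matrix (Fin (2 * m)) (Fin (2 * m)) ℂ} {M A : Matrix (Fin (2 * m)) (Fin (2 * m)) ℚ} {q κ : ℂ} (hC : C.det ≠ 0)
    (hM : C * cq M = q • (NN ℂ (2 * m) * C)) (hκ : κ ≠ 0) (hA : C * cq A * Cᵀ = κ • SS ℂ (2 * m))
    {Fil H : ℕ → Submodule ℂ (Fin (2 * m) → ℂ)} (hFil : ∀ p, m ≤ p → Fil p = Flx β ξ l C p) (hH : Polarised Fil A H) :
    ∃ (G B Λ Φ : Matrix (Fin (2 * m)) (Fin (2 * m)) ℂ) (κ' c : ℂ),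
      PD (Jm (2 * m) (QB β)) (DN β) q (Hf (Hc (2 * m) (QB β)) (1 / ξ)) G B Λ Φ M A κ' c ∧
      (∀ p < 2 * m, ∀ v ∈ H p, v ᵥ* Φ = (p : ℂ) • v) ∧
      (∀ Φ' : Matrix (Fin (2 * m)) (Fin (2 * m)) ℂ, (∀ p < 2 * m, ∀ v ∈ H p, v ᵥ* Φ' = (p : ℂ) • v) → Φ' = Φ) := by
  set J := cm (Jm (2 * m) (QB β)) with hJ
  set g := Hf (Hc (2 * m) (QB β)) (1 / ξ) with hg
  set G := Ccx β l C with hG
  set S := cm (J0 (2 * m)) with hS
  have hJd : J.det ≠ 0 := Jc_det hQ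
  have hJu : IsUnit J.det := isUnit_iff_ne_zero.2 hJd
  have hCu : IsUnit C.det := isUnit_iff_ne_zero.2 hC
  have hCTu : IsUnit Cᵀ.det := by rwa [Matrix.det_transpose]
  have hGd : G.det ≠ 0 := Ccx_det hQ l hC
  have hGu : IsUnit G.det := isUnit_iff_ne_zero.2 hGd
  have hSS : S * S = -1 := by
    rw [hS, ← cm_mul, J0_sq ⟨m, by ring⟩, cm_neg, cm_one]
  have hgJ : gᵀ * J * g = J := by
    have h1 : ‖1 / ξ‖ < 1 := by
      rw [norm_div, norm_one, div_lt_one (by linarith)]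
      exact hξ
    exact form_c hQ h1
  have hA' : C * cq A * Cᵀ = κ • S := by rw [hA, SS_eq]
  -- `A` in terms of `C`
  have hCSC : (Cᵀ * S * C) * cq A = -κ • (1 : Matrix (Fin (2 * m)) (Fin (2 * m)) ℂ) := by
    have e1 : (Cᵀ * S * C) * cq A * Cᵀ = -κ • Cᵀ := by
      calc (Cᵀ * S * C) * cq A * Cᵀ = Cᵀ * S * (C * cq A * Cᵀ) := by simp only [Matrix.mul_assoc]
        _ = κ • (Cᵀ * (S * S)) := by rw [hA', Matrix.mul_smul, Matrix.mul_assoc]
        _ = -κ • Cᵀ := by rw [hSS, Matrix.mul_neg, Matrix.mul_one, smul_neg, neg_smul]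
    calc (Cᵀ * S * C) * cq A = (Cᵀ * S * C) * cq A * (Cᵀ * Cᵀ⁻¹) := by rw [Matrix.mul_nonsing_inv _ hCTu, Matrix.mul_one]
      _ = (-κ • Cᵀ) * Cᵀ⁻¹ := by rw [← e1]; simp only [Matrix.mul_assoc]
      _ = _ := by rw [Matrix.smul_mul, Matrix.mul_nonsing_inv _ hCTu]
  have hpol : Gᵀ * J * G = ((-1 : ℂ) ^ m * 1) • (Cᵀ * S * C) := Ccx_pol hQ l (by rw [one_smul])
  rw [mul_one] at hpol
  have hGA : G * cq A * Gᵀ = (-κ * (-1) ^ m) • J⁻¹ := by
    have e1 : (Gᵀ * J * G) * cq A = (-κ * (-1) ^ m) • (1 : Matrix (Fin (2 * m)) (Fin (2 * m)) ℂ) := by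
      rw [hpol, Matrix.smul_mul, hCSC, smul_smul]
      congr 1
      ring
    have e2 : J * G * cq A * Gᵀ = (-κ * (-1) ^ m) • (1 : Matrix (Fin (2 * m)) (Fin (2 * m)) ℂ) := by
      have hGTu : IsUnit Gᵀ.det := by rwa [Matrix.det_transpose]
      calc J * G * cq A * Gᵀ = Gᵀ⁻¹ * Gᵀ * (J * G * cq A * Gᵀ) := by rw [Matrix.nonsing_inv_mul _ hGTu, Matrix.one_mul]
        _ = Gᵀ⁻¹ * ((Gᵀ * J * G) * cq A) * Gᵀ := by simp only [Matrix.mul_assoc]
        _ = (-κ * (-1) ^ m) • (Gᵀ⁻¹ * Gᵀ) := by rw [e1, Matrix.mul_smul, Matrix.smul_mul, Matrix.mul_one]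
        _ = _ := by rw [Matrix.nonsing_inv_mul _ hGTu]
    calc G * cq A * Gᵀ = J⁻¹ * J * (G * cq A * Gᵀ) := by rw [Matrix.nonsing_inv_mul _ hJu, Matrix.one_mul]
      _ = J⁻¹ * (J * G * cq A * Gᵀ) := by simp only [Matrix.mul_assoc]
      _ = _ := by rw [e2, Matrix.mul_smul, Matrix.mul_one]
  have hk' : (-κ * (-1) ^ m) ≠ 0 := mul_ne_zero (neg_ne_zero.2 hκ) (pow_ne_zero _ (by norm_num))
  have hAt : Aᵀ = -A := by
    apply cq_inj
    rw [cq_neg, cq_tr]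
    have hSt : Sᵀ = -S := by
      rw [hS, ← SS_eq]
      exact SS_tr m
    have h1 : C * (cq A)ᵀ * Cᵀ = C * (-cq A) * Cᵀ := by
      have h2 := congrArg Matrix.transpose hA'
      rw [Matrix.transpose_mul, Matrix.transpose_mul, Matrix.transpose_transpose, Matrix.transpose_smul, hSt, smul_neg,
        ← hA'] at h2
      rw [Matrix.mul_neg, Matrix.neg_mul, ← h2, Matrix.mul_assoc]
    have h2 := congrArg (fun Z => C⁻¹ * Z * Cᵀ⁻¹) h1
    have h3 : ∀ Z : Matrix (Fin (2 * m)) (Fin (2 * m)) ℂ, C⁻¹ * (C * Z * Cᵀ) * Cᵀ⁻¹ = Z := by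
      intro Z
      calc C⁻¹ * (C * Z * Cᵀ) * Cᵀ⁻¹ = (C⁻¹ * C) * Z * (Cᵀ * Cᵀ⁻¹) := by simp only [Matrix.mul_assoc]
        _ = Z := by rw [Matrix.nonsing_inv_mul _ hCu, Matrix.mul_nonsing_inv _ hCTu, Matrix.one_mul, Matrix.mul_one]
    simp only [h3] at h2
    exact h2
  -- the matrix `P`
  set P := cq (DN β) * (g * G) with hP
  have hgJi : g * J⁻¹ * gᵀ = J⁻¹ := by
    have h1 : (J⁻¹ * gᵀ * J) * g = 1 := by
      rw [Matrix.mul_assoc, Matrix.mul_assoc, ← Matrix.mul_assoc gᵀ, hgJ, Matrix.nonsing_inv_mul _ hJu]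
    have h2 : g * (J⁻¹ * gᵀ * J) = 1 := mul_eq_one_comm.1 h1
    calc g * J⁻¹ * gᵀ = (g * (J⁻¹ * gᵀ * J)) * J⁻¹ := by
          simp only [Matrix.mul_assoc]
          rw [Matrix.mul_nonsing_inv _ hJu, Matrix.mul_one]
      _ = _ := by rw [h2, Matrix.one_mul]
  have hPA : P * cq A * Pᵀ = (κ • (1 : ℂ)) • S := by
    calc P * cq A * Pᵀ = cq (DN β) * (g * (G * cq A * Gᵀ) * gᵀ) * (cq (DN β))ᵀ := by
          rw [hP, Matrix.transpose_mul, Matrix.transpose_mul]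
          simp only [Matrix.mul_assoc]
      _ = (-κ * (-1) ^ m) • (cq (DN β) * J⁻¹ * (cq (DN β))ᵀ) := by
          rw [hGA, Matrix.mul_smul, Matrix.smul_mul, hgJi, Matrix.mul_smul, Matrix.smul_mul]
      _ = _ := by
          have h1 := DN_J hQ
          rw [cm_cq] at h1
          rw [h1, smul_smul]
          congr 1
          have e3 : ((-1 : ℂ)) ^ m * (-1) ^ m = 1 := by
            rw [← mul_pow]
            norm_num
          rw [smul_eq_mul]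
          linear_combination κ * e3
  have hPd : P.det ≠ 0 := by
    intro h0
    have h1 := congrArg Matrix.det hPA
    rw [Matrix.det_mul, Matrix.det_mul, h0, zero_mul, zero_mul, Matrix.det_smul] at h1
    have h2 : S.det ≠ 0 := by
      intro h3
      have h4 := congrArg Matrix.det hSS
      rw [Matrix.det_mul, h3, zero_mul] at h4
      have h5 : (-1 : Matrix (Fin (2 * m)) (Fin (2 * m)) ℂ).det ≠ 0 := by
        rw [Matrix.det_neg, Matrix.det_one, mul_one]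
        exact pow_ne_zero _ (by norm_num)
      exact h5 h4.symm
    refine mul_ne_zero (pow_ne_zero _ ?_) h2 h1.symm
    simpa using hκ
  have hProw : ∀ a : Fin (2 * m), (a : ℕ) < m → P a = perx β ξ l a ᵥ* C := by
    intro a ha
    rw [perx_C hQ (by omega) hξ l C, ← hg, ← hG, ← DN_row β a, vecMul_vecMul]
    rfl
  obtain ⟨B, Λ, c, hc, hBA, hBs, hBH, hBL, hLl⟩ := Pool.Agent.Y31.MT.idx m hm Fil H A P hH hAt hPd (by
    intro a b hab
    rw [hPA, Matrix.smul_apply, hS, cm_apply]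
    unfold J0
    rw [Matrix.of_apply, if_neg (by omega)]
    simp) (by
    intro i hi
    rw [hFil _ (by omega)]
    unfold Flx
    congr 1
    ext v
    constructor
    · rintro ⟨a, ha, rfl⟩
      refine ⟨⟨a, by omega⟩, by show a < i; omega, ?_⟩
      exact (hProw ⟨a, by omega⟩ (by show a < m; omega)).symm
    · rintro ⟨a, ha, rfl⟩
      refine ⟨a, by omega, ?_⟩
      exact hProw a (by omega))
  have hBd : B.det ≠ 0 := by
    intro h0
    have h1 := congrArg Matrix.det hBA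
    rw [Matrix.det_mul, Matrix.det_mul, h0, zero_mul, zero_mul, Matrix.det_smul] at h1
    exact mul_ne_zero (pow_ne_zero _ hc) (SS_det m) h1.symm
  have hBu : IsUnit B.det := isUnit_iff_ne_zero.2 hBd
  set Dg : Matrix (Fin (2 * m)) (Fin (2 * m)) ℂ := Matrix.diagonal (fun i : Fin (2 * m) => ((2 * m - 1 - (i : ℕ) : ℕ) : ℂ)) with hDg
  have hBP : B * (B⁻¹ * Dg * B) = Dg * B := by
    rw [← Matrix.mul_assoc, ← Matrix.mul_assoc, Matrix.mul_nonsing_inv _ hBu, Matrix.one_mul]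
  refine ⟨G, B, Λ, B⁻¹ * Dg * B, _, c, ⟨hgJ, hk', hc, ?_, hGA, hBL, hLl, hBA, hBs, hBP⟩, ?_, ?_⟩
  · have h1 := Ccx_mon hQ l (C := C) (M := cq M) (s := q) (by rw [hM, NN_eq])
    rw [← NN_eq] at h1
    exact h1
  · intro p hp v hv
    set w := v ᵥ* B⁻¹ with hw
    have hvw : v = w ᵥ* B := by
      rw [hw, vecMul_vecMul, Matrix.nonsing_inv_mul _ hBu, vecMul_one]
    have hw0 : ∀ i : Fin (2 * m), (i : ℕ) ≠ 2 * m - 1 - p → w i = 0 := by
      intro i hi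
      have h1 : v ⬝ᵥ (cq A *ᵥ B (Fin.rev i)) = 0 := by
        have hrev : ((Fin.rev i : Fin (2 * m)) : ℕ) = 2 * m - (i + 1) := Fin.val_rev i
        have hi2 := i.2
        refine hH.orth p hp (2 * m - 1 - (Fin.rev i : Fin (2 * m))) (by omega) (by omega) v hv _ (hBH _)
      have h2 : v ⬝ᵥ (cq A *ᵥ B (Fin.rev i)) = (w ᵥ* (B * cq A * Bᵀ)) (Fin.rev i) := by
        rw [← vecMul_vecMul, ← vecMul_vecMul, ← hvw, Matrix.dotProduct_mulVec]
        rfl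
      rw [h2, hBA] at h1
      have h3 : (w ᵥ* (c • SS ℂ (2 * m))) (Fin.rev i) = c * (w i * (-1) ^ (i : ℕ)) := by
        rw [Matrix.vecMul_smul, Pi.smul_apply, smul_eq_mul]
        congr 1
        show ∑ j, w j * SS ℂ (2 * m) j (Fin.rev i) = _
        rw [Finset.sum_eq_single i]
        · unfold SS
          rw [Matrix.of_apply, if_pos (by rw [Fin.val_rev]; have := i.2; omega)]
        · intro j _ hj
          unfold SS
          rw [Matrix.of_apply, if_neg, mul_zero]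
          intro h4
          apply hj
          rw [Fin.val_rev] at h4
          have := i.2
          have := j.2
          exact Fin.ext (by omega)
        · intro h4
          exact absurd (Finset.mem_univ _) h4
      rw [h3] at h1
      have h5 := (mul_eq_zero.1 h1).resolve_left hc
      exact (mul_eq_zero.1 h5).resolve_right (pow_ne_zero _ (by norm_num))
    have h6 : v ᵥ* (B⁻¹ * Dg * B) = (w ᵥ* Dg) ᵥ* B := by
      rw [← vecMul_vecMul, ← vecMul_vecMul]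
    rw [h6]
    have h7 : w ᵥ* Dg = (p : ℂ) • w := by
      funext i
      rw [hDg, Matrix.vecMul_diagonal, Pi.smul_apply, smul_eq_mul]
      by_cases hi : (i : ℕ) = 2 * m - 1 - p
      · rw [hi, show 2 * m - 1 - (2 * m - 1 - p) = p by omega, mul_comm]
      · rw [hw0 i hi, zero_mul, mul_zero]
    rw [h7, Matrix.smul_vecMul, ← hvw]
  · intro Φ' hΦ'
    have h1 : B * Φ' = Dg * B := by
      ext i j
      have hi := i.2
      have h2 := hΦ' (2 * m - 1 - (i : ℕ)) (by omega) (B i) (hBH i)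
      have h3 := congrFun h2 j
      rw [hDg, Matrix.diagonal_mul]
      exact h3
    rw [Matrix.mul_assoc, ← h1, ← Matrix.mul_assoc, Matrix.nonsing_inv_mul _ hBu, Matrix.one_mul]

end

end Pool.Agent.W2helper4.MJ
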